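import Pool.Agent.Helper63.Mk.Eq2
import Pool.Graph.R_pool_sql_team_seeded_63374d34.Results.MP_df2bd8_gt.QuasiConformalFlags

/-!
Project Mk (helper63): reduction of domain quotients with parallel vector fields to the model.
-/

set_option autoImplicit false

open Set Filter Topology
open scoped Matrix
open Pool.Agent.W689.Mk Pool.Agent.Y449.MK

namespace Pool.Agent.Helper63.Mk

/-- adapted coordinates -/
theorem exists_coord {E : Type} [NormedAddCommGroup E] [NormedSpace ℝ E] [FiniteDimensional ℝ E]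
    (W : Submodule ℝ E) (hW : Module.finrank ℝ E = Module.finrank ℝ W + 2) :
    ∃ e : E ≃ₗ[ℝ] (W × V2), ∀ w : W, e.symm (w, 0) = w := by
  obtain ⟨U, hU⟩ := W.exists_isCompl
  have h2 : Module.finrank ℝ U = Module.finrank ℝ V2 := by
    have := Submodule.finrank_add_eq_of_isCompl hU
    simp
    omega
  let u : U ≃ₗ[ℝ] V2 := LinearEquiv.ofFinrankEq U V2 h2
  let f : (W × V2) ≃ₗ[ℝ] E := ((LinearEquiv.refl ℝ W).prodCongr u.symm).trans
    (Submodule.prodEquivOfIsCompl W U hU)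
  refine ⟨f.symm, fun w => ?_⟩
  rw [LinearEquiv.symm_symm]
  show Submodule.prodEquivOfIsCompl W U hU (w, u.symm 0) = w
  rw [map_zero]
  simp

section
variable {E H : Type} [NormedAddCommGroup E] [NormedSpace ℝ E] [FiniteDimensional ℝ E] [Group H]
  {hol : H →* (E ≃ᵃ[ℝ] E)} {W : Submodule ℝ E}

/-- the data of the coordinates -/
structure Cd (hol : H →* (E ≃ᵃ[ℝ] E)) (W : Submodule ℝ E) (e : E ≃ₗ[ℝ] (W × V2)) : Prop where
  sym : ∀ w : W, e.symm (w, 0) = w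
  fix : ∀ γ, ∀ w ∈ W, (hol γ).linear w = w

variable {e : E ≃ₗ[ℝ] (W × V2)}

/-- the linear action on the plane -/
noncomputable def cl (hol : H →* (E ≃ᵃ[ℝ] E)) (e : E ≃ₗ[ℝ] (W × V2)) (γ : H) : V2 →ₗ[ℝ] V2 :=
  LinearMap.snd ℝ W V2 ∘ₗ (e : E →ₗ[ℝ] (W × V2)) ∘ₗ ((hol γ).linear : E →ₗ[ℝ] E) ∘ₗ
    (e.symm : (W × V2) →ₗ[ℝ] E) ∘ₗ LinearMap.inr ℝ W V2

/-- the mixed part -/
noncomputable def cb (hol : H →* (E ≃ᵃ[ℝ] E)) (e : E ≃ₗ[ℝ] (W × V2)) (γ : H) : V2 →ₗ[ℝ] W :=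
  LinearMap.fst ℝ W V2 ∘ₗ (e : E →ₗ[ℝ] (W × V2)) ∘ₗ ((hol γ).linear : E →ₗ[ℝ] E) ∘ₗ
    (e.symm : (W × V2) →ₗ[ℝ] E) ∘ₗ LinearMap.inr ℝ W V2

theorem Cd.lin_eq (C : Cd hol W e) (γ : H) (p : W × V2) :
    e ((hol γ).linear (e.symm p)) = (p.1 + cb hol e γ p.2, cl hol e γ p.2) := by
  have h1 : p = (p.1, 0) + (0, p.2) := by simp
  have h2 : e ((hol γ).linear (e.symm (p.1, 0))) = (p.1, 0) := by
    rw [C.sym, C.fix γ _ p.1.2, ← C.sym p.1, e.apply_symm_apply]
  conv_lhs => rw [h1]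
  rw [map_add e.symm, map_add, map_add e, h2]
  refine Prod.ext ?_ ?_
  · show p.1 + (e ((hol γ).linear (e.symm (0, p.2)))).1 = _
    rfl
  · show 0 + (e ((hol γ).linear (e.symm (0, p.2)))).2 = _
    rw [zero_add]
    rfl

theorem aff_eq' (T : E ≃ᵃ[ℝ] E) (v : E) : T v = T 0 + T.linear v := by
  have h := T.map_vadd 0 v
  rw [vadd_eq_add, vadd_eq_add, add_zero] at h
  rw [h, add_comm]

theorem Cd.eq (C : Cd hol W e) (γ : H) (p : W × V2) :
    e (hol γ (e.symm p)) = (p.1 + (cb hol e γ p.2 + (e (hol γ 0)).1),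
      cl hol e γ p.2 + (e (hol γ 0)).2) := by
  rw [aff_eq' (hol γ), map_add e, C.lin_eq]
  refine Prod.ext ?_ ?_
  · show (e (hol γ 0)).1 + (p.1 + cb hol e γ p.2) = _
    abel_nf
  · show (e (hol γ 0)).2 + cl hol e γ p.2 = _
    abel_nf

theorem Cd.cl_mul (C : Cd hol W e) (γ δ : H) : cl hol e (γ * δ) = cl hol e γ ∘ₗ cl hol e δ := by
  apply LinearMap.ext
  intro v
  have h1 : (hol (γ * δ)).linear (e.symm (0, v)) =
      (hol γ).linear (e.symm (e ((hol δ).linear (e.symm (0, v))))) := by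
    rw [e.symm_apply_apply, map_mul]
    rfl
  have h2 : (cl hol e (γ * δ)) v = (e ((hol (γ * δ)).linear (e.symm (0, v)))).2 := rfl
  rw [h2, h1, C.lin_eq δ (0, v), C.lin_eq]
  rfl

theorem Cd.cb_mul (C : Cd hol W e) (γ δ : H) (v : V2) :
    cb hol e (γ * δ) v = cb hol e δ v + cb hol e γ (cl hol e δ v) := by
  have h1 : (hol (γ * δ)).linear (e.symm (0, v)) =
      (hol γ).linear (e.symm (e ((hol δ).linear (e.symm (0, v))))) := by
    rw [e.symm_apply_apply, map_mul]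
    rfl
  have h2 : (cb hol e (γ * δ)) v = (e ((hol (γ * δ)).linear (e.symm (0, v)))).1 := rfl
  rw [h2, h1, C.lin_eq δ (0, v), C.lin_eq]
  show 0 + cb hol e δ v + cb hol e γ (cl hol e δ v) = _
  rw [zero_add]

theorem Cd.cl_one (C : Cd hol W e) : cl hol e 1 = LinearMap.id := by
  apply LinearMap.ext
  intro v
  have h2 : (cl hol e 1) v = (e ((hol 1).linear (e.symm (0, v)))).2 := rfl
  rw [h2, map_one]
  show (e (e.symm (0, v))).2 = v
  rw [e.apply_symm_apply]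

theorem Cd.tr_mul (C : Cd hol W e) (γ δ : H) :
    e (hol (γ * δ) 0) = ((e (hol δ 0)).1 + (cb hol e γ (e (hol δ 0)).2 + (e (hol γ 0)).1),
      cl hol e γ (e (hol δ 0)).2 + (e (hol γ 0)).2) := by
  have h1 : hol (γ * δ) 0 = hol γ (e.symm (e (hol δ 0))) := by
    rw [e.symm_apply_apply, map_mul]
    rfl
  rw [h1, C.eq]

/-- the matrices -/
noncomputable def Cd.D (C : Cd hol W e) : H →* M2 where
  toFun γ := LinearMap.toMatrix' (cl hol e γ)
  map_one' := by rw [C.cl_one, LinearMap.toMatrix'_id]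
  map_mul' γ δ := by rw [C.cl_mul, LinearMap.toMatrix'_comp]

theorem Cd.D_mulVec (C : Cd hol W e) (γ : H) (v : V2) : C.D γ *ᵥ v = cl hol e γ v := by
  show LinearMap.toMatrix' (cl hol e γ) *ᵥ v = cl hol e γ v
  rw [← Matrix.toLin'_apply, Matrix.toLin'_toMatrix']

theorem Cd.det (C : Cd hol W e) (hdet : ∀ γ, |LinearMap.det ((hol γ).linear : E →ₗ[ℝ] E)| = 1)
    (γ : H) : |(C.D γ).det| = 1 := by
  rw [← det_tri (cb hol e γ) (C.D γ), ← hdet γ]
  congr 1
  have h1 : tri (cb hol e γ) (C.D γ) = (e : E →ₗ[ℝ] (W × V2)) ∘ₗ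
      ((hol γ).linear : E →ₗ[ℝ] E) ∘ₗ (e.symm : (W × V2) →ₗ[ℝ] E) := by
    apply LinearMap.ext
    intro p
    rw [tri_apply, C.D_mulVec]
    exact (C.lin_eq γ p).symm
  rw [h1, LinearMap.det_conj]

/-- norms in the coordinates -/
theorem coord_bound (e : E ≃ₗ[ℝ] (W × V2)) : ∃ B : ℝ, 0 ≤ B ∧
    (∀ x : E, |(e x).2 0| ≤ B * ‖x‖ ∧ |(e x).2 1| ≤ B * ‖x‖) ∧
    ∀ v : V2, ‖e.symm (0, v)‖ ≤ B * (|v 0| + |v 1|) := by
  let f : E →L[ℝ] (W × V2) := LinearMap.toContinuousLinearMap (e : E →ₗ[ℝ] (W × V2))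
  let g : (W × V2) →L[ℝ] E := LinearMap.toContinuousLinearMap (e.symm : (W × V2) →ₗ[ℝ] E)
  refine ⟨‖f‖ + ‖g‖, by positivity, fun x => ?_, fun v => ?_⟩
  · have h1 : ‖(e x).2‖ ≤ ‖f‖ * ‖x‖ := (norm_snd_le (f x)).trans (f.le_opNorm x)
    have h2 := norm_le_pi_norm (e x).2 0
    have h3 := norm_le_pi_norm (e x).2 1
    rw [Real.norm_eq_abs] at h2 h3
    have h4 : 0 ≤ ‖g‖ * ‖x‖ := by positivity
    constructor <;> nlinarith
  · have h1 : ‖e.symm (0, v)‖ ≤ ‖g‖ * ‖((0, v) : W × V2)‖ := g.le_opNorm _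
    have h2 : ‖((0, v) : W × V2)‖ ≤ |v 0| + |v 1| := by
      rw [Prod.norm_def, norm_zero, max_eq_right (norm_nonneg _),
        pi_norm_le_iff_of_nonneg (by positivity)]
      intro i
      fin_cases i
      · show |v 0| ≤ _
        linarith [abs_nonneg (v 1)]
      · show |v 1| ≤ _
        linarith [abs_nonneg (v 0)]
    have h3 : 0 ≤ ‖f‖ * (|v 0| + |v 1|) := by positivity
    have h4 : ‖g‖ * ‖((0, v) : W × V2)‖ ≤ ‖g‖ * (|v 0| + |v 1|) := by gcongr
    calc _ ≤ ‖g‖ * (|v 0| + |v 1|) := h1.trans h4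
      _ ≤ _ := by nlinarith

/-- conformality modulo `W` for bounded groups -/
theorem Cd.flag_bdd (C : Cd hol W e) {R : ℝ} (hR : ∀ γ i j, |C.D γ i j| ≤ R) :
    Pool.Agent.Results.MP_df2bd8_gt.QuasiConformalFlags.ConformalFlag hol ⊤
      (fun i => if i = 0 then ⊥ else if i = 1 then W else ⊤) 2 := by
  obtain ⟨B, hB0, hB1, hB2⟩ := coord_bound e
  have hR0 : 0 ≤ R := (abs_nonneg _).trans (hR 1 0 0)
  have key : ∀ γ, ∀ x : E, ∃ w ∈ W, ‖(hol γ).linear x - w‖ ≤ (B * (4 * R * B)) * ‖x‖ := by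
    intro γ x
    refine ⟨((e ((hol γ).linear x)).1 : E), Subtype.mem _, ?_⟩
    have h1 : (hol γ).linear x - ((e ((hol γ).linear x)).1 : E) =
        e.symm (0, (e ((hol γ).linear x)).2) := by
      have h2 : (hol γ).linear x = e.symm ((e ((hol γ).linear x)).1, 0) +
          e.symm (0, (e ((hol γ).linear x)).2) := by
        rw [← map_add]
        simp
      conv_lhs => rw [h2]
      rw [← C.sym, map_add e, e.apply_symm_apply, e.apply_symm_apply]
      simp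
    rw [h1]
    refine (hB2 _).trans ?_
    have h3 : (e ((hol γ).linear x)).2 = C.D γ *ᵥ (e x).2 := by
      rw [C.D_mulVec]
      have := C.lin_eq γ (e x)
      rw [e.symm_apply_apply] at this
      rw [this]
    rw [h3, mv0, mv1]
    have a0 := (hB1 x).1
    have a1 := (hB1 x).2
    have k : ∀ i, |C.D γ i 0 * (e x).2 0 + C.D γ i 1 * (e x).2 1| ≤ 2 * R * (B * ‖x‖) := by
      intro i
      refine (abs_add_le _ _).trans ?_
      rw [abs_mul, abs_mul]
      have b0 := hR γ i 0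
      have b1 := hR γ i 1
      have c0 : |C.D γ i 0| * |(e x).2 0| ≤ R * (B * ‖x‖) :=
        mul_le_mul b0 a0 (abs_nonneg _) hR0
      have c1 : |C.D γ i 1| * |(e x).2 1| ≤ R * (B * ‖x‖) :=
        mul_le_mul b1 a1 (abs_nonneg _) hR0
      linarith
    have k0 := k 0
    have k1 := k 1
    calc B * (|C.D γ 0 0 * (e x).2 0 + C.D γ 0 1 * (e x).2 1| +
          |C.D γ 1 0 * (e x).2 0 + C.D γ 1 1 * (e x).2 1|) ≤ B * (4 * R * (B * ‖x‖)) := by
          gcongr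
          linarith
      _ = _ := by ring
  refine ⟨by simp, by simp, ?_, ?_, max 1 (B * (4 * R * B)), ?_⟩
  · intro i hi
    interval_cases i <;> simp
  · intro i hi γ _ v hv
    interval_cases i
    · simp at hv ⊢
      rw [hv]
    · simp at hv ⊢
      rw [C.fix γ v hv]
      exact hv
    · simp
  · intro i hi γ _
    refine ⟨1, one_pos, fun v hv => ?_⟩
    interval_cases i
    · simp at hv
      refine ⟨⟨0, by simp, ?_⟩, ⟨0, by simp, ?_⟩⟩
      · rw [C.fix γ v hv, sub_zero]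
        have : (1 : ℝ) ≤ max 1 (B * (4 * R * B)) := le_max_left _ _
        nlinarith [norm_nonneg v]
      · rw [C.fix γ⁻¹ v hv, sub_zero]
        have : (1 : ℝ) ≤ max 1 (B * (4 * R * B)) := le_max_left _ _
        rw [inv_one]
        nlinarith [norm_nonneg v]
    · have hm : B * (4 * R * B) ≤ max 1 (B * (4 * R * B)) := le_max_right _ _
      obtain ⟨w, hw, h1⟩ := key γ v
      obtain ⟨w', hw', h1'⟩ := key γ⁻¹ v
      refine ⟨⟨w, by simpa using hw, h1.trans ?_⟩, ⟨w', by simpa using hw', h1'.trans ?_⟩⟩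
      · rw [mul_one]
        exact mul_le_mul_of_nonneg_right hm (norm_nonneg _)
      · rw [inv_one, mul_one]
        exact mul_le_mul_of_nonneg_right hm (norm_nonneg _)

/-- the form which vanishes on `v` -/
noncomputable def lam (v : V2) : V2 →ₗ[ℝ] ℝ :=
  v 0 • LinearMap.proj 1 - v 1 • LinearMap.proj 0

theorem lam_apply (v u : V2) : lam v u = v 0 * u 1 - v 1 * u 0 := rfl

theorem lam_mul (A : M2) {v : V2} {c : ℝ} (h : A *ᵥ v = c • v) (u : V2) :
    c * lam v (A *ᵥ u) = A.det * lam v u := by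
  have h0 : A 0 0 * v 0 + A 0 1 * v 1 = c * v 0 := by
    rw [← mv0, h]; rfl
  have h1 : A 1 0 * v 0 + A 1 1 * v 1 = c * v 1 := by
    rw [← mv1, h]; rfl
  rw [lam_apply, lam_apply, mv0, mv1, Matrix.det_fin_two]
  linear_combination (-(A 1 0 * u 0 + A 1 1 * u 1)) * h0 + (A 0 0 * u 0 + A 0 1 * u 1) * h1

theorem lam_zero {v u : V2} (hv : v ≠ 0) (h : lam v u = 0) : ∃ t : ℝ, u = t • v := by
  apply par hv
  rw [lam_apply] at h
  linarith

/-- the middle term of the flag -/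
noncomputable def F2 (e : E ≃ₗ[ℝ] (W × V2)) (v : V2) : Submodule ℝ E :=
  LinearMap.ker (lam v ∘ₗ LinearMap.snd ℝ W V2 ∘ₗ (e : E →ₗ[ℝ] (W × V2)))

theorem mem_F2 (e : E ≃ₗ[ℝ] (W × V2)) (v : V2) (x : E) : x ∈ F2 e v ↔ lam v (e x).2 = 0 := Iff.rfl

theorem Cd.mem_snd (C : Cd hol W e) (x : E) (hx : x ∈ W) : (e x).2 = 0 := by
  have := C.sym ⟨x, hx⟩
  have h2 := congrArg e this
  rw [e.apply_symm_apply] at h2
  show (e x).2 = 0
  rw [← h2]

theorem Cd.L2 (C : Cd hol W e) (γ : H) (x : E) :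
    (e ((hol γ).linear x)).2 = C.D γ *ᵥ (e x).2 := by
  rw [C.D_mulVec]
  have := C.lin_eq γ (e x)
  rw [e.symm_apply_apply] at this
  rw [this]

/-- conformality for groups which preserve a line modulo `W` -/
theorem Cd.flag_line (C : Cd hol W e) (hdet : ∀ γ, |(C.D γ).det| = 1) (K : Subgroup H) {v : V2}
    (hv : v ≠ 0) (hK : ∀ γ ∈ K, ∃ c : ℝ, C.D γ *ᵥ v = c • v) :
    Pool.Agent.Results.MP_df2bd8_gt.QuasiConformalFlags.ConformalFlag hol K
      (fun i => if i = 0 then ⊥ else if i = 1 then W else if i = 2 then F2 e v else ⊤) 3 := by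
  obtain ⟨B, hB0, hB1, hB2⟩ := coord_bound e
  -- a dual vector
  obtain ⟨v', hv'⟩ : ∃ v' : V2, lam v v' = 1 := by
    have h1 : 0 < v 0 * v 0 + v 1 * v 1 := by
      by_contra hc
      apply hv
      apply v2ext
      · show v 0 = 0
        nlinarith [mul_self_nonneg (v 0), mul_self_nonneg (v 1)]
      · show v 1 = 0
        nlinarith [mul_self_nonneg (v 0), mul_self_nonneg (v 1)]
    refine ⟨![-(v 1) / (v 0 * v 0 + v 1 * v 1), (v 0) / (v 0 * v 0 + v 1 * v 1)], ?_⟩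
    rw [lam_apply]
    show v 0 * (v 0 / (v 0 * v 0 + v 1 * v 1)) - v 1 * (-(v 1) / (v 0 * v 0 + v 1 * v 1)) = 1
    calc _ = (v 0 * v 0 + v 1 * v 1) / (v 0 * v 0 + v 1 * v 1) := by ring
      _ = 1 := div_self h1.ne'
  have hcne : ∀ γ, ∀ c : ℝ, C.D γ *ᵥ v = c • v → c ≠ 0 := by
    intro γ c h hc
    have h1 := lam_mul (C.D γ) h v'
    rw [hc, zero_mul, hv', mul_one] at h1
    have h2 := hdet γ
    rw [← h1, abs_zero] at h2
    norm_num at h2
  have hinv : ∀ γ, ∀ c : ℝ, C.D γ *ᵥ v = c • v → C.D γ⁻¹ *ᵥ v = c⁻¹ • v := by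
    intro γ c h
    have h0 := hcne γ c h
    have h1 : C.D γ⁻¹ *ᵥ (C.D γ *ᵥ v) = v := by
      rw [Matrix.mulVec_mulVec, D_inv', Matrix.one_mulVec]
    rw [h, Matrix.mulVec_smul] at h1
    calc C.D γ⁻¹ *ᵥ v = c⁻¹ • (c • (C.D γ⁻¹ *ᵥ v)) := by rw [smul_smul, inv_mul_cancel₀ h0, one_smul]
      _ = _ := by rw [h1]
  have key1 : ∀ γ, ∀ c : ℝ, C.D γ *ᵥ v = c • v → ∀ x ∈ F2 e v,
      ∃ w ∈ W, ‖(hol γ).linear x - w‖ ≤ (B * (2 * B)) * |c| * ‖x‖ := by
    intro γ c h x hx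
    refine ⟨((e ((hol γ).linear x)).1 : E), Subtype.mem _, ?_⟩
    have h1 : (hol γ).linear x - ((e ((hol γ).linear x)).1 : E) =
        e.symm (0, (e ((hol γ).linear x)).2) := by
      have h2 : (hol γ).linear x = e.symm ((e ((hol γ).linear x)).1, 0) +
          e.symm (0, (e ((hol γ).linear x)).2) := by
        rw [← map_add]
        simp
      conv_lhs => rw [h2]
      rw [← C.sym, map_add e, e.apply_symm_apply, e.apply_symm_apply]
      simp
    obtain ⟨t, ht⟩ := lam_zero hv ((mem_F2 e v x).1 hx)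
    have h3 : (e ((hol γ).linear x)).2 = c • (e x).2 := by
      rw [C.L2, ht, Matrix.mulVec_smul, h, smul_comm]
    rw [h1]
    refine (hB2 _).trans ?_
    rw [h3]
    have a0 := (hB1 x).1
    have a1 := (hB1 x).2
    show B * (|c * (e x).2 0| + |c * (e x).2 1|) ≤ _
    rw [abs_mul, abs_mul]
    calc B * (|c| * |(e x).2 0| + |c| * |(e x).2 1|)
        ≤ B * (|c| * (B * ‖x‖) + |c| * (B * ‖x‖)) := by gcongr
      _ = _ := by ring
  have key2 : ∀ γ, ∀ c : ℝ, C.D γ *ᵥ v = c • v → ∀ x : E,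
      ∃ w ∈ F2 e v, ‖(hol γ).linear x - w‖ ≤
        (B * (|v' 0| + |v' 1|) * ((|v 0| + |v 1|) * B)) * |c|⁻¹ * ‖x‖ := by
    intro γ c h x
    set u := C.D γ *ᵥ (e x).2 with hu
    refine ⟨(hol γ).linear x - e.symm (0, lam v u • v'), ?_, ?_⟩
    · rw [mem_F2, map_sub e, e.apply_symm_apply]
      show lam v ((e ((hol γ).linear x)).2 - lam v u • v') = 0
      rw [C.L2, map_sub, map_smul, hv', ← hu]
      simp
    · rw [sub_sub_cancel]
      refine (hB2 _).trans ?_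
      have h0 := hcne γ c h
      have hc : 0 < |c| := abs_pos.mpr h0
      have h4 : |lam v u| = |c|⁻¹ * |lam v (e x).2| := by
        have h5 := congrArg abs (lam_mul (C.D γ) h (e x).2)
        rw [abs_mul, abs_mul, hdet γ, one_mul, ← hu] at h5
        rw [← h5, ← mul_assoc, inv_mul_cancel₀ hc.ne', one_mul]
      have h6 : |lam v (e x).2| ≤ (|v 0| + |v 1|) * (B * ‖x‖) := by
        rw [lam_apply]
        refine (abs_sub _ _).trans ?_
        rw [abs_mul, abs_mul]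
        have a0 := (hB1 x).1
        have a1 := (hB1 x).2
        calc |v 0| * |(e x).2 1| + |v 1| * |(e x).2 0|
            ≤ |v 0| * (B * ‖x‖) + |v 1| * (B * ‖x‖) := by gcongr
          _ = _ := by ring
      show B * (|lam v u * v' 0| + |lam v u * v' 1|) ≤ _
      rw [abs_mul, abs_mul, h4]
      calc B * (|c|⁻¹ * |lam v (e x).2| * |v' 0| + |c|⁻¹ * |lam v (e x).2| * |v' 1|)
          = B * (|v' 0| + |v' 1|) * |c|⁻¹ * |lam v (e x).2| := by ring
        _ ≤ B * (|v' 0| + |v' 1|) * |c|⁻¹ * ((|v 0| + |v 1|) * (B * ‖x‖)) := by gcongr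
        _ = _ := by ring
  have hWF : W ≤ F2 e v := by
    intro x hx
    rw [mem_F2, C.mem_snd x hx, map_zero]
  set C1 := B * (2 * B) with hC1
  set C2 := B * (|v' 0| + |v' 1|) * ((|v 0| + |v 1|) * B) with hC2
  have m0 : (1 : ℝ) ≤ max 1 (max C1 C2) := le_max_left _ _
  have m1 : C1 ≤ max 1 (max C1 C2) := (le_max_left _ _).trans (le_max_right _ _)
  have m2 : C2 ≤ max 1 (max C1 C2) := (le_max_right _ _).trans (le_max_right _ _)
  refine ⟨by simp, by simp, ?_, ?_, max 1 (max C1 C2), ?_⟩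
  · intro i hi
    interval_cases i
    · simp
    · simpa using hWF
    · simp
  · intro i hi γ hγ x hx
    interval_cases i
    · simp at hx ⊢
      rw [hx]
    · simp at hx ⊢
      rw [C.fix γ x hx]
      exact hx
    · have hx' : x ∈ F2 e v := by simpa using hx
      show (hol γ).linear x ∈ _
      simp only [if_true, two_ne_zero, if_false, OfNat.ofNat_ne_one]
      obtain ⟨c, hc⟩ := hK γ hγ
      rw [mem_F2, C.L2]
      have h1 := lam_mul (C.D γ) hc (e x).2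
      rw [(mem_F2 e v x).1 hx', mul_zero] at h1
      exact (mul_eq_zero.1 h1).resolve_left (hcne γ c hc)
    · simp
  · intro i hi γ hγ
    obtain ⟨c, hc⟩ := hK γ hγ
    have hc0 := hcne γ c hc
    have hcp : 0 < |c| := abs_pos.mpr hc0
    have hci := hinv γ c hc
    interval_cases i
    · refine ⟨1, one_pos, fun x hx => ?_⟩
      simp at hx
      refine ⟨⟨0, by simp, ?_⟩, ⟨0, by simp, ?_⟩⟩
      · rw [C.fix γ x hx, sub_zero]
        nlinarith [norm_nonneg x]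
      · rw [C.fix γ⁻¹ x hx, sub_zero, inv_one]
        nlinarith [norm_nonneg x]
    · refine ⟨|c|, hcp, fun x hx => ?_⟩
      have hx' : x ∈ F2 e v := by simpa using hx
      obtain ⟨w, hw, h1⟩ := key1 γ c hc x hx'
      obtain ⟨w', hw', h1'⟩ := key1 γ⁻¹ _ hci x hx'
      refine ⟨⟨w, by simpa using hw, h1.trans ?_⟩, ⟨w', by simpa using hw', h1'.trans ?_⟩⟩
      · gcongr
      · rw [abs_inv]
        gcongr
    · refine ⟨|c|⁻¹, inv_pos.2 hcp, fun x _ => ?_⟩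
      obtain ⟨w, hw, h1⟩ := key2 γ c hc x
      obtain ⟨w', hw', h1'⟩ := key2 γ⁻¹ _ hci x
      refine ⟨⟨w, by simpa using hw, h1.trans ?_⟩, ⟨w', by simpa using hw', h1'.trans ?_⟩⟩
      · gcongr
      · rw [abs_inv]
        gcongr

end

end Pool.Agent.Helper63.Mk
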