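import Pool.Agent.Helper63.Mk.Nd
import Pool.Graph.R_seed8.W689.Mk.Star
import Pool.Graph.R_pool_sql_team_seeded_3997aac3.Results.MP_df2bd8_gt.LorentzModuloChain

/-!
Project Mk (helper63): the model of a quotient of `W × Ω` by a group of affine transformations which
commute with the translations by `W`.
-/

set_option autoImplicit false

open Set Filter Topology
open scoped Matrix
open Pool.Agent.W689.Mk Pool.Agent.Y449.MK

namespace Pool.Agent.Helper63.Mk

section det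
variable {W : Type} [NormedAddCommGroup W] [NormedSpace ℝ W]

/-- triangular maps -/
noncomputable def tri (b : V2 →ₗ[ℝ] W) (A : M2) : (W × V2) →ₗ[ℝ] (W × V2) where
  toFun p := (p.1 + b p.2, A *ᵥ p.2)
  map_add' p q := by
    refine Prod.ext ?_ ?_
    · show p.1 + q.1 + b (p.2 + q.2) = p.1 + b p.2 + (q.1 + b q.2)
      rw [map_add]; abel
    · show A *ᵥ (p.2 + q.2) = A *ᵥ p.2 + A *ᵥ q.2
      rw [Matrix.mulVec_add]
  map_smul' c p := by
    refine Prod.ext ?_ ?_
    · show c • p.1 + b (c • p.2) = c • (p.1 + b p.2)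
      rw [map_smul, smul_add]
    · show A *ᵥ (c • p.2) = c • (A *ᵥ p.2)
      rw [Matrix.mulVec_smul]

theorem tri_apply (b : V2 →ₗ[ℝ] W) (A : M2) (p : W × V2) :
    tri b A p = (p.1 + b p.2, A *ᵥ p.2) := rfl

theorem det_tri [FiniteDimensional ℝ W] (b : V2 →ₗ[ℝ] W) (A : M2) : |LinearMap.det (tri b A)| = |A.det| := by
  have h1 : tri b A = (LinearMap.prodMap LinearMap.id (Matrix.toLin' A)) ∘ₗ tri b 1 := by
    apply LinearMap.ext
    intro p
    rw [LinearMap.comp_apply, tri_apply, tri_apply, Matrix.one_mulVec]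
    rfl
  have h2 : |LinearMap.det (tri b 1)| = 1 := by
    let P : (W × V2) ≃ₗ[ℝ] (W × V2) := (LinearEquiv.refl ℝ W).prodCongr (LinearEquiv.neg ℝ)
    have h3 : tri (-b) 1 = (P : (W × V2) →ₗ[ℝ] (W × V2)) ∘ₗ tri b 1 ∘ₗ
        (P.symm : (W × V2) →ₗ[ℝ] (W × V2)) := by
      apply LinearMap.ext
      intro p
      rw [LinearMap.comp_apply, LinearMap.comp_apply, tri_apply, tri_apply, Matrix.one_mulVec]
      show (p.1 + (-b) p.2, p.2) = (p.1 + b (-p.2), -((1 : M2) *ᵥ (-p.2)))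
      rw [Matrix.one_mulVec, neg_neg, map_neg]
      rfl
    have h4 : LinearMap.det (tri (-b) 1) = LinearMap.det (tri b 1) := by
      rw [h3]
      exact LinearMap.det_conj (tri b 1) P
    have h5 : tri b 1 ∘ₗ tri (-b) 1 = LinearMap.id := by
      apply LinearMap.ext
      intro p
      rw [LinearMap.comp_apply, tri_apply, tri_apply, Matrix.one_mulVec, Matrix.one_mulVec]
      refine Prod.ext ?_ rfl
      show p.1 + (-b) p.2 + b p.2 = p.1
      rw [LinearMap.neg_apply]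
      abel
    have h6 := congrArg LinearMap.det h5
    rw [LinearMap.det_comp, h4, LinearMap.det_id] at h6
    have h7 : |LinearMap.det (tri b 1)| * |LinearMap.det (tri b 1)| = 1 := by
      rw [← abs_mul, h6, abs_one]
    have h8 := abs_nonneg (LinearMap.det (tri b 1))
    nlinarith
  rw [h1, LinearMap.det_comp, abs_mul, h2, mul_one, LinearMap.det_prodMap, LinearMap.det_id,
    one_mul, LinearMap.det_toLin']

end det

/-- the model -/
structure Sk {W H : Type} [NormedAddCommGroup W] [NormedSpace ℝ W] [Group H] (D : H →* M2)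
    (d : H → V2) (b : H → V2 →ₗ[ℝ] W) (a : H → W) (Ω : Set V2) : Prop where
  hd : ∀ γ δ, d (γ * δ) = D γ *ᵥ d δ + d γ
  hb : ∀ γ δ v, b (γ * δ) v = b δ v + b γ (D δ *ᵥ v)
  ha : ∀ γ δ, a (γ * δ) = a δ + b γ (d δ) + a γ
  op : IsOpen Ω
  con : IsConnected Ω
  inv : ∀ γ, ∀ v ∈ Ω, D γ *ᵥ v + d γ ∈ Ω
  pd : ∀ K : Set V2, IsCompact K → K ⊆ Ω → ∀ B : ℝ,
    {γ | ∃ v ∈ K, D γ *ᵥ v + d γ ∈ K ∧ ‖b γ v + a γ‖ ≤ B}.Finite
  cc : ∃ K : Set V2, IsCompact K ∧ K ⊆ Ω ∧ ∃ B : ℝ, ∀ v ∈ Ω, ∀ w : W, ∃ γ,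
    D γ *ᵥ v + d γ ∈ K ∧ ‖w + (b γ v + a γ)‖ ≤ B

section
variable {W H : Type} [NormedAddCommGroup W] [NormedSpace ℝ W] [Group H]
  {D : H →* M2} {d : H → V2} {b : H → V2 →ₗ[ℝ] W} {a : H → W} {Ω : Set V2}

theorem Sk.b_one (S : Sk D d b a Ω) (v : V2) : b 1 v = 0 := by
  have h := S.hb 1 1 v
  rw [mul_one, map_one, Matrix.one_mulVec] at h
  simpa using h

theorem Sk.a_one (S : Sk D d b a Ω) : a 1 = 0 := by
  have h := S.ha 1 1
  rw [mul_one, S.b_one, add_zero] at h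
  simpa using h

/-- the affine maps -/
noncomputable def Sk.am (_ : Sk D d b a Ω) (γ : H) : (W × V2) →ᵃ[ℝ] (W × V2) where
  toFun p := (p.1 + (b γ p.2 + a γ), D γ *ᵥ p.2 + d γ)
  linear := tri (b γ) (D γ)
  map_vadd' p v := by
    rw [tri_apply]
    refine Prod.ext ?_ ?_
    · show (v.1 + p.1) + (b γ (v.2 + p.2) + a γ) = (v.1 + b γ v.2) + (p.1 + (b γ p.2 + a γ))
      rw [map_add]; abel
    · show D γ *ᵥ (v.2 + p.2) + d γ = D γ *ᵥ v.2 + (D γ *ᵥ p.2 + d γ)
      rw [Matrix.mulVec_add]; abel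

theorem Sk.am_apply (S : Sk D d b a Ω) (γ : H) (p : W × V2) :
    S.am γ p = (p.1 + (b γ p.2 + a γ), D γ *ᵥ p.2 + d γ) := rfl

/-- the homomorphism -/
noncomputable def Sk.hm (S : Sk D d b a Ω) : H →* ((W × V2) →ᵃ[ℝ] (W × V2)) where
  toFun := S.am
  map_one' := by
    ext p : 1
    rw [S.am_apply, map_one, Matrix.one_mulVec, S.b_one, S.a_one, d_one S.hd, add_zero, add_zero,
      add_zero]
    rfl
  map_mul' γ δ := by
    ext p : 1
    show S.am (γ * δ) p = S.am γ (S.am δ p)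
    rw [S.am_apply, S.am_apply, S.am_apply]
    refine Prod.ext ?_ ?_
    · show p.1 + (b (γ * δ) p.2 + a (γ * δ)) =
        p.1 + (b δ p.2 + a δ) + (b γ (D δ *ᵥ p.2 + d δ) + a γ)
      rw [S.hb, S.ha, map_add]; abel
    · show D (γ * δ) *ᵥ p.2 + d (γ * δ) = D γ *ᵥ (D δ *ᵥ p.2 + d δ) + d γ
      rw [map_mul, S.hd, Matrix.mulVec_add, Matrix.mulVec_mulVec]; abel

/-- the holonomy -/
noncomputable def Sk.hl (S : Sk D d b a Ω) : H →* ((W × V2) ≃ᵃ[ℝ] (W × V2)) :=
  (AffineEquiv.equivUnitsAffineMap.symm.toMonoidHom).comp S.hm.toHomUnits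

theorem Sk.hl_apply (S : Sk D d b a Ω) (γ : H) (p : W × V2) :
    S.hl γ p = (p.1 + (b γ p.2 + a γ), D γ *ᵥ p.2 + d γ) := rfl

theorem Sk.hl_linear (S : Sk D d b a Ω) (γ : H) (p : W × V2) :
    (S.hl γ).linear p = (p.1 + b γ p.2, D γ *ᵥ p.2) := rfl

/-- the action -/
@[instance_reducible]
noncomputable def Sk.act (S : Sk D d b a Ω) : MulAction H {p : W × V2 // p.2 ∈ Ω} where
  smul γ x := ⟨S.hl γ x.1, S.inv γ _ x.2⟩
  one_smul x := by
    apply Subtype.ext
    show S.hl 1 x.1 = x.1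
    rw [map_one]; rfl
  mul_smul γ δ x := by
    apply Subtype.ext
    show S.hl (γ * δ) x.1 = S.hl γ (S.hl δ x.1)
    rw [map_mul]; rfl

variable [FiniteDimensional ℝ W]

theorem Sk.data (S : Sk D d b a Ω) (hdet : ∀ γ, |(D γ).det| = 1) :
    letI := S.act
    AffData {p : W × V2 // p.2 ∈ Ω} H (W × V2) Subtype.val S.hl := by
  letI := S.act
  have hop : IsOpen {p : W × V2 | p.2 ∈ Ω} := S.op.preimage continuous_snd
  refine ⟨?_, ?_, ?_, ?_, ?_, ?_⟩
  · exact hop.isOpenEmbedding_subtypeVal.isLocalHomeomorph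
  · intro γ
    refine Continuous.subtype_mk ?_ _
    exact ((S.hl γ).toAffineMap.continuous_of_finiteDimensional).comp continuous_subtype_val
  · intro γ x
    rfl
  · intro γ
    have h1 : ((S.hl γ).linear : (W × V2) →ₗ[ℝ] (W × V2)) = tri (b γ) (D γ) := rfl
    rw [h1, det_tri]
    exact hdet γ
  · intro K hK
    have hK1 : IsCompact ((fun x : {p : W × V2 // p.2 ∈ Ω} => x.1.2) '' K) :=
      hK.image (continuous_snd.comp continuous_subtype_val)
    have hK2 : IsCompact ((fun x : {p : W × V2 // p.2 ∈ Ω} => x.1.1) '' K) :=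
      hK.image (continuous_fst.comp continuous_subtype_val)
    obtain ⟨B, hB⟩ := hK2.isBounded.exists_norm_le
    refine (S.pd _ hK1 ?_ (B + B)).subset ?_
    · rintro _ ⟨x, _, rfl⟩
      exact x.2
    · rintro γ ⟨x, hx, hγx⟩
      refine ⟨x.1.2, ⟨x, hx, rfl⟩, ⟨γ • x, hγx, rfl⟩, ?_⟩
      have h1 := hB _ ⟨x, hx, rfl⟩
      have h2 := hB _ ⟨γ • x, hγx, rfl⟩
      have h3 : (γ • x).1.1 = x.1.1 + (b γ x.1.2 + a γ) := rfl
      have h4 : b γ x.1.2 + a γ = (γ • x).1.1 - x.1.1 := by rw [h3]; abel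
      rw [h4]
      exact (norm_sub_le _ _).trans (add_le_add h2 h1)
  · obtain ⟨K, hK, hKΩ, B, hc⟩ := S.cc
    have : ProperSpace W := FiniteDimensional.proper_real W
    refine ⟨Subtype.val ⁻¹' (Metric.closedBall (0 : W) B ×ˢ K), ?_, ?_⟩
    · refine hop.isOpenEmbedding_subtypeVal.isInducing.isCompact_preimage' ?_ ?_
      · exact (isCompact_closedBall 0 B).prod hK
      · rintro p ⟨-, hp⟩
        exact ⟨⟨p, hKΩ hp⟩, rfl⟩
    · intro x
      obtain ⟨γ, h1, h2⟩ := hc x.1.2 x.2 x.1.1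
      refine ⟨γ⁻¹, γ • x, ⟨?_, h1⟩, inv_smul_smul γ x⟩
      rw [mem_closedBall_zero_iff]
      exact h2

/-- no fixed point -/
theorem Sk.nofix (S : Sk D d b a Ω) (hdet : ∀ γ, |(D γ).det| = 1) (z : V2) :
    ∃ γ, D γ *ᵥ z + d γ ≠ z := by
  by_contra hcon
  push Not at hcon
  letI := S.act
  have D' := S.data hdet
  obtain ⟨v, hv⟩ := S.con.nonempty
  have : Nonempty {p : W × V2 // p.2 ∈ Ω} := ⟨⟨(0, v), hv⟩⟩
  have h1 := star_univ D' (C := {p : W × V2 | p.2 = z}) (p := (0, z)) rfl (by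
    intro q hq s t hs ht hst
    show (s • ((0, z) : W × V2) + t • q).2 = z
    have hq' : q.2 = z := hq
    rw [Prod.snd_add, Prod.smul_snd, Prod.smul_snd, hq', ← add_smul, hst, one_smul]) (by
    intro γ q hq
    have hq' : q.2 = z := hq
    show (S.hl γ q).2 = z
    rw [S.hl_apply, hq']
    exact hcon γ)
  have h2 : ((0, z + ![1, 0]) : W × V2) ∈ {p : W × V2 | p.2 = z} := by rw [h1]; trivial
  have h3 : z + ![1, 0] = z := h2
  have h4 := congrFun h3 0
  simp at h4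

/-- invariant complements -/
theorem Sk.compl (S : Sk D d b a Ω) (hdet : ∀ γ, |(D γ).det| = 1) (c : V2 →ₗ[ℝ] W)
    (hc : ∀ γ v, b γ v = c (D γ *ᵥ v) - c v) : Ω = univ := by
  letI := S.act
  have D' := S.data hdet
  have hop : IsOpen {p : W × V2 | p.2 ∈ Ω} := S.op.preimage continuous_snd
  obtain ⟨v, hv⟩ := S.con.nonempty
  have hcon : IsConnected {p : W × V2 | p.2 ∈ Ω} := by
    have h1 : {p : W × V2 | p.2 ∈ Ω} = univ ×ˢ Ω := by
      ext p
      simp
    rw [h1]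
    exact isConnected_univ.prod S.con
  have : ConnectedSpace {p : W × V2 // p.2 ∈ Ω} := isConnected_iff_connectedSpace.1 hcon
  -- the two subspaces
  let T : ℕ → Submodule ℝ (W × V2) := fun i => if i = 0 then ⊥ else LinearMap.ker (LinearMap.snd ℝ W V2)
  let V : Submodule ℝ (W × V2) := LinearMap.range (LinearMap.prod c LinearMap.id)
  have hVinv : Invt S.hl ⊤ V := by
    rintro γ - _ ⟨u, rfl⟩
    refine ⟨D γ *ᵥ u, ?_⟩
    show (c (D γ *ᵥ u), D γ *ᵥ u) = (S.hl γ).linear (c u, u)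
    rw [S.hl_linear]
    show _ = (c u + b γ u, D γ *ᵥ u)
    rw [hc, add_sub_cancel]
  have hchain : BddChain (Subtype.val : {p : W × V2 // p.2 ∈ Ω} → W × V2) S.hl ⊤ T 1 := by
    refine ⟨?_, ?_⟩
    · intro x v hv
      have hv' : v ∈ (⊥ : Submodule ℝ (W × V2)) := by
        simpa [T] using hv
      rw [Submodule.mem_bot] at hv'
      rw [hv']
      refine ⟨fun _ => x, continuousOn_const, rfl, fun t _ => ?_⟩
      rw [smul_zero, add_zero]
    · intro i hi
      have hi0 : i = 0 := by omega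
      subst hi0
      refine ⟨1, fun γ _ v hv => ⟨0, Submodule.zero_mem _, ?_⟩⟩
      have hv' : v.2 = 0 := by simpa [T] using hv
      rw [S.hl_linear, hv', map_zero, Matrix.mulVec_zero, add_zero, sub_zero, one_mul]
      have : v = (v.1, 0) := Prod.ext rfl hv'
      rw [← this]
  have hcard : Module.finrank ℝ V ≤ 2 := by
    refine (LinearMap.finrank_range_le _).trans ?_
    simp
  have harea : Pool.Agent.Results.MP_df2bd8_gt.LorentzModuloChain.AreaOn S.hl ⊤ V := by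
    refine ⟨hVinv, hcard, 1, fun γ h _ => ?_⟩
    -- the determinant of the restriction
    let e : V2 ≃ₗ[ℝ] V := LinearEquiv.ofInjective (LinearMap.prod c LinearMap.id) (by
      intro u u' huu
      exact congrArg Prod.snd huu)
    have h1 : ((S.hl γ).linear : (W × V2) →ₗ[ℝ] (W × V2)).restrict h =
        (e : V2 →ₗ[ℝ] V) ∘ₗ (Matrix.toLin' (D γ)) ∘ₗ (e.symm : V →ₗ[ℝ] V2) := by
      apply LinearMap.ext
      intro x
      obtain ⟨u, rfl⟩ := e.surjective x
      apply Subtype.ext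
      rw [LinearMap.restrict_coe_apply]
      show (S.hl γ).linear (c u, u) = ((e (Matrix.toLin' (D γ) (e.symm (e u))) : V) : W × V2)
      rw [e.symm_apply_apply, S.hl_linear]
      show (c u + b γ u, D γ *ᵥ u) = (c (Matrix.toLin' (D γ) u), Matrix.toLin' (D γ) u)
      rw [hc, add_sub_cancel]
      rfl
    rw [h1, LinearMap.det_conj, LinearMap.det_toLin', hdet]
  have hfin : (⊤ : Subgroup H).FiniteIndex := inferInstance
  have h2 := (Pool.Agent.Results.MP_df2bd8_gt.LorentzModuloChain.result (W × V2)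
    {p : W × V2 // p.2 ∈ Ω} H Subtype.val S.hl D' ⊤ hfin T 1 hchain V (Or.inr (Or.inr harea))).2 (by
      rw [eq_top_iff]
      intro p _
      have h3 : p = (c p.2, p.2) + (p.1 - c p.2, 0) := by
        refine Prod.ext ?_ ?_
        · show p.1 = c p.2 + (p.1 - c p.2)
          abel
        · show p.2 = p.2 + 0
          rw [add_zero]
      rw [h3]
      refine Submodule.add_mem_sup ⟨p.2, rfl⟩ ?_
      show _ ∈ LinearMap.ker (LinearMap.snd ℝ W V2)
      rw [LinearMap.mem_ker]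
      rfl)
  rw [eq_univ_iff_forall]
  intro v
  obtain ⟨x, hx⟩ := h2.surjective (0, v)
  have := x.2
  rw [hx] at this
  exact this

end

end Pool.Agent.Helper63.Mk
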