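import Pool.Agent.Helper63.Mk.Zs
import Pool.Graph.R_pool_sql_team_seeded_2aa45f1a.Q138.Mk.Equi

/-!
Project Mk (helper63): discrete linear groups of the plane are too small.
-/

set_option autoImplicit false

open Set Filter Topology MeasureTheory
open scoped Matrix NNReal ENNReal
open Pool.Agent.W689.Mk

namespace Pool.Agent.Helper63.Mk

/-- the space of symmetric forms -/
abbrev F3 := Fin 3 → ℝ

theorem f3ext {g g' : F3} (h0 : g 0 = g' 0) (h1 : g 1 = g' 1) (h2 : g 2 = g' 2) : g = g' := by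
  funext i
  fin_cases i
  · exact h0
  · exact h1
  · exact h2

/-- the action on the symmetric forms -/
noncomputable def fa (A : M2) : F3 →ₗ[ℝ] F3 where
  toFun g := ![A 0 0 ^ 2 * g 0 + 2 * A 0 0 * A 0 1 * g 1 + A 0 1 ^ 2 * g 2,
    A 0 0 * A 1 0 * g 0 + (A 0 0 * A 1 1 + A 0 1 * A 1 0) * g 1 + A 0 1 * A 1 1 * g 2,
    A 1 0 ^ 2 * g 0 + 2 * A 1 0 * A 1 1 * g 1 + A 1 1 ^ 2 * g 2]
  map_add' g g' := by
    apply f3ext <;> simp <;> ring
  map_smul' c g := by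
    apply f3ext <;> simp <;> ring

theorem fa0 (A : M2) (g : F3) :
    fa A g 0 = A 0 0 ^ 2 * g 0 + 2 * A 0 0 * A 0 1 * g 1 + A 0 1 ^ 2 * g 2 := rfl

theorem fa1 (A : M2) (g : F3) :
    fa A g 1 = A 0 0 * A 1 0 * g 0 + (A 0 0 * A 1 1 + A 0 1 * A 1 0) * g 1 + A 0 1 * A 1 1 * g 2 :=
  rfl

theorem fa2 (A : M2) (g : F3) :
    fa A g 2 = A 1 0 ^ 2 * g 0 + 2 * A 1 0 * A 1 1 * g 1 + A 1 1 ^ 2 * g 2 := rfl

theorem fa_one (g : F3) : fa 1 g = g := by
  apply f3ext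
  · rw [fa0]; simp
  · rw [fa1]; simp
  · rw [fa2]; simp

theorem fa_mul (A B : M2) (g : F3) : fa (A * B) g = fa A (fa B g) := by
  apply f3ext
  · rw [fa0, fa0, fa0, fa1, fa2, mm, mm]; ring
  · rw [fa1, fa1, fa0, fa1, fa2, mm, mm, mm, mm]; ring
  · rw [fa2, fa2, fa0, fa1, fa2, mm, mm]; ring

/-- the value of a form -/
def qv (g : F3) (x y : ℝ) : ℝ := g 0 * x ^ 2 + 2 * g 1 * x * y + g 2 * y ^ 2

/-- discriminant -/
def dc (g : F3) : ℝ := g 0 * g 2 - g 1 ^ 2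

theorem dc_fa (A : M2) (g : F3) : dc (fa A g) = A.det ^ 2 * dc g := by
  unfold dc
  rw [fa0, fa1, fa2, Matrix.det_fin_two]
  ring

theorem qv_fa (A : M2) (g : F3) (x y : ℝ) :
    qv (fa A g) x y = qv g (A 0 0 * x + A 1 0 * y) (A 0 1 * x + A 1 1 * y) := by
  unfold qv
  rw [fa0, fa1, fa2]
  ring

/-- positive definite forms -/
def PP : Set F3 := {g | ∀ x y : ℝ, ¬(x = 0 ∧ y = 0) → 0 < qv g x y}

theorem pp_convex : Convex ℝ PP := by
  intro g hg g' hg' s t hs ht hst x y hxy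
  have e : qv (s • g + t • g') x y = s * qv g x y + t * qv g' x y := by
    simp only [qv, Pi.add_apply, Pi.smul_apply, smul_eq_mul]
    ring
  rw [e]
  have h1 := hg x y hxy
  have h2 := hg' x y hxy
  rcases hs.eq_or_lt with h | h
  · rw [← h] at hst ⊢
    have : t = 1 := by linarith
    rw [this]; linarith
  · have := mul_pos h h1
    have := mul_nonneg ht h2.le
    linarith

theorem pp_fa {A : M2} (hA : A.det ≠ 0) {g : F3} (hg : g ∈ PP) : fa A g ∈ PP := by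
  intro x y hxy
  rw [qv_fa]
  apply hg
  rintro ⟨h1, h2⟩
  rw [Matrix.det_fin_two] at hA
  apply hxy
  constructor
  · have : (A 0 0 * A 1 1 - A 0 1 * A 1 0) * x = 0 := by linear_combination A 1 1 * h1 - A 1 0 * h2
    exact (mul_eq_zero.1 this).resolve_left hA
  · have : (A 0 0 * A 1 1 - A 0 1 * A 1 0) * y = 0 := by linear_combination A 0 0 * h2 - A 0 1 * h1
    exact (mul_eq_zero.1 this).resolve_left hA

theorem pp_pos {g : F3} (hg : g ∈ PP) : 0 < g 0 ∧ 0 < dc g := by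
  have h1 : 0 < g 0 := by
    have := hg 1 0 (by simp)
    simpa [qv] using this
  refine ⟨h1, ?_⟩
  have h2 := hg (-g 1) (g 0) (fun h => h1.ne' h.2)
  have e : qv g (-g 1) (g 0) = g 0 * dc g := by
    unfold qv dc; ring
  rw [e] at h2
  exact (mul_pos_iff_of_pos_left h1).1 h2

/-- the normalised trace -/
noncomputable def nt (A : M2) (g : F3) : ℝ := (fa A g 0 + fa A g 2) / √(dc g)

theorem nt_lower {A : M2} {g : F3} (h0 : 0 < g 0) (hd : 0 < dc g) (i j : Fin 2) :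
    √(dc g) / (g 0 + g 2) * A i j ^ 2 ≤ nt A g := by
  have h2 : 0 < g 2 := by
    unfold dc at hd
    by_contra h
    push Not at h
    nlinarith [sq_nonneg (g 1)]
  have hs : 0 < √(dc g) := Real.sqrt_pos.2 hd
  have hss : √(dc g) * √(dc g) = dc g := Real.mul_self_sqrt hd.le
  have key : ∀ x y : ℝ, dc g * (x ^ 2 + y ^ 2) ≤ (g 0 + g 2) * qv g x y := by
    intro x y
    unfold dc qv
    nlinarith [sq_nonneg (g 0 * x + g 1 * y), sq_nonneg (g 1 * x + g 2 * y)]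
  have e : fa A g 0 + fa A g 2 = qv g (A 0 0) (A 0 1) + qv g (A 1 0) (A 1 1) := by
    rw [fa0, fa2]; unfold qv; ring
  unfold nt
  rw [le_div_iff₀ hs, e]
  have k1 := key (A 0 0) (A 0 1)
  have k2 := key (A 1 0) (A 1 1)
  have hsum : dc g * A i j ^ 2 ≤ (g 0 + g 2) * (qv g (A 0 0) (A 0 1) + qv g (A 1 0) (A 1 1)) := by
    have a00 := sq_nonneg (A 0 0)
    have a01 := sq_nonneg (A 0 1)
    have a10 := sq_nonneg (A 1 0)
    have a11 := sq_nonneg (A 1 1)
    fin_cases i <;> fin_cases j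
    · show dc g * A 0 0 ^ 2 ≤ _
      nlinarith [mul_nonneg hd.le a00, mul_nonneg hd.le a01, mul_nonneg hd.le a10,
        mul_nonneg hd.le a11]
    · show dc g * A 0 1 ^ 2 ≤ _
      nlinarith [mul_nonneg hd.le a00, mul_nonneg hd.le a01, mul_nonneg hd.le a10,
        mul_nonneg hd.le a11]
    · show dc g * A 1 0 ^ 2 ≤ _
      nlinarith [mul_nonneg hd.le a00, mul_nonneg hd.le a01, mul_nonneg hd.le a10,
        mul_nonneg hd.le a11]
    · show dc g * A 1 1 ^ 2 ≤ _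
      nlinarith [mul_nonneg hd.le a00, mul_nonneg hd.le a01, mul_nonneg hd.le a10,
        mul_nonneg hd.le a11]
  have hgg : 0 < g 0 + g 2 := by linarith
  have e2 : √(dc g) / (g 0 + g 2) * A i j ^ 2 * √(dc g) = (dc g * A i j ^ 2) / (g 0 + g 2) := by
    rw [← hss]; field_simp
    try simp [Real.sqrt_mul_self hs.le]
  rw [e2, div_le_iff₀ hgg]
  linarith

theorem nt_smul (A : M2) (g : F3) {c : ℝ} (hc : 0 < c) : nt A (c • g) = nt A g := by
  unfold nt
  have e : dc (c • g) = c ^ 2 * dc g := by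
    unfold dc; simp only [Pi.smul_apply, smul_eq_mul]; ring
  rw [e, Real.sqrt_mul (sq_nonneg c), Real.sqrt_sq hc.le, map_smul]
  simp only [Pi.smul_apply, smul_eq_mul]
  rw [← mul_add, mul_div_mul_left _ _ hc.ne']

theorem nt_fa {A B : M2} (hB : |B.det| = 1) (g : F3) : nt A (fa B g) = nt (A * B) g := by
  unfold nt
  have : B.det ^ 2 = 1 := by rw [← sq_abs, hB, one_pow]
  rw [dc_fa, this, one_mul, fa_mul]

theorem dc_smooth : ContDiff ℝ 1 dc := by
  unfold dc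
  fun_prop

theorem nt_smooth (A : M2) {g : F3} (hd : 0 < dc g) : ContDiffAt ℝ 1 (nt A) g := by
  unfold nt
  refine ContDiffAt.div ?_ (dc_smooth.contDiffAt.sqrt hd.ne') (Real.sqrt_pos.2 hd).ne'
  simp only [fa0, fa2]
  fun_prop

section
variable {W H : Type} [NormedAddCommGroup W] [NormedSpace ℝ W] [Group H]
  {D : H →* M2} {d : H → V2} {b : H → V2 →ₗ[ℝ] W} {a : H → W} {Ω : Set V2}

/-- the weights -/
noncomputable def wt (D : H →* M2) (M : ℝ) (γ : H) (g : F3) : ℝ :=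
  expNegInvGlue (M - nt (D γ⁻¹) g)

theorem wt_nonneg (M : ℝ) (γ : H) (g : F3) : 0 ≤ wt D M γ g := expNegInvGlue.nonneg _

theorem wt_smooth (M : ℝ) (γ : H) {g : F3} (hd : 0 < dc g) : ContDiffAt ℝ 1 (wt D M γ) g := by
  unfold wt
  have h1 : ContDiff ℝ 1 expNegInvGlue := expNegInvGlue.contDiff
  exact h1.contDiffAt.comp g (contDiffAt_const.sub (nt_smooth _ hd))

/-- local finiteness -/
theorem wt_locfin (hfin : ∀ M : ℝ, {γ : H | ∀ i j, |D γ i j| ≤ M}.Finite) (M : ℝ) {g : F3}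
    (h0 : 0 < g 0) (hd : 0 < dc g) :
    ∃ F : Finset H, ∀ᶠ g' in 𝓝 g, ∀ γ, γ ∉ F → wt D M γ g' = 0 := by
  classical
  obtain ⟨B, hB⟩ : ∃ B : ℝ, (g 0 + g 2) / √(dc g) < B := exists_gt _
  have hs : 0 < √(dc g) := Real.sqrt_pos.2 hd
  have hBev : ∀ᶠ g' : F3 in 𝓝 g, (g' 0 + g' 2) / √(dc g') < B := by
    have h1 : ContinuousAt (fun g' : F3 => (g' 0 + g' 2) / √(dc g')) g := by
      refine ContinuousAt.div (by fun_prop) ?_ hs.ne'
      exact (Real.continuous_sqrt.comp dc_smooth.continuous).continuousAt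
    exact h1.eventually_lt_const hB
  have h0ev : ∀ᶠ g' : F3 in 𝓝 g, 0 < g' 0 :=
    ((continuous_apply 0).tendsto g).eventually_const_lt h0
  have hdev : ∀ᶠ g' : F3 in 𝓝 g, 0 < dc g' :=
    (dc_smooth.continuous.tendsto g).eventually_const_lt hd
  have hfin' : {γ : H | ∀ i j, |D γ⁻¹ i j| ≤ |M| * B + 1}.Finite := by
    have h1 := (hfin (|M| * B + 1)).preimage (f := fun γ : H => γ⁻¹) inv_injective.injOn
    exact h1
  refine ⟨hfin'.toFinset, ?_⟩
  filter_upwards [hBev, h0ev, hdev] with g' h1 h2 h3 γ hγ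
  by_contra hne
  apply hγ
  rw [Set.Finite.mem_toFinset]
  have h4 : nt (D γ⁻¹) g' < M := by
    by_contra h
    push Not at h
    exact hne (expNegInvGlue.zero_of_nonpos (by linarith))
  intro i j
  have h5 := nt_lower (A := D γ⁻¹) h2 h3 i j
  have hs' : 0 < √(dc g') := Real.sqrt_pos.2 h3
  have h22 : 0 < g' 2 := by
    unfold dc at h3
    by_contra h
    push Not at h
    nlinarith [sq_nonneg (g' 1)]
  have hgg : 0 < g' 0 + g' 2 := by linarith
  have h6 : D γ⁻¹ i j ^ 2 ≤ |M| * B := by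
    have h7 : D γ⁻¹ i j ^ 2 = (√(dc g') / (g' 0 + g' 2) * D γ⁻¹ i j ^ 2) *
        ((g' 0 + g' 2) / √(dc g')) := by
      field_simp
    have h8 : 0 ≤ √(dc g') / (g' 0 + g' 2) * D γ⁻¹ i j ^ 2 := by positivity
    have h9 : 0 ≤ (g' 0 + g' 2) / √(dc g') := by positivity
    rw [h7]
    have h10 : √(dc g') / (g' 0 + g' 2) * D γ⁻¹ i j ^ 2 ≤ |M| :=
      h5.trans (h4.le.trans (le_abs_self M))
    exact mul_le_mul h10 h1.le h9 (abs_nonneg _)
  rw [← sq_abs] at h6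
  have h7 := abs_nonneg (D γ⁻¹ i j)
  have h8 : 0 ≤ |M| * B := (sq_nonneg _).trans h6
  nlinarith

/-- the equivariant map -/
noncomputable def em {E : Type} [NormedAddCommGroup E] [NormedSpace ℝ E] (D : H →* M2) (M : ℝ)
    (e : H → E) (g : F3) : E :=
  (∑' γ : H, wt D M γ g)⁻¹ • ∑' γ : H, wt D M γ g • e γ

theorem em_smooth {E : Type} [NormedAddCommGroup E] [NormedSpace ℝ E]
    (hfin : ∀ M : ℝ, {γ : H | ∀ i j, |D γ i j| ≤ M}.Finite) (M : ℝ) (e : H → E) {g : F3}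
    (h0 : 0 < g 0) (hd : 0 < dc g) {γ0 : H} (hpos : nt (D γ0⁻¹) g < M) :
    ContDiffAt ℝ 1 (em D M e) g := by
  classical
  obtain ⟨F, hF⟩ := wt_locfin hfin M h0 hd
  have h1 : em D M e =ᶠ[𝓝 g] fun g' => (∑ γ ∈ F, wt D M γ g')⁻¹ • ∑ γ ∈ F, wt D M γ g' • e γ := by
    filter_upwards [hF] with g' hg'
    unfold em
    rw [tsum_eq_sum (s := F) (fun γ hγ => hg' γ hγ),
      tsum_eq_sum (s := F) (fun γ hγ => by rw [hg' γ hγ, zero_smul])]
  refine ContDiffAt.congr_of_eventuallyEq ?_ h1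
  have hsum : ContDiffAt ℝ 1 (fun g' => ∑ γ ∈ F, wt D M γ g') g :=
    ContDiffAt.sum fun γ _ => wt_smooth M γ hd
  have hne : ∑ γ ∈ F, wt D M γ g ≠ 0 := by
    have hp : 0 < wt D M γ0 g := expNegInvGlue.pos_of_pos (by linarith)
    have hm : γ0 ∈ F := by
      by_contra h
      exact hp.ne' (hF.self_of_nhds γ0 h)
    exact (Finset.sum_pos' (fun γ _ => wt_nonneg M γ g) ⟨γ0, hm, hp⟩).ne'
  refine ContDiffAt.smul (hsum.inv hne) ?_
  exact ContDiffAt.sum fun γ _ => (wt_smooth M γ hd).smul contDiffAt_const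

theorem wt_fa (hD : Wild D) (M : ℝ) (γ δ : H) (g : F3) :
    wt D M γ (fa (D δ) g) = wt D M (δ⁻¹ * γ) g := by
  unfold wt
  rw [nt_fa (hD.det δ), ← map_mul]
  congr 4
  group

theorem em_equi {E : Type} [NormedAddCommGroup E] [NormedSpace ℝ E] [FiniteDimensional ℝ E]
    (hol : H →* (E ≃ᵃ[ℝ] E))
    (hD : Wild D) (hfin : ∀ M : ℝ, {γ : H | ∀ i j, |D γ i j| ≤ M}.Finite) (M : ℝ) (p : E) {g : F3}
    (h0 : 0 < g 0) (hd : 0 < dc g) {γ0 : H} (hpos : nt (D γ0⁻¹) g < M) (δ : H) :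
    em D M (fun γ => hol γ p) (fa (D δ) g) = hol δ (em D M (fun γ => hol γ p) g) := by
  classical
  obtain ⟨F, hF⟩ := wt_locfin hfin M h0 hd
  have hF' := hF.self_of_nhds
  have e3 : ∑' γ : H, wt D M γ g = ∑ γ ∈ F, wt D M γ g :=
    tsum_eq_sum (s := F) (fun γ hγ => hF' γ hγ)
  have e4 : ∑' γ : H, wt D M γ g • hol γ p = ∑ γ ∈ F, wt D M γ g • hol γ p :=
    tsum_eq_sum (s := F) (fun γ hγ => by rw [hF' γ hγ, zero_smul])
  have e5 : ∑' γ : H, wt D M γ g • hol δ (hol γ p) = ∑ γ ∈ F, wt D M γ g • hol δ (hol γ p) :=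
    tsum_eq_sum (s := F) (fun γ hγ => by rw [hF' γ hγ, zero_smul])
  have e1 : ∑' γ : H, wt D M γ (fa (D δ) g) = ∑ γ ∈ F, wt D M γ g := by
    rw [← e3, ← Equiv.tsum_eq (Equiv.mulLeft δ)]
    refine tsum_congr fun γ => ?_
    rw [wt_fa hD]
    show wt D M (δ⁻¹ * (δ * γ)) g = wt D M γ g
    rw [inv_mul_cancel_left]
  have e2 : ∑' γ : H, wt D M γ (fa (D δ) g) • hol γ p = ∑ γ ∈ F, wt D M γ g • hol δ (hol γ p) := by
    rw [← e5, ← Equiv.tsum_eq (Equiv.mulLeft δ)]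
    refine tsum_congr fun γ => ?_
    rw [wt_fa hD]
    show wt D M (δ⁻¹ * (δ * γ)) g • hol (δ * γ) p = wt D M γ g • hol δ (hol γ p)
    rw [inv_mul_cancel_left, map_mul]
    rfl
  have hne : ∑ γ ∈ F, wt D M γ g ≠ 0 := by
    have hp : 0 < wt D M γ0 g := expNegInvGlue.pos_of_pos (by linarith)
    have hm : γ0 ∈ F := by
      by_contra h
      exact hp.ne' (hF' γ0 h)
    exact (Finset.sum_pos' (fun γ _ => wt_nonneg M γ g) ⟨γ0, hm, hp⟩).ne'
  unfold em
  rw [e1, e2, e3, e4]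
  have hadd : ∀ v : E, hol δ v = hol δ 0 + Pool.Agent.W689.Mk.lin hol δ v := by
    intro v
    have := hol_add (hol := hol) δ 0 v
    rwa [zero_add] at this
  rw [hadd (_ • _)]
  have h5 : ∑ γ ∈ F, wt D M γ g • hol δ (hol γ p) =
      (∑ γ ∈ F, wt D M γ g) • hol δ 0 +
        Pool.Agent.W689.Mk.lin hol δ (∑ γ ∈ F, wt D M γ g • hol γ p) := by
    have h6 : Pool.Agent.W689.Mk.lin hol δ (∑ γ ∈ F, wt D M γ g • hol γ p) =
        ∑ γ ∈ F, wt D M γ g • Pool.Agent.W689.Mk.lin hol δ (hol γ p) := by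
      show (hol δ).linear (∑ γ ∈ F, wt D M γ g • hol γ p) = _
      rw [map_sum]
      refine Finset.sum_congr rfl fun γ _ => ?_
      rw [map_smul]
    rw [h6, Finset.sum_smul, ← Finset.sum_add_distrib]
    refine Finset.sum_congr rfl fun γ _ => ?_
    rw [← smul_add, ← hadd]
  rw [h5, smul_add, smul_smul, inv_mul_cancel₀ hne, one_smul]
  congr 1
  show _ = (hol δ).linear _
  rw [map_smul]

theorem em_smul {E : Type} [NormedAddCommGroup E] [NormedSpace ℝ E] (M : ℝ) (e : H → E) (g : F3)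
    {c : ℝ} (hc : 0 < c) : em D M e (c • g) = em D M e g := by
  have h1 : ∀ γ, wt D M γ (c • g) = wt D M γ g := by
    intro γ
    unfold wt
    rw [nt_smul _ _ hc]
  unfold em
  simp only [h1]

/-- the affine action on the forms -/
noncomputable def fact (D : H →* M2) : H →* (F3 ≃ᵃ[ℝ] F3) :=
  (AffineEquiv.equivUnitsAffineMap.symm.toMonoidHom).comp
    ((⟨⟨fun γ => (fa (D γ)).toAffineMap, by
      apply AffineMap.ext
      intro g
      show fa (D 1) g = g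
      rw [map_one, fa_one]⟩, fun γ δ => by
      apply AffineMap.ext
      intro g
      show fa (D (γ * δ)) g = fa (D γ) (fa (D δ) g)
      rw [map_mul, fa_mul]⟩ : H →* (F3 →ᵃ[ℝ] F3)).toHomUnits)

theorem fact_apply (D : H →* M2) (γ : H) (g : F3) : fact D γ g = fa (D γ) g := rfl

/-- the parametrisation of the normalised forms -/
noncomputable def pm (u : ℝ × ℝ) : F3 := ![u.1, u.2, (1 + u.2 ^ 2) / u.1]

theorem pm_smooth {u : ℝ × ℝ} (hu : 0 < u.1) : ContDiffAt ℝ 1 pm u := by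
  rw [contDiffAt_pi]
  intro i
  fin_cases i
  · show ContDiffAt ℝ 1 (fun u : ℝ × ℝ => u.1) u
    fun_prop
  · show ContDiffAt ℝ 1 (fun u : ℝ × ℝ => u.2) u
    fun_prop
  · show ContDiffAt ℝ 1 (fun u : ℝ × ℝ => (1 + u.2 ^ 2) / u.1) u
    exact ContDiffAt.div (by fun_prop) (by fun_prop) hu.ne'

theorem pm_eq {g : F3} (h0 : 0 < g 0) (hd : 0 < dc g) :
    g = √(dc g) • pm (g 0 / √(dc g), g 1 / √(dc g)) := by
  have hs : 0 < √(dc g) := Real.sqrt_pos.2 hd
  have hss : √(dc g) ^ 2 = dc g := Real.sq_sqrt hd.le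
  apply f3ext
  · show g 0 = √(dc g) * (g 0 / √(dc g))
    field_simp
  · show g 1 = √(dc g) * (g 1 / √(dc g))
    field_simp
  · show g 2 = √(dc g) * ((1 + (g 1 / √(dc g)) ^ 2) / (g 0 / √(dc g)))
    field_simp
    rw [hss]
    unfold dc
    ring

/-- images of maps which factor through the normalised forms -/
theorem dim_small {X E : Type} [NormedAddCommGroup E] [NormedSpace ℝ E]
    {F : F3 → E} (hFsm : ∀ (g : F3) (c : ℝ), 0 < c → F (c • g) = F g) {h : X → F3}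
    (hP : ∀ x, 0 < h x 0 ∧ 0 < dc (h x))
    (hF : ∀ x, ∀ c : ℝ, 0 < c → ContDiffAt ℝ 1 F (c • h x)) :
    dimH (range fun x => F (h x)) ≤ 2 := by
  let κ : X → ℝ × ℝ := fun x => (h x 0 / √(dc (h x)), h x 1 / √(dc (h x)))
  have hκ : ∀ x, F (h x) = F (pm (κ x)) := by
    intro x
    have h1 := pm_eq (hP x).1 (hP x).2
    have h2 := hFsm (pm (κ x)) (√(dc (h x))) (Real.sqrt_pos.2 (hP x).2)
    rw [← h2]
    exact congrArg F h1
  have hrange : range (fun x => F (h x)) ⊆ (fun u => F (pm u)) '' (range κ) := by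
    rintro _ ⟨x, rfl⟩
    exact ⟨κ x, ⟨x, rfl⟩, (hκ x).symm⟩
  have hdim : dimH ((fun u => F (pm u)) '' (range κ)) ≤ dimH (range κ) := by
    refine dimH_image_le_of_locally_lipschitzOn ?_
    rintro _ ⟨x, rfl⟩
    have hs : 0 < √(dc (h x)) := Real.sqrt_pos.2 (hP x).2
    have hκ1 : 0 < (κ x).1 := div_pos (hP x).1 hs
    have h2 : pm (κ x) = (√(dc (h x)))⁻¹ • h x := by
      rw [eq_inv_smul_iff₀ hs.ne']
      exact (pm_eq (hP x).1 (hP x).2).symm
    have h3 : ContDiffAt ℝ 1 F (pm (κ x)) := by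
      rw [h2]
      exact hF x _ (inv_pos.2 hs)
    have h4 : ContDiffAt ℝ 1 (fun u => F (pm u)) (κ x) := h3.comp (κ x) (pm_smooth hκ1)
    obtain ⟨C, t, ht, hC⟩ := h4.exists_lipschitzOnWith
    exact ⟨C, t, mem_nhdsWithin_of_mem_nhds ht, hC⟩
  have hdim2 : dimH (range κ) ≤ 2 := by
    refine (dimH_mono (subset_univ _)).trans ?_
    rw [Real.dimH_univ_eq_finrank]
    simp
  exact (dimH_mono hrange).trans (hdim.trans hdim2)

/-- locally Lipschitz maps are continuous -/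
theorem ll_cont {X E W' : Type} [TopologicalSpace X] [NormedAddCommGroup E] [NormedSpace ℝ E]
    [NormedAddCommGroup W'] {dev : X → E} (hdev : Continuous dev) {h : X → W'} (hL : LL dev h) :
    Continuous h := by
  rw [continuous_iff_continuousAt]
  intro x
  obtain ⟨U, hU, L, hL, hUL⟩ := hL x
  rw [ContinuousAt, tendsto_iff_norm_sub_tendsto_zero]
  have h1 : Tendsto (fun y : X => L * ‖dev y - dev x‖) (𝓝 x) (𝓝 0) := by
    have h2 : Continuous fun y : X => L * ‖dev y - dev x‖ := by fun_prop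
    have h3 := h2.tendsto x
    simpa using h3
  refine squeeze_zero' (Eventually.of_forall fun y => norm_nonneg _) ?_ h1
  filter_upwards [hU] with y hy
  exact hUL y hy x (mem_of_mem_nhds hU)

/-- an equivariant map to the forms -/
theorem exists_form_map {X E : Type} [TopologicalSpace X] [T2Space X]
    [MulAction H X] [NormedAddCommGroup E] [NormedSpace ℝ E] [FiniteDimensional ℝ E]
    {dev : X → E} {hol : H →* (E ≃ᵃ[ℝ] E)} (D' : AffData X H E dev hol) (hD : Wild D) :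
    ∃ h : X → F3, (∀ x, h x ∈ PP) ∧ LL dev h ∧ ∀ (γ : H) x, h (γ • x) = fa (D γ) (h x) := by
  obtain ⟨ρ, hρ⟩ := exists_wt D'
  obtain ⟨g0, hg0⟩ : ∃ g0 : F3, g0 = ![1, 0, 1] := ⟨_, rfl⟩
  have hg0P : g0 ∈ PP := by
    intro x y hxy
    have e : qv g0 x y = x ^ 2 + y ^ 2 := by simp [qv, hg0]
    rw [e]
    by_contra h
    push Not at h
    apply hxy
    constructor <;> nlinarith [sq_nonneg x, sq_nonneg y]
  refine ⟨fun x => av ρ (fun γ : H => fact D γ⁻¹ g0) x, fun x => ?_, av_ll D' hρ _, fun γ x => ?_⟩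
  · refine av_mem hρ pp_convex (fun γ => ?_) x
    rw [fact_apply]
    exact pp_fa (hD.det_ne _) hg0P
  · have := Pool.Agent.Q138.Mk.av_aff hρ (fact D) g0 γ x
    rw [fact_apply] at this
    exact this

end

end Pool.Agent.Helper63.Mk
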