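import Pool.Agent.Helper63.Mk.Eq

/-!
Project Mk (helper63): discrete linear groups of the plane are too small, part two.
-/

set_option autoImplicit false

open Set Filter Topology MeasureTheory
open scoped Matrix NNReal ENNReal
open Pool.Agent.W689.Mk

namespace Pool.Agent.Helper63.Mk

section
variable {H : Type} [Group H] {D : H →* M2}

/-- the bound -/
theorem exists_bound {X : Type} [TopologicalSpace X] [MulAction H X] (hD : Wild D) {h : X → F3}
    (hP : ∀ x, h x ∈ PP) (hc : Continuous h) (he : ∀ (γ : H) x, h (γ • x) = fa (D γ) (h x))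
    (hcc : ∃ K : Set X, IsCompact K ∧ ∀ x : X, ∃ γ : H, ∃ k ∈ K, γ • k = x) :
    ∃ M : ℝ, ∀ x, ∃ γ : H, nt (D γ⁻¹) (h x) < M := by
  obtain ⟨K, hK, hKc⟩ := hcc
  have hnc : ContinuousOn (fun x => nt (1 : M2) (h x)) K := by
    intro x _
    have h1 := (nt_smooth (1 : M2) (pp_pos (hP x)).2).continuousAt
    exact (ContinuousAt.comp (f := h) h1 hc.continuousAt).continuousWithinAt
  obtain ⟨M0, hM0⟩ := (hK.image_of_continuousOn hnc).bddAbove
  refine ⟨M0 + 1, fun x => ?_⟩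
  obtain ⟨γ, k, hk, rfl⟩ := hKc x
  refine ⟨γ, ?_⟩
  rw [he, nt_fa (hD.det γ), D_inv']
  have := hM0 ⟨k, hk, rfl⟩
  exact lt_of_le_of_lt this (by linarith)

/-- the map is smooth on the rays through the image -/
theorem em_ray {E : Type} [NormedAddCommGroup E] [NormedSpace ℝ E]
    (hfin : ∀ M : ℝ, {γ : H | ∀ i j, |D γ i j| ≤ M}.Finite) (M : ℝ) (e : H → E) {g : F3}
    (hP : g ∈ PP) {γ : H} (hγ : nt (D γ⁻¹) g < M) {c : ℝ} (hc : 0 < c) :
    ContDiffAt ℝ 1 (em D M e) (c • g) := by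
  refine em_smooth hfin M _ ?_ ?_ (γ0 := γ) (by rw [nt_smul _ _ hc]; exact hγ)
  · show 0 < c * g 0
    exact mul_pos hc (pp_pos hP).1
  · have e : dc (c • g) = c ^ 2 * dc g := by
      unfold dc; simp only [Pi.smul_apply, smul_eq_mul]; ring
    rw [e]
    exact mul_pos (by positivity) (pp_pos hP).2

theorem ll_of_smooth {X E : Type} [TopologicalSpace X] [T2Space X] [NormedAddCommGroup E]
    [NormedSpace ℝ E] [FiniteDimensional ℝ E] {dev : X → E} (hdev : Continuous dev) {h : X → F3}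
    (hL : LL dev h) {F : F3 → E} (hF : ∀ x, ContDiffAt ℝ 1 F (h x)) : LL dev (fun x => F (h x)) := by
  refine hL.comp hdev fun x => ?_
  obtain ⟨K, t, ht, hK⟩ := (hF x).exists_lipschitzOnWith
  refine ⟨t, ht, K, K.2, fun y hy z hz => ?_⟩
  have h1 := hK.dist_le_mul _ hy _ hz
  rwa [dist_eq_norm, dist_eq_norm] at h1

theorem no_small_image {X E : Type} [TopologicalSpace X] [T2Space X] [SecondCountableTopology X]
    [Nonempty X] [MulAction H X] [NormedAddCommGroup E] [NormedSpace ℝ E] [FiniteDimensional ℝ E]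
    {dev : X → E} {hol : H →* (E ≃ᵃ[ℝ] E)} (D' : AffData X H E dev hol) {F : X → E}
    (hFL : LL dev F) (hFe : ∀ (γ : H) x, F (γ • x) = hol γ (F x))
    (hdim : dimH (range F) < ((Module.finrank ℝ E : ℝ≥0) : ℝ≥0∞)) : False := by
  letI : MeasurableSpace E := borel E
  haveI : BorelSpace E := ⟨rfl⟩
  have h4 := hausdorffMeasure_of_dimH_lt hdim
  rw [NNReal.coe_natCast] at h4
  exact Pool.Agent.Q138.Mk.range_pos (μH[(Module.finrank ℝ E : ℝ)] : Measure E) D' hFL hFe h4

/-- **The group is too small.** -/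
theorem small_abs {X E : Type} [TopologicalSpace X] [T2Space X] [SecondCountableTopology X]
    [Nonempty X] [MulAction H X] [NormedAddCommGroup E] [NormedSpace ℝ E] [FiniteDimensional ℝ E]
    {dev : X → E} {hol : H →* (E ≃ᵃ[ℝ] E)} (D' : AffData X H E dev hol) (hD : Wild D)
    (hfin : ∀ M : ℝ, {γ : H | ∀ i j, |D γ i j| ≤ M}.Finite) (hE : 2 < Module.finrank ℝ E) :
    False := by
  obtain ⟨h, hP, hL, he⟩ := exists_form_map D' hD
  obtain ⟨M, hM⟩ := exists_bound hD hP (ll_cont D'.loc.continuous hL) he D'.cc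
  obtain ⟨F, hF⟩ : ∃ F : F3 → E, F = em D M (fun γ => hol γ 0) := ⟨_, rfl⟩
  have hFs : ∀ x, ∀ c : ℝ, 0 < c → ContDiffAt ℝ 1 F (c • h x) := by
    intro x c hc
    obtain ⟨γ, hγ⟩ := hM x
    rw [hF]
    exact em_ray hfin M _ (hP x) hγ hc
  have hFL : LL dev (fun x => F (h x)) := by
    refine ll_of_smooth D'.loc.continuous hL fun x => ?_
    have h1 := hFs x 1 one_pos
    rwa [one_smul] at h1
  have hFe : ∀ (γ : H) x, F (h (γ • x)) = hol γ (F (h x)) := by
    intro γ x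
    obtain ⟨γ0, hγ0⟩ := hM x
    rw [he, hF]
    exact em_equi hol hD hfin M 0 (pp_pos (hP x)).1 (pp_pos (hP x)).2 hγ0 γ
  have hdim := dim_small (F := F) (fun g c hc => by rw [hF]; exact em_smul M _ g hc)
    (fun x => pp_pos (hP x)) hFs
  refine no_small_image D' hFL hFe (hdim.trans_lt ?_)
  exact_mod_cast hE

end

section
variable {W H : Type} [NormedAddCommGroup W] [NormedSpace ℝ W] [Group H]
  {D : H →* M2} {d : H → V2} {b : H → V2 →ₗ[ℝ] W} {a : H → W} {Ω : Set V2}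

theorem Sk.small [FiniteDimensional ℝ W] (S : Sk D d b a Ω) (hD : Wild D)
    (hfin : ∀ M : ℝ, {γ : H | ∀ i j, |D γ i j| ≤ M}.Finite) (hW : 0 < Module.finrank ℝ W) :
    False := by
  letI := S.act
  have D' := S.data hD.det
  obtain ⟨v, hv⟩ := S.con.nonempty
  have : Nonempty {p : W × V2 // p.2 ∈ Ω} := ⟨⟨(0, v), hv⟩⟩
  refine small_abs D' hD hfin ?_
  rw [Module.finrank_prod]
  simp
  exact hW

/-- **The model is complete.** -/
theorem Sk.complete [FiniteDimensional ℝ W] (S : Sk D d b a Ω) (hD : Wild D) : Ω = univ := by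
  refine S.quot hD ?_
  intro C _ _ _ H' _ D' d' b' a' hD' S' hf
  by_cases hnd : ∀ ε : ℝ, 0 < ε → ∃ γ, rp D' d' S'.hd γ ≠ 1 ∧ ‖rp D' d' S'.hd γ - 1‖ < ε
  · exact nondisc S'.hd hD' S'.op S'.con.nonempty S'.inv (fun z => S'.nofix hD'.det z) hnd
  · have hdisc : ∃ ε : ℝ, 0 < ε ∧ ∀ γ, ‖rp D' d' S'.hd γ - 1‖ < ε → rp D' d' S'.hd γ = 1 := by
      push Not at hnd
      obtain ⟨ε, hε, h⟩ := hnd
      refine ⟨ε, hε, fun γ hγ => ?_⟩
      by_contra hne
      exact absurd hγ (not_lt.2 (h γ hne))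
    have T := S'.tdata hf hdisc
    by_cases hT : ∃ γ, D' γ = 1 ∧ γ ≠ 1
    · obtain ⟨γ, h1, h2⟩ := hT
      exact S'.with_trans hD' T h1 h2
    · push Not at hT
      by_cases hC : 0 < Module.finrank ℝ C
      · exact (S'.small hD' (fin_bdd hD' (disc_lin hD' S'.hd hT hdisc)) hC).elim
      · have h0 : Subsingleton C := by
          rw [← Module.finrank_zero_iff (R := ℝ)]
          omega
        exact S'.compl hD'.det 0 fun γ v => Subsingleton.elim _ _

end

end Pool.Agent.Helper63.Mk
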