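import Mathlib

/-!
Project Mk (helper63): the Lie algebra of the closure of a linear group.
-/

set_option autoImplicit false

open Set Filter Topology NormedSpace Asymptotics

namespace Pool.Agent.Helper63.Mk

section
variable {A : Type} [NormedRing A] [NormedAlgebra ℝ A]

theorem pow_sub_le (a b : A) {M : ℝ} (hM : 1 ≤ M) (ha : ‖a‖ ≤ M) (hb : ∀ k : ℕ, ‖b ^ k‖ ≤ M ^ k)
    (m : ℕ) : ‖a ^ m - b ^ m‖ ≤ m * M ^ m * ‖a - b‖ := by
  induction m with
  | zero => simp
  | succ m ih =>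
    have e : a ^ (m + 1) - b ^ (m + 1) = a * (a ^ m - b ^ m) + (a - b) * b ^ m := by
      rw [pow_succ', pow_succ']; noncomm_ring
    rw [e]
    have hM0 : 0 ≤ M := zero_le_one.trans hM
    calc ‖a * (a ^ m - b ^ m) + (a - b) * b ^ m‖
        ≤ ‖a‖ * ‖a ^ m - b ^ m‖ + ‖a - b‖ * ‖b ^ m‖ :=
          (norm_add_le _ _).trans (add_le_add (norm_mul_le _ _) (norm_mul_le _ _))
      _ ≤ M * (m * M ^ m * ‖a - b‖) + ‖a - b‖ * M ^ m := by
          gcongr
          exact hb m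
      _ ≤ M * (m * M ^ m * ‖a - b‖) + ‖a - b‖ * (M * M ^ m) := by
          gcongr
          exact le_mul_of_one_le_left (by positivity) hM
      _ = ((m + 1 : ℕ) : ℝ) * M ^ (m + 1) * ‖a - b‖ := by
          push_cast
          ring

variable [NormOneClass A] [CompleteSpace A]

theorem exp_nsmul' (n : ℕ) (x : A) : exp ((n : ℝ) • x) = exp x ^ n := by
  letI := NormedAlgebra.restrictScalars ℚ ℝ A
  rw [← exp_nsmul]
  congr 1
  exact Nat.cast_smul_eq_nsmul ℝ n x

theorem norm_exp_le' (x : A) : ‖exp x‖ ≤ Real.exp ‖x‖ := by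
  rw [exp_eq_tsum ℝ]
  have h1 : Summable fun n : ℕ => ‖((n.factorial : ℝ)⁻¹) • x ^ n‖ :=
    norm_expSeries_summable' (𝕂 := ℝ) x
  have h2 : HasSum (fun n : ℕ => ‖x‖ ^ n / (n.factorial : ℝ)) (Real.exp ‖x‖) := by
    rw [Real.exp_eq_exp_ℝ]
    exact NormedSpace.expSeries_div_hasSum_exp ‖x‖
  refine (norm_tsum_le_tsum_norm h1).trans ?_
  rw [← h2.tsum_eq]
  refine h1.tsum_le_tsum (fun n => ?_) h2.summable
  rw [norm_smul, norm_inv, Real.norm_natCast, div_eq_inv_mul]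
  exact mul_le_mul_of_nonneg_left (norm_pow_le _ _) (by positivity)

theorem kl {g : ℕ → A} {t : ℕ → ℝ} {ξ : A} (ht : Tendsto t atTop atTop)
    (hξ : Tendsto (fun n => t n • (g n - 1)) atTop (𝓝 ξ)) {s : ℝ} (hs : 0 ≤ s) :
    Tendsto (fun n => g n ^ ⌊s * t n⌋₊) atTop (𝓝 (exp (s • ξ))) := by
  set x : ℕ → A := fun n => g n - 1 with hx
  set m : ℕ → ℕ := fun n => ⌊s * t n⌋₊ with hm
  -- m x → s ξ
  have h1 : Tendsto (fun n => ((m n : ℝ) / t n)) atTop (𝓝 s) :=
    (tendsto_nat_floor_mul_div_atTop hs).comp ht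
  have ht0 : ∀ᶠ n in atTop, 0 < t n := ht.eventually_gt_atTop 0
  have h2 : Tendsto (fun n => (m n : ℝ) • x n) atTop (𝓝 (s • ξ)) := by
    refine (h1.smul hξ).congr' ?_
    filter_upwards [ht0] with n hn
    rw [smul_smul, div_mul_cancel₀ _ hn.ne']
  -- x → 0
  have h3 : Tendsto x atTop (𝓝 0) := by
    have h4 : Tendsto (fun n => (t n)⁻¹ • (t n • (g n - 1))) atTop (𝓝 ((0 : ℝ) • ξ)) :=
      (tendsto_inv_atTop_zero.comp ht).smul hξ
    rw [zero_smul] at h4
    refine h4.congr' ?_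
    filter_upwards [ht0] with n hn
    rw [smul_smul, inv_mul_cancel₀ hn.ne', one_smul]
  -- little o
  have h5 : (fun n => exp (x n) - 1 - x n) =o[atTop] x := by
    have h6 := (hasFDerivAt_exp_zero (𝕂 := ℝ) (𝔸 := A)).isLittleO
    have h7 := h6.comp_tendsto h3
    refine (h7.congr_left fun n => ?_).congr_right fun n => ?_
    · simp
    · simp
  have h8 : Tendsto (fun n => (m n : ℝ) • (exp (x n) - 1 - x n)) atTop (𝓝 0) := by
    have h9 : (fun n => (m n : ℝ) • (exp (x n) - 1 - x n)) =o[atTop]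
        fun n => (m n : ℝ) • x n := (isBigO_refl (fun n => (m n : ℝ)) atTop).smul_isLittleO h5
    exact (h9.trans_isBigO (h2.isBigO_one ℝ)).tendsto_zero_of_tendsto tendsto_const_nhds
  -- powers
  have h10 : Tendsto (fun n => Real.exp ‖(m n : ℝ) • x n‖) atTop (𝓝 (Real.exp ‖s • ξ‖)) :=
    (Real.continuous_exp.tendsto _).comp h2.norm
  have h11 : ∀ n, ‖g n ^ m n - exp ((m n : ℝ) • x n)‖ ≤
      Real.exp ‖(m n : ℝ) • x n‖ * ‖(m n : ℝ) • (exp (x n) - 1 - x n)‖ := by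
    intro n
    rw [exp_nsmul']
    have hM : 1 ≤ Real.exp ‖x n‖ := Real.one_le_exp (norm_nonneg _)
    have hg : ‖g n‖ ≤ Real.exp ‖x n‖ := by
      have e : g n = 1 + x n := by simp [hx]
      rw [e]
      refine (norm_add_le _ _).trans ?_
      rw [norm_one]
      linarith [Real.add_one_le_exp ‖x n‖]
    have hb : ∀ k : ℕ, ‖exp (x n) ^ k‖ ≤ Real.exp ‖x n‖ ^ k := by
      intro k
      refine (norm_pow_le _ _).trans ?_
      exact pow_le_pow_left₀ (norm_nonneg _) (norm_exp_le' _) k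
    refine (pow_sub_le _ _ hM hg hb (m n)).trans (le_of_eq ?_)
    rw [norm_smul, norm_smul, Real.norm_eq_abs, abs_of_nonneg (Nat.cast_nonneg (m n)),
      ← Real.exp_nat_mul]
    have e2 : ‖g n - exp (x n)‖ = ‖exp (x n) - 1 - x n‖ := by
      rw [norm_sub_rev]
      congr 1
      simp only [hx]
      abel
    rw [e2]
    ring
  have h12 : Tendsto (fun n => g n ^ m n - exp ((m n : ℝ) • x n)) atTop (𝓝 0) := by
    refine squeeze_zero_norm h11 ?_
    have := h10.mul h8.norm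
    rwa [norm_zero, mul_zero] at this
  have h13 : Tendsto (fun n => exp ((m n : ℝ) • x n)) atTop (𝓝 (exp (s • ξ))) := by
    letI := NormedAlgebra.restrictScalars ℚ ℝ A
    exact (exp_continuous.tendsto _).comp h2
  have := h12.add h13
  rw [zero_add] at this
  exact this.congr fun n => by abel

end

section lie
variable {A : Type} [NormedRing A] [NormedAlgebra ℝ A] [NormOneClass A] [CompleteSpace A]
  {H : Type} [Group H] (R : H →* A)

/-- the closure of the group -/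
def Cl : Set A := closure (range R)

variable {R}

theorem R_inv (γ : H) : R γ * R γ⁻¹ = 1 := by rw [← map_mul, mul_inv_cancel, map_one]

theorem R_inv' (γ : H) : R γ⁻¹ * R γ = 1 := by rw [← map_mul, inv_mul_cancel, map_one]

theorem cl_of (γ : H) : R γ ∈ Cl R := subset_closure ⟨γ, rfl⟩

theorem cl_one : (1 : A) ∈ Cl R := by
  have := cl_of (R := R) 1
  rwa [map_one] at this

theorem cl_closed : IsClosed (Cl R) := isClosed_closure

theorem cl_mul {a b : A} (ha : a ∈ Cl R) (hb : b ∈ Cl R) : a * b ∈ Cl R := by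
  refine map_mem_closure₂ continuous_mul ha hb ?_
  rintro _ ⟨γ, rfl⟩ _ ⟨δ, rfl⟩
  exact ⟨γ * δ, map_mul R γ δ⟩

theorem cl_pow {a : A} (ha : a ∈ Cl R) (n : ℕ) : a ^ n ∈ Cl R := by
  induction n with
  | zero => rw [pow_zero]; exact cl_one
  | succ n ih => rw [pow_succ]; exact cl_mul ih ha

theorem exp_add_smul (s t : ℝ) (x : A) : exp ((s + t) • x) = exp (s • x) * exp (t • x) := by
  letI := NormedAlgebra.restrictScalars ℚ ℝ A
  rw [add_smul, exp_add_of_commute]
  exact ((Commute.refl x).smul_left s).smul_right t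

theorem exp_zero_smul (x : A) : exp ((0 : ℝ) • x) = 1 := by
  rw [zero_smul, exp_zero]

theorem exp_neg_mul (t : ℝ) (x : A) : exp (t • x) * exp ((-t) • x) = 1 := by
  rw [← exp_add_smul, add_neg_cancel, exp_zero_smul]

theorem exp_smul_tendsto (x : A) : Tendsto (fun n : ℕ => (n : ℝ) • (exp ((n : ℝ)⁻¹ • x) - 1)) atTop
    (𝓝 x) := by
  have h1 : HasDerivAt (fun u : ℝ => exp (u • x)) (exp ((0 : ℝ) • x) * x) 0 :=
    hasDerivAt_exp_smul_const x (0 : ℝ)
  rw [exp_zero_smul, one_mul] at h1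
  have h2 := h1.tendsto_slope_zero
  have h3 : Tendsto (fun n : ℕ => ((n : ℝ))⁻¹) atTop (𝓝[≠] 0) := by
    rw [tendsto_nhdsWithin_iff]
    refine ⟨tendsto_inv_atTop_zero.comp tendsto_natCast_atTop_atTop, ?_⟩
    filter_upwards [eventually_gt_atTop 0] with n hn
    simp
    omega
  have h4 := h2.comp h3
  refine h4.congr fun n => ?_
  simp only [Function.comp_apply, zero_add, inv_inv, exp_zero_smul, zero_smul, exp_zero]

theorem exp_smul_tendsto_one (x : A) : Tendsto (fun n : ℕ => exp ((n : ℝ)⁻¹ • x)) atTop (𝓝 1) := by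
  have h4 : Tendsto (fun n : ℕ => (n : ℝ)⁻¹ • x) atTop (𝓝 ((0 : ℝ) • x)) :=
    (tendsto_inv_atTop_zero.comp tendsto_natCast_atTop_atTop).smul_const x
  letI := NormedAlgebra.restrictScalars ℚ ℝ A
  have h5 := (exp_continuous.tendsto ((0 : ℝ) • x)).comp h4
  rwa [exp_zero_smul] at h5

/-- a tangent vector generates a one-parameter semigroup -/
theorem half_flow {g : ℕ → A} {t : ℕ → ℝ} {ξ : A} (hg : ∀ n, g n ∈ Cl R)
    (ht : Tendsto t atTop atTop)
    (hξ : Tendsto (fun n => t n • (g n - 1)) atTop (𝓝 ξ)) {s : ℝ} (hs : 0 ≤ s) :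
    exp (s • ξ) ∈ Cl R :=
  cl_closed.mem_of_tendsto (kl ht hξ hs) (Eventually.of_forall fun n => cl_pow (hg n) _)

variable (R)

/-- the Lie algebra of the closure -/
def Lie : Submodule ℝ A where
  carrier := {ξ | ∀ t : ℝ, exp (t • ξ) ∈ Cl R}
  zero_mem' := by
    intro t
    rw [smul_zero, exp_zero]
    exact cl_one
  add_mem' := by
    have key : ∀ ξ η : A, (∀ t : ℝ, exp (t • ξ) ∈ Cl R) → (∀ t : ℝ, exp (t • η) ∈ Cl R) →
        ∀ s : ℝ, 0 ≤ s → exp (s • (ξ + η)) ∈ Cl R := by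
      intro ξ η hξ hη s hs
      refine half_flow (g := fun n : ℕ => exp ((n : ℝ)⁻¹ • ξ) * exp ((n : ℝ)⁻¹ • η))
        (t := fun n : ℕ => (n : ℝ)) (fun n => cl_mul (hξ _) (hη _)) tendsto_natCast_atTop_atTop ?_ hs
      have h1 := exp_smul_tendsto ξ
      have h2 := exp_smul_tendsto η
      have h3 : Tendsto (fun n : ℕ => exp ((n : ℝ)⁻¹ • η)) atTop (𝓝 1) := by
        have h4 : Tendsto (fun n : ℕ => (n : ℝ)⁻¹ • η) atTop (𝓝 ((0 : ℝ) • η)) :=
          (tendsto_inv_atTop_zero.comp tendsto_natCast_atTop_atTop).smul_const η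
        letI := NormedAlgebra.restrictScalars ℚ ℝ A
        have h5 := (exp_continuous.tendsto ((0 : ℝ) • η)).comp h4
        rwa [exp_zero_smul] at h5
      have h6 := (h1.mul h3).add h2
      rw [mul_one] at h6
      refine h6.congr fun n => ?_
      rw [smul_mul_assoc, ← smul_add]
      congr 1
      noncomm_ring
    intro ξ η hξ hη t
    rcases le_total 0 t with ht | ht
    · exact key ξ η hξ hη t ht
    · have h1 := key (-ξ) (-η) (fun t => by
        rw [smul_neg, ← neg_smul]; exact hξ _) (fun t => by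
        rw [smul_neg, ← neg_smul]; exact hη _) (-t) (by linarith)
      rwa [← neg_add, smul_neg, neg_smul, neg_neg] at h1
  smul_mem' := by
    intro c ξ hξ t
    rw [smul_smul]
    exact hξ _

variable {R}

theorem lie_of_seq {h : ℕ → H} {t : ℕ → ℝ} {ξ : A} (ht : Tendsto t atTop atTop)
    (hξ : Tendsto (fun n => t n • (R (h n) - 1)) atTop (𝓝 ξ)) : ξ ∈ Lie R := by
  intro s
  rcases le_total 0 s with hs | hs
  · exact half_flow (fun n => cl_of (h n)) ht hξ hs
  · have ht0 : ∀ᶠ n in atTop, 0 < t n := ht.eventually_gt_atTop 0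
    have h3 : Tendsto (fun n => R (h n)) atTop (𝓝 1) := by
      have h4 : Tendsto (fun n => (t n)⁻¹ • (t n • (R (h n) - 1))) atTop (𝓝 ((0 : ℝ) • ξ)) :=
        (tendsto_inv_atTop_zero.comp ht).smul hξ
      rw [zero_smul] at h4
      have h5 : Tendsto (fun n => R (h n) - 1) atTop (𝓝 0) := by
        refine h4.congr' ?_
        filter_upwards [ht0] with n hn
        rw [smul_smul, inv_mul_cancel₀ hn.ne', one_smul]
      have h6 := h5.add_const (1 : A)
      rw [zero_add] at h6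
      exact h6.congr fun n => by abel
    have h4 : Tendsto (fun n => R (h n)⁻¹) atTop (𝓝 1) := by
      have h5 := (NormedRing.inverse_continuousAt (1 : Aˣ)).tendsto
      have h6 : Tendsto (fun n => Ring.inverse (R (h n))) atTop (𝓝 (Ring.inverse (1 : A))) :=
        h5.comp h3
      rw [Ring.inverse_one] at h6
      refine h6.congr fun n => ?_
      have h7 : R (h n) = ((⟨R (h n), R (h n)⁻¹, R_inv _, R_inv' _⟩ : Aˣ) : A) := rfl
      rw [h7, Ring.inverse_unit]
      rfl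
    have h5 : Tendsto (fun n => t n • (R (h n)⁻¹ - 1)) atTop (𝓝 (-ξ)) := by
      have h6 := (h4.mul hξ).neg
      rw [one_mul] at h6
      refine h6.congr fun n => ?_
      rw [mul_smul_comm, mul_sub, R_inv', mul_one, ← smul_neg, neg_sub]
    have h6 := half_flow (fun n => cl_of (h n)⁻¹) ht h5 (s := -s) (by linarith)
    rwa [smul_neg, neg_smul, neg_neg] at h6

/-- conjugation by the elements of the group -/
theorem lie_conj {ξ : A} (hξ : ξ ∈ Lie R) (γ : H) : R γ * ξ * R γ⁻¹ ∈ Lie R := by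
  intro t
  letI := NormedAlgebra.restrictScalars ℚ ℝ A
  have h1 : t • (R γ * ξ * R γ⁻¹) = R γ * (t • ξ) * R γ⁻¹ := by
    rw [mul_smul_comm, smul_mul_assoc]
  rw [h1]
  have h2 := exp_units_conj (⟨R γ, R γ⁻¹, R_inv _, R_inv' _⟩ : Aˣ) (t • ξ)
  have h3 : exp (R γ * (t • ξ) * R γ⁻¹) = R γ * exp (t • ξ) * R γ⁻¹ := h2
  rw [h3]
  exact cl_mul (cl_mul (cl_of γ) (hξ t)) (cl_of _)

theorem lie_exp_conj {ξ η : A} (hξ : ξ ∈ Lie R) (hη : η ∈ Lie R) (s : ℝ) :
    exp (s • ξ) * η * exp ((-s) • ξ) ∈ Lie R := by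
  intro t
  letI := NormedAlgebra.restrictScalars ℚ ℝ A
  have h1 : t • (exp (s • ξ) * η * exp ((-s) • ξ)) = exp (s • ξ) * (t • η) * exp ((-s) • ξ) := by
    rw [mul_smul_comm, smul_mul_assoc]
  rw [h1]
  have h2 := exp_units_conj (⟨exp (s • ξ), exp ((-s) • ξ), exp_neg_mul _ _, by
    have := exp_neg_mul (-s) ξ
    rwa [neg_neg] at this⟩ : Aˣ) (t • η)
  have h3 : exp (exp (s • ξ) * (t • η) * exp ((-s) • ξ)) =
    exp (s • ξ) * exp (t • η) * exp ((-s) • ξ) := h2
  rw [h3]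
  exact cl_mul (cl_mul (hξ s) (hη t)) (hξ _)

/-- brackets -/
theorem lie_bracket [FiniteDimensional ℝ A] {ξ η : A} (hξ : ξ ∈ Lie R) (hη : η ∈ Lie R) :
    ξ * η - η * ξ ∈ Lie R := by
  have h1 : HasDerivAt (fun u : ℝ => exp (u • ξ)) (exp ((0 : ℝ) • ξ) * ξ) 0 :=
    hasDerivAt_exp_smul_const ξ (0 : ℝ)
  have h2 : HasDerivAt (fun u : ℝ => exp ((-u) • ξ)) (-(exp ((0 : ℝ) • ξ) * ξ)) 0 := by
    have h3 : HasDerivAt (fun u : ℝ => exp (u • ξ)) (exp ((0 : ℝ) • ξ) * ξ) (-0 : ℝ) := by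
      rw [neg_zero]; exact h1
    have h4 := h3.scomp (0 : ℝ) (hasDerivAt_neg (0 : ℝ))
    rw [neg_one_smul] at h4
    exact h4
  rw [exp_zero_smul, one_mul] at h1 h2
  have h3 := (h1.mul_const η).mul h2
  have h4 : ξ * η * exp ((-0 : ℝ) • ξ) + exp ((0 : ℝ) • ξ) * η * -ξ = ξ * η - η * ξ := by
    rw [neg_zero, exp_zero_smul]
    noncomm_ring
  rw [h4] at h3
  have h5 := h3.tendsto_slope_zero
  have hcl : IsClosed ((Lie R : Submodule ℝ A) : Set A) := (Lie R).closed_of_finiteDimensional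
  refine hcl.mem_of_tendsto h5 ?_
  refine Eventually.of_forall fun u => ?_
  refine (Lie R).smul_mem _ ((Lie R).sub_mem ?_ ?_)
  · have := lie_exp_conj hξ hη (0 + u)
    exact this
  · exact lie_exp_conj hξ hη 0

/-- nondiscrete groups have a Lie algebra -/
theorem lie_ne [FiniteDimensional ℝ A] (h : ∀ ε : ℝ, 0 < ε → ∃ γ, R γ ≠ 1 ∧ ‖R γ - 1‖ < ε) :
    ∃ ξ ∈ Lie R, ξ ≠ 0 := by
  have : ProperSpace A := FiniteDimensional.proper_real A
  choose g hg1 hg2 using fun n : ℕ => h (1 / ((n : ℝ) + 1)) (by positivity)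
  let t : ℕ → ℝ := fun n => ‖R (g n) - 1‖⁻¹
  have hpos : ∀ n, 0 < ‖R (g n) - 1‖ := fun n => norm_pos_iff.2 (sub_ne_zero.2 (hg1 n))
  have ht : Tendsto t atTop atTop := by
    refine tendsto_atTop_mono (fun n => ?_) tendsto_natCast_atTop_atTop
    have h1 := hg2 n
    have h2 : (n : ℝ) + 1 < ‖R (g n) - 1‖⁻¹ := by
      rw [lt_inv_comm₀ (by positivity) (hpos n)]
      simpa using h1
    show (n : ℝ) ≤ ‖R (g n) - 1‖⁻¹
    linarith
  have hmem : ∀ n, t n • (R (g n) - 1) ∈ Metric.sphere (0 : A) 1 := by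
    intro n
    rw [mem_sphere_zero_iff_norm, norm_smul, norm_inv, norm_norm]
    exact inv_mul_cancel₀ (hpos n).ne'
  obtain ⟨ξ, hξ, φ, hφ, hlim⟩ := (isCompact_sphere (0 : A) 1).tendsto_subseq hmem
  refine ⟨ξ, lie_of_seq (h := fun n => g (φ n)) (ht.comp hφ.tendsto_atTop) hlim, ?_⟩
  rintro rfl
  have := mem_sphere_zero_iff_norm.1 hξ
  rw [norm_zero] at this
  exact zero_ne_one this

/-- nilpotent elements of order two -/
theorem exp_sq_zero {x : A} (hx : x * x = 0) : exp x = 1 + x := by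
  have h1 : ∀ n : ℕ, 2 ≤ n → x ^ n = 0 := by
    intro n hn
    obtain ⟨k, rfl⟩ := Nat.exists_eq_add_of_le hn
    rw [pow_add, pow_two, hx, zero_mul]
  rw [exp_eq_tsum ℝ]
  show ∑' n : ℕ, ((n.factorial : ℝ)⁻¹) • x ^ n = _
  rw [tsum_eq_sum (s := Finset.range 2)]
  · simp [Finset.sum_range_succ]
  · intro n hn
    rw [Finset.mem_range, not_lt] at hn
    rw [h1 n hn, smul_zero]

end lie

end Pool.Agent.Helper63.Mk
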