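import Pool.Agent.Helper63.Mk.Sk

/-!
Project Mk (helper63): the elements which act trivially on the plane are translations.
-/

set_option autoImplicit false

open Set Filter Topology
open scoped Matrix

namespace Pool.Agent.Helper63.Mk

theorem sub_closed (R : Submodule ℝ (M2 × ℝ)) : IsClosed (R : Set (M2 × ℝ)) := by
  have : FiniteDimensional ℝ R := inferInstance
  exact Submodule.closed_of_finiteDimensional R

section
variable {W H : Type} [NormedAddCommGroup W] [NormedSpace ℝ W] [Group H]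
  {D : H →* M2} {d : H → V2} {b : H → V2 →ₗ[ℝ] W} {a : H → W} {Ω : Set V2}

/-- the kernel -/
def Ker (D : H →* M2) (d : H → V2) (γ : H) : Prop := D γ = 1 ∧ d γ = 0

theorem Sk.ker_mul (S : Sk D d b a Ω) {γ δ : H} (h : Ker D d γ) (h' : Ker D d δ) :
    Ker D d (γ * δ) := by
  refine ⟨by rw [map_mul, h.1, h'.1, one_mul], ?_⟩
  rw [S.hd, h'.2, h.2, Matrix.mulVec_zero, add_zero]

theorem Sk.ker_inv (S : Sk D d b a Ω) {γ : H} (h : Ker D d γ) : Ker D d γ⁻¹ := by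
  have h1 : D γ⁻¹ = 1 := by
    have := D_inv D γ
    rwa [h.1, one_mul] at this
  refine ⟨h1, ?_⟩
  have := d_inv S.hd γ
  rwa [h.1, h.2, Matrix.one_mulVec, add_zero] at this

theorem Sk.ker_one (S : Sk D d b a Ω) : Ker D d 1 := ⟨map_one D, d_one S.hd⟩

/-- the functions of the kernel -/
def Sk.Lam (S : Sk D d b a Ω) : AddSubgroup ((V2 →ₗ[ℝ] W) × W) where
  carrier := {p | ∃ γ, Ker D d γ ∧ p = (b γ, a γ)}
  zero_mem' := by
    refine ⟨1, S.ker_one, ?_⟩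
    refine Prod.ext ?_ S.a_one.symm
    apply LinearMap.ext
    intro v
    exact (S.b_one v).symm
  add_mem' := by
    rintro _ _ ⟨γ, hγ, rfl⟩ ⟨δ, hδ, rfl⟩
    refine ⟨γ * δ, S.ker_mul hγ hδ, ?_⟩
    refine Prod.ext ?_ ?_
    · apply LinearMap.ext
      intro v
      show b γ v + b δ v = b (γ * δ) v
      rw [S.hb, hδ.1, Matrix.one_mulVec, add_comm]
    · show a γ + a δ = a (γ * δ)
      rw [S.ha, hδ.2, map_zero, add_zero, add_comm]
  neg_mem' := by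
    rintro _ ⟨γ, hγ, rfl⟩
    refine ⟨γ⁻¹, S.ker_inv hγ, ?_⟩
    have h1 : ∀ v, b γ⁻¹ v + b γ v = 0 := by
      intro v
      have h2 := S.hb γ γ⁻¹ v
      rw [mul_inv_cancel, S.b_one, (S.ker_inv hγ).1, Matrix.one_mulVec] at h2
      exact h2.symm
    have h3 : a γ⁻¹ + a γ = 0 := by
      have h2 := S.ha γ γ⁻¹
      rw [mul_inv_cancel, S.a_one, (S.ker_inv hγ).2, map_zero, add_zero] at h2
      exact h2.symm
    refine Prod.ext ?_ ?_
    · apply LinearMap.ext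
      intro v
      show -(b γ v) = b γ⁻¹ v
      exact (eq_neg_of_add_eq_zero_left (h1 v)).symm
    · show -(a γ) = a γ⁻¹
      exact (eq_neg_of_add_eq_zero_left h3).symm

/-- the span -/
def Sk.KK (S : Sk D d b a Ω) : Submodule ℝ ((V2 →ₗ[ℝ] W) × W) := Submodule.span ℝ (S.Lam : Set _)

/-- evaluation -/
def ev (W : Type) [NormedAddCommGroup W] [NormedSpace ℝ W] (v : V2) :
    ((V2 →ₗ[ℝ] W) × W) →ₗ[ℝ] W where
  toFun p := p.1 v + p.2
  map_add' p q := by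
    show p.1 v + q.1 v + (p.2 + q.2) = p.1 v + p.2 + (q.1 v + q.2)
    abel
  map_smul' c p := by
    show c • p.1 v + c • p.2 = c • (p.1 v + p.2)
    rw [smul_add]

theorem ev_apply (v : V2) (p : (V2 →ₗ[ℝ] W) × W) : ev W v p = p.1 v + p.2 := rfl

theorem ev_ext {p : (V2 →ₗ[ℝ] W) × W} (h : ∀ v, ev W v p = 0) : p = 0 := by
  have h2 : p.2 = 0 := by
    have := h 0
    rw [ev_apply, map_zero, zero_add] at this
    exact this
  refine Prod.ext ?_ h2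
  apply LinearMap.ext
  intro v
  have := h v
  rw [ev_apply, h2, add_zero] at this
  exact this

/-- evaluation is injective on the span -/
theorem Sk.ev_inj (S : Sk D d b a Ω) {v : V2} (hv : v ∈ Ω) {φ : (V2 →ₗ[ℝ] W) × W} (hφ : φ ∈ S.KK)
    (h0 : ev W v φ = 0) : φ = 0 := by
  obtain ⟨n, r, g, hg⟩ := Submodule.mem_span_set'.1 hφ
  obtain ⟨B, hB⟩ : ∃ B : ℝ, B = ∑ i, ‖ev W v (g i : (V2 →ₗ[ℝ] W) × W)‖ := ⟨_, rfl⟩
  -- the integral combinations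
  let lam : ℕ → (V2 →ₗ[ℝ] W) × W := fun q => ∑ i, ⌊(q : ℝ) * r i⌋ • (g i : (V2 →ₗ[ℝ] W) × W)
  have hlam : ∀ q, lam q ∈ S.Lam := fun q =>
    S.Lam.sum_mem fun i _ => S.Lam.zsmul_mem (g i).2 _
  have hdiff : ∀ (q : ℕ) (v' : V2), ‖(q : ℝ) • ev W v' φ - ev W v' (lam q)‖ ≤
      ∑ i, ‖ev W v' (g i : (V2 →ₗ[ℝ] W) × W)‖ := by
    intro q v'
    have e1 : (q : ℝ) • ev W v' φ - ev W v' (lam q) =
        ∑ i, ((q : ℝ) * r i - ⌊(q : ℝ) * r i⌋) • ev W v' (g i : (V2 →ₗ[ℝ] W) × W) := by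
      rw [← hg, map_sum, map_sum, Finset.smul_sum, ← Finset.sum_sub_distrib]
      refine Finset.sum_congr rfl fun i _ => ?_
      rw [map_smul, map_zsmul, smul_smul, sub_smul, Int.cast_smul_eq_zsmul]
    rw [e1]
    refine (norm_sum_le _ _).trans (Finset.sum_le_sum fun i _ => ?_)
    rw [norm_smul, Real.norm_eq_abs]
    have h1 : |(q : ℝ) * r i - ⌊(q : ℝ) * r i⌋| ≤ 1 := by
      rw [abs_le]
      have := Int.floor_le ((q : ℝ) * r i)
      have := Int.lt_floor_add_one ((q : ℝ) * r i)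
      constructor <;> linarith
    calc _ ≤ 1 * ‖ev W v' (g i : (V2 →ₗ[ℝ] W) × W)‖ := by gcongr
      _ = _ := one_mul _
  -- finiteness
  have hfin : {p : (V2 →ₗ[ℝ] W) × W | p ∈ S.Lam ∧ ‖ev W v p‖ ≤ B}.Finite := by
    refine ((S.pd {v} isCompact_singleton (singleton_subset_iff.2 hv) B).image
      fun γ => (b γ, a γ)).subset ?_
    rintro _ ⟨⟨γ, hγ, rfl⟩, hp⟩
    refine ⟨γ, ⟨v, rfl, ?_, hp⟩, rfl⟩
    rw [hγ.1, hγ.2, Matrix.one_mulVec, add_zero]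
    rfl
  have hmem : ∀ q, lam q ∈ {p : (V2 →ₗ[ℝ] W) × W | p ∈ S.Lam ∧ ‖ev W v p‖ ≤ B} := by
    intro q
    refine ⟨hlam q, ?_⟩
    have := hdiff q v
    rw [h0, smul_zero, zero_sub, norm_neg] at this
    rw [hB]
    exact this
  apply ev_ext
  intro v'
  obtain ⟨C, hC⟩ := (hfin.image fun p => ‖ev W v' p‖).bddAbove
  have h2 : ∀ q : ℕ, (q : ℝ) * ‖ev W v' φ‖ ≤
      C + ∑ i, ‖ev W v' (g i : (V2 →ₗ[ℝ] W) × W)‖ := by
    intro q
    have h3 := hC ⟨lam q, hmem q, rfl⟩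
    have h4 := hdiff q v'
    have h5 : ‖(q : ℝ) • ev W v' φ‖ ≤ ‖ev W v' (lam q)‖ +
        ‖(q : ℝ) • ev W v' φ - ev W v' (lam q)‖ := by
      have e : (q : ℝ) • ev W v' φ = ev W v' (lam q) +
        ((q : ℝ) • ev W v' φ - ev W v' (lam q)) := by abel
      calc _ = ‖ev W v' (lam q) + ((q : ℝ) • ev W v' φ - ev W v' (lam q))‖ := by rw [← e]
        _ ≤ _ := norm_add_le _ _
    rw [norm_smul, Real.norm_natCast] at h5
    exact h5.trans (add_le_add h3 h4)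
  by_contra hne
  have hpos : 0 < ‖ev W v' φ‖ := norm_pos_iff.2 hne
  obtain ⟨q, hq⟩ := exists_nat_gt ((C + ∑ i, ‖ev W v' (g i : (V2 →ₗ[ℝ] W) × W)‖) / ‖ev W v' φ‖)
  rw [div_lt_iff₀ hpos] at hq
  exact absurd (h2 q) (not_le.2 hq)

/-- composition with the affine maps -/
noncomputable def cmp (A : M2) (x : V2) : ((V2 →ₗ[ℝ] W) × W) →ₗ[ℝ] ((V2 →ₗ[ℝ] W) × W) where
  toFun p := (p.1 ∘ₗ Matrix.toLin' A, p.1 x + p.2)
  map_add' p q := by
    refine Prod.ext ?_ ?_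
    · rfl
    · show p.1 x + q.1 x + (p.2 + q.2) = p.1 x + p.2 + (q.1 x + q.2)
      abel
  map_smul' c p := by
    refine Prod.ext ?_ ?_
    · rfl
    · show c • p.1 x + c • p.2 = c • (p.1 x + p.2)
      rw [smul_add]

theorem cmp_apply (A : M2) (x : V2) (p : (V2 →ₗ[ℝ] W) × W) :
    cmp A x p = (p.1 ∘ₗ Matrix.toLin' A, p.1 x + p.2) := rfl

theorem Sk.kk_inv (S : Sk D d b a Ω) (γ : H) {φ : (V2 →ₗ[ℝ] W) × W} (hφ : φ ∈ S.KK) :
    cmp (D γ) (d γ) φ ∈ S.KK := by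
  have h1 : S.KK ≤ S.KK.comap (cmp (D γ) (d γ)) := by
    refine Submodule.span_le.2 ?_
    rintro _ ⟨δ, hδ, rfl⟩
    refine Submodule.subset_span ?_
    refine ⟨γ⁻¹ * δ * γ, ⟨?_, ?_⟩, ?_⟩
    · rw [map_mul, map_mul, hδ.1, mul_one, D_inv']
    · rw [S.hd, S.hd, map_mul, hδ.1, hδ.2, mul_one, Matrix.mulVec_zero, zero_add]
      exact d_inv' S.hd γ
    · have hb1 : ∀ v, b γ⁻¹ (D γ *ᵥ v) + b γ v = 0 := by
        intro v
        have := S.hb γ⁻¹ γ v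
        rw [inv_mul_cancel, S.b_one] at this
        rw [add_comm]
        exact this.symm
      have ha1 : a γ + b γ⁻¹ (d γ) + a γ⁻¹ = 0 := by
        have := S.ha γ⁻¹ γ
        rw [inv_mul_cancel, S.a_one] at this
        exact this.symm
      rw [cmp_apply]
      refine Prod.ext ?_ ?_
      · apply LinearMap.ext
        intro v
        show b δ (D γ *ᵥ v) = b (γ⁻¹ * δ * γ) v
        rw [S.hb, S.hb, hδ.1, Matrix.one_mulVec]
        have := hb1 v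
        calc b δ (D γ *ᵥ v) = b δ (D γ *ᵥ v) + 0 := by rw [add_zero]
          _ = _ := by rw [← this]; abel
      · show b δ (d γ) + a δ = a (γ⁻¹ * δ * γ)
        rw [S.ha, S.hb, S.ha, hδ.1, hδ.2, Matrix.one_mulVec, map_zero, add_zero]
        calc b δ (d γ) + a δ = b δ (d γ) + a δ + 0 := by rw [add_zero]
          _ = _ := by rw [← ha1]; abel
  exact h1 hφ

/-- the ideal -/
noncomputable def Sk.NN (S : Sk D d b a Ω) : Submodule ℝ M2 where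
  carrier := {X | ∀ φ ∈ S.KK, ∃ u : V2, ((φ.1 ∘ₗ Matrix.toLin' X, φ.1 u) : (V2 →ₗ[ℝ] W) × W) ∈ S.KK}
  zero_mem' := by
    intro φ hφ
    refine ⟨0, ?_⟩
    have : ((φ.1 ∘ₗ Matrix.toLin' 0, φ.1 0) : (V2 →ₗ[ℝ] W) × W) = 0 := by
      rw [map_zero, map_zero, LinearMap.comp_zero]
      rfl
    rw [this]
    exact Submodule.zero_mem _
  add_mem' := by
    intro X Y hX hY φ hφ
    obtain ⟨u, hu⟩ := hX φ hφ
    obtain ⟨u', hu'⟩ := hY φ hφ
    refine ⟨u + u', ?_⟩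
    have : ((φ.1 ∘ₗ Matrix.toLin' (X + Y), φ.1 (u + u')) : (V2 →ₗ[ℝ] W) × W) =
        (φ.1 ∘ₗ Matrix.toLin' X, φ.1 u) + (φ.1 ∘ₗ Matrix.toLin' Y, φ.1 u') := by
      rw [map_add, map_add, LinearMap.comp_add]
      rfl
    rw [this]
    exact Submodule.add_mem _ hu hu'
  smul_mem' := by
    intro c X hX φ hφ
    obtain ⟨u, hu⟩ := hX φ hφ
    refine ⟨c • u, ?_⟩
    have : ((φ.1 ∘ₗ Matrix.toLin' (c • X), φ.1 (c • u)) : (V2 →ₗ[ℝ] W) × W) =
        c • ((φ.1 ∘ₗ Matrix.toLin' X, φ.1 u) : (V2 →ₗ[ℝ] W) × W) := by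
      rw [map_smul, map_smul, LinearMap.comp_smul]
      rfl
    rw [this]
    exact Submodule.smul_mem _ c hu

theorem Sk.nn_top (S : Sk D d b a Ω) (hD : Wild D) : S.NN = ⊤ := by
  obtain ⟨P, γ, c, hP0, hPd, hc, hlim⟩ := exists_lim hD
  refine ideal_top hD S.NN (fun δ X hX φ hφ => ?_) (fun δ X hX φ hφ => ?_) (P := P) ?_ hP0 hPd
  · obtain ⟨u, hu⟩ := hX _ (S.kk_inv δ hφ)
    refine ⟨D δ *ᵥ u, ?_⟩
    have e : ((φ.1 ∘ₗ Matrix.toLin' (D δ * X), φ.1 (D δ *ᵥ u)) : (V2 →ₗ[ℝ] W) × W) =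
        ((cmp (D δ) (d δ) φ).1 ∘ₗ Matrix.toLin' X, (cmp (D δ) (d δ) φ).1 u) := by
      rw [cmp_apply]
      refine Prod.ext ?_ rfl
      show φ.1 ∘ₗ Matrix.toLin' (D δ * X) = (φ.1 ∘ₗ Matrix.toLin' (D δ)) ∘ₗ Matrix.toLin' X
      rw [Matrix.toLin'_mul, LinearMap.comp_assoc]
    rw [e]
    exact hu
  · obtain ⟨u, hu⟩ := hX _ hφ
    have h1 := S.kk_inv δ hu
    refine ⟨X *ᵥ d δ + u, ?_⟩
    have e : ((φ.1 ∘ₗ Matrix.toLin' (X * D δ), φ.1 (X *ᵥ d δ + u)) : (V2 →ₗ[ℝ] W) × W) =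
        cmp (D δ) (d δ) (φ.1 ∘ₗ Matrix.toLin' X, φ.1 u) := by
      rw [cmp_apply]
      refine Prod.ext ?_ ?_
      · show φ.1 ∘ₗ Matrix.toLin' (X * D δ) = (φ.1 ∘ₗ Matrix.toLin' X) ∘ₗ Matrix.toLin' (D δ)
        rw [Matrix.toLin'_mul, LinearMap.comp_assoc]
      · show φ.1 (X *ᵥ d δ + u) = φ.1 (X *ᵥ d δ) + φ.1 u
        rw [map_add]
    rw [e]
    exact h1
  · intro φ hφ
    -- the space with the constants
    let R : Submodule ℝ ((V2 →ₗ[ℝ] W) × W) := S.KK ⊔ (LinearMap.range φ.1).map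
      (LinearMap.inr ℝ (V2 →ₗ[ℝ] W) W)
    let Ψ : (M2 × ℝ) →ₗ[ℝ] ((V2 →ₗ[ℝ] W) × W) :=
      { toFun := fun p => (φ.1 ∘ₗ Matrix.toLin' p.1, p.2 • φ.2)
        map_add' := by
          intro p q
          refine Prod.ext ?_ ?_
          · show φ.1 ∘ₗ Matrix.toLin' (p.1 + q.1) = φ.1 ∘ₗ Matrix.toLin' p.1 + φ.1 ∘ₗ Matrix.toLin' q.1
            rw [map_add, LinearMap.comp_add]
          · show (p.2 + q.2) • φ.2 = p.2 • φ.2 + q.2 • φ.2
            rw [add_smul]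
        map_smul' := by
          intro c p
          refine Prod.ext ?_ ?_
          · show φ.1 ∘ₗ Matrix.toLin' (c • p.1) = c • (φ.1 ∘ₗ Matrix.toLin' p.1)
            rw [map_smul, LinearMap.comp_smul]
          · show (c * p.2) • φ.2 = c • p.2 • φ.2
            rw [mul_smul] }
    have hcl : IsClosed ((R.comap Ψ : Submodule ℝ (M2 × ℝ)) : Set (M2 × ℝ)) := sub_closed _
    have hlim2 : Tendsto (fun n => ((c n • D (γ n), c n) : M2 × ℝ)) atTop (𝓝 (P, 0)) :=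
      hlim.prodMk_nhds hc
    have hmem : ∀ n, ((c n • D (γ n), c n) : M2 × ℝ) ∈ R.comap Ψ := by
      intro n
      show ((φ.1 ∘ₗ Matrix.toLin' (c n • D (γ n)), c n • φ.2) : (V2 →ₗ[ℝ] W) × W) ∈ R
      have e : ((φ.1 ∘ₗ Matrix.toLin' (c n • D (γ n)), c n • φ.2) : (V2 →ₗ[ℝ] W) × W) =
          c n • cmp (D (γ n)) (d (γ n)) φ +
            LinearMap.inr ℝ (V2 →ₗ[ℝ] W) W (φ.1 (-(c n • d (γ n)))) := by
        rw [cmp_apply]
        refine Prod.ext ?_ ?_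
        · show φ.1 ∘ₗ Matrix.toLin' (c n • D (γ n)) = c n • (φ.1 ∘ₗ Matrix.toLin' (D (γ n))) + 0
          rw [map_smul, LinearMap.comp_smul, add_zero]
        · show c n • φ.2 = c n • (φ.1 (d (γ n)) + φ.2) + φ.1 (-(c n • d (γ n)))
          rw [map_neg, map_smul, smul_add]
          abel
      rw [e]
      exact Submodule.add_mem_sup (Submodule.smul_mem _ _ (S.kk_inv _ hφ))
        ⟨_, ⟨_, rfl⟩, rfl⟩
    have h1 : ((P, 0) : M2 × ℝ) ∈ R.comap Ψ :=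
      hcl.mem_of_tendsto hlim2 (Eventually.of_forall hmem)
    have h2 : ((φ.1 ∘ₗ Matrix.toLin' P, (0 : ℝ) • φ.2) : (V2 →ₗ[ℝ] W) × W) ∈ R := h1
    obtain ⟨y, hy, z, hz, hyz⟩ := Submodule.mem_sup.1 h2
    obtain ⟨_, ⟨u, rfl⟩, rfl⟩ := hz
    refine ⟨-u, ?_⟩
    have h3 : ((φ.1 ∘ₗ Matrix.toLin' P, φ.1 (-u)) : (V2 →ₗ[ℝ] W) × W) = y := by
      have h4 : y = ((φ.1 ∘ₗ Matrix.toLin' P, (0 : ℝ) • φ.2) : (V2 →ₗ[ℝ] W) × W) -
        LinearMap.inr ℝ (V2 →ₗ[ℝ] W) W (φ.1 u) := by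
        rw [← hyz]; abel
      rw [h4]
      refine Prod.ext ?_ ?_
      · show φ.1 ∘ₗ Matrix.toLin' P = φ.1 ∘ₗ Matrix.toLin' P - 0
        rw [sub_zero]
      · show φ.1 (-u) = (0 : ℝ) • φ.2 - φ.1 u
        rw [zero_smul, map_neg, zero_sub]
    rw [h3]
    exact hy

/-- **The kernel acts by translations.** -/
theorem Sk.ker_b (S : Sk D d b a Ω) (hD : Wild D) {φ : (V2 →ₗ[ℝ] W) × W} (hφ : φ ∈ S.KK) :
    φ.1 = 0 := by
  by_contra hne
  obtain ⟨x, hx⟩ : ∃ x, φ.1 x ≠ 0 := by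
    by_contra h
    push Not at h
    exact hne (LinearMap.ext h)
  have htop := S.nn_top hD
  have hall : ∀ X : M2, X ∈ S.NN := fun X => by rw [htop]; trivial
  obtain ⟨w, hw⟩ : ∃ w, w = φ.1 x := ⟨_, rfl⟩
  rw [← hw] at hx
  obtain ⟨u, hu⟩ := hall (r1 x ![1, 0]) φ hφ
  -- the second step
  have hstep : ∀ y : V2, ∃ s : ℝ, ∃ ψ ∈ S.KK, (∀ v, ev W v ψ = (y 0 * v 0 + y 1 * v 1 + s) • w) := by
    intro y
    obtain ⟨u', hu'⟩ := hall (r1 ![1, 0] y) _ hu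
    refine ⟨u' 0, _, hu', fun v => ?_⟩
    rw [ev_apply]
    show φ.1 (r1 x ![1, 0] *ᵥ (r1 ![1, 0] y *ᵥ v)) + φ.1 (r1 x ![1, 0] *ᵥ u') = _
    have e1 : ∀ z : V2, r1 x ![1, 0] *ᵥ z = z 0 • x := by
      intro z
      apply v2ext
      · rw [mv0]; simp [r1]; ring
      · rw [mv1]; simp [r1]; ring
    have e2 : (r1 ![1, 0] y *ᵥ v) 0 = y 0 * v 0 + y 1 * v 1 := by
      rw [mv0]; simp [r1]
    rw [e1, e1, e2, map_smul, map_smul, ← hw, ← add_smul]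
  obtain ⟨s0, ψ0, h0, e0⟩ := hstep ![1, 0]
  obtain ⟨s1, ψ1, h1, e1⟩ := hstep ![0, 1]
  obtain ⟨v, hv⟩ := S.con.nonempty
  by_cases ht : v 0 + s0 = 0
  · have h2 : ev W v ψ0 = 0 := by
      rw [e0]
      have : (![1, 0] : V2) 0 * v 0 + (![1, 0] : V2) 1 * v 1 + s0 = 0 := by
        simp; linarith
      rw [this, zero_smul]
    have h3 := S.ev_inj hv h0 h2
    have h4 := e0 (v + ![1, 0])
    rw [h3, map_zero] at h4
    have h5 : (![1, 0] : V2) 0 * (v + ![1, 0] : V2) 0 + (![1, 0] : V2) 1 * (v + ![1, 0] : V2) 1 +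
        s0 = 1 := by
      simp; linarith
    rw [h5, one_smul] at h4
    exact hx h4.symm
  · have hmem : (v 1 + s1) • ψ0 - (v 0 + s0) • ψ1 ∈ S.KK :=
      Submodule.sub_mem _ (Submodule.smul_mem _ _ h0) (Submodule.smul_mem _ _ h1)
    have h2 : ev W v ((v 1 + s1) • ψ0 - (v 0 + s0) • ψ1) = 0 := by
      rw [map_sub, map_smul, map_smul, e0, e1, smul_smul, smul_smul, ← sub_smul]
      have : (v 1 + s1) * ((![1, 0] : V2) 0 * v 0 + (![1, 0] : V2) 1 * v 1 + s0) -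
          (v 0 + s0) * ((![0, 1] : V2) 0 * v 0 + (![0, 1] : V2) 1 * v 1 + s1) = 0 := by
        simp; ring
      rw [this, zero_smul]
    have h3 := S.ev_inj hv hmem h2
    have h4 : ev W (v + ![0, 1]) ((v 1 + s1) • ψ0 - (v 0 + s0) • ψ1) = -(v 0 + s0) • w := by
      rw [map_sub, map_smul, map_smul, e0, e1, smul_smul, smul_smul, ← sub_smul]
      congr 1
      simp; ring
    rw [h3, map_zero] at h4
    exact (smul_ne_zero (neg_ne_zero.2 ht) hx) h4.symm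

theorem Sk.b_ker (S : Sk D d b a Ω) (hD : Wild D) {γ : H} (hγ : Ker D d γ) (v : V2) : b γ v = 0 := by
  have h1 : ((b γ, a γ) : (V2 →ₗ[ℝ] W) × W) ∈ S.KK := Submodule.subset_span ⟨γ, hγ, rfl⟩
  have h2 := S.ker_b hD h1
  have h3 : b γ = 0 := h2
  rw [h3]; rfl

end

end Pool.Agent.Helper63.Mk
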