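import Pool.Agent.Helper63.Mk.Pl

/-!
Project Mk (helper63): limits of the directions of a wild group.
-/

set_option autoImplicit false

open Set Filter Topology
open scoped Matrix

namespace Pool.Agent.Helper63.Mk

section
variable {H : Type} [Group H] {D : H →* M2}

theorem det_cont : Continuous fun A : M2 => A.det := by
  simp only [Matrix.det_fin_two]
  fun_prop

theorem exists_lim (hD : Wild D) : ∃ (P : M2) (γ : ℕ → H) (c : ℕ → ℝ), P ≠ 0 ∧ P.det = 0 ∧
    Tendsto c atTop (𝓝 0) ∧ Tendsto (fun n => c n • D (γ n)) atTop (𝓝 P) := by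
  choose g i j hg using fun n : ℕ => hD.unb (n : ℝ)
  let f : M2 → (Fin 2 → Fin 2 → ℝ) := fun A i j => A i j
  let m : ℕ → ℝ := fun n => ‖f (D (g n))‖
  have hm : ∀ n : ℕ, (n : ℝ) < m n := by
    intro n
    refine (hg n).trans_le ?_
    have h1 := norm_le_pi_norm (f (D (g n))) (i n)
    have h2 := norm_le_pi_norm (f (D (g n)) (i n)) (j n)
    exact (Real.norm_eq_abs _).symm.le.trans (h2.trans h1)
  have hm0 : ∀ n, 0 < m n := fun n => (Nat.cast_nonneg n).trans_lt (hm n)
  have hmem : ∀ n, (m n)⁻¹ • f (D (g n)) ∈ Metric.sphere (0 : Fin 2 → Fin 2 → ℝ) 1 := by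
    intro n
    rw [mem_sphere_zero_iff_norm, norm_smul, norm_inv, Real.norm_eq_abs, abs_of_pos (hm0 n)]
    exact inv_mul_cancel₀ (hm0 n).ne'
  obtain ⟨P, hP, φ, hφ, hlim⟩ := (isCompact_sphere (0 : Fin 2 → Fin 2 → ℝ) 1).tendsto_subseq hmem
  have hmt : Tendsto (fun n => m (φ n)) atTop atTop := by
    refine tendsto_atTop_mono (fun n => (hm (φ n)).le) ?_
    exact tendsto_natCast_atTop_atTop.comp hφ.tendsto_atTop
  have hc : Tendsto (fun n => (m (φ n))⁻¹) atTop (𝓝 0) := tendsto_inv_atTop_zero.comp hmt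
  have hlim' : Tendsto (fun n => (m (φ n))⁻¹ • D (g (φ n))) atTop (𝓝 (Matrix.of P)) := hlim
  refine ⟨Matrix.of P, fun n => g (φ n), fun n => (m (φ n))⁻¹, ?_, ?_, hc, hlim'⟩
  · rintro h
    have h1 := mem_sphere_zero_iff_norm.1 hP
    have h2 : (P : Fin 2 → Fin 2 → ℝ) = 0 := by
      funext a b
      exact congrFun (congrFun h a) b
    rw [h2, norm_zero] at h1
    exact zero_ne_one h1
  · have h1 := (det_cont.tendsto (Matrix.of P)).comp hlim'
    have h2 : Tendsto (fun n => ((m (φ n))⁻¹ • D (g (φ n))).det) atTop (𝓝 0) := by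
      have h3 : Tendsto (fun n => (m (φ n))⁻¹ ^ 2) atTop (𝓝 0) := by
        have := hc.pow 2
        simpa using this
      refine squeeze_zero_norm (fun n => ?_) h3
      rw [Matrix.det_smul, Fintype.card_fin, norm_mul, Real.norm_eq_abs, Real.norm_eq_abs, hD.det,
        mul_one, abs_of_nonneg (by positivity)]
    exact tendsto_nhds_unique h1 h2

end

end Pool.Agent.Helper63.Mk
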