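import Pool.Agent.Helper63.Mk.Red

/-!
Project Mk (helper63): the model of a domain quotient with parallel vector fields.
-/

set_option autoImplicit false

open Set Filter Topology
open scoped Matrix
open Pool.Agent.W689.Mk Pool.Agent.Y449.MK Pool.Agent.TH94.MK

namespace Pool.Agent.Helper63.Mk

section
variable {X H E : Type} [NormedAddCommGroup E] [NormedSpace ℝ E] [FiniteDimensional ℝ E]
  [TopologicalSpace X] [T2Space X] [Group H] [MulAction H X]
  {dev : X → E} {hol : H →* (E ≃ᵃ[ℝ] E)} {W : Submodule ℝ E} {e : E ≃ₗ[ℝ] (W × V2)}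

/-- the domain is invariant under the translations by `W` -/
theorem range_sat [SecondCountableTopology X] (A : AffData X H E dev hol) (C : Cd hol W e) (w : E)
    (hw : w ∈ W) (q : E) (hq : q ∈ range dev) : q + w ∈ range dev := by
  obtain ⟨x, rfl⟩ := hq
  have h := Pool.Agent.TH569.MK.chain_complete A (fun i => if i = 0 then ⊥ else W) 1
    (fun x v hv => by
      have hv0 : v = 0 := by simpa using hv
      rw [hv0]
      exact ⟨x, Pool.Agent.TH569.MK.ex_zero A.loc x⟩)
    (fun i hi => by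
      have hi0 : i = 0 := by omega
      subst hi0
      refine ⟨1, fun γ v hv => ⟨0, Submodule.zero_mem _, ?_⟩⟩
      have hv0 : v ∈ W := by simpa using hv
      rw [sub_zero, one_mul]
      show ‖(hol γ).linear v‖ ≤ ‖v‖
      rw [C.fix γ v hv0])
  obtain ⟨y, hy⟩ := h x w (by simpa using hw)
  exact ⟨y, hy.dev_eq⟩

theorem Cd.symm_eq (C : Cd hol W e) (w : W) (v : V2) : e.symm (w, v) = e.symm (0, v) + w := by
  rw [← C.sym w, ← map_add]
  simp

/-- the domain in the plane -/
def Dom (dev : X → E) (e : E ≃ₗ[ℝ] (W × V2)) : Set V2 := {v | e.symm (0, v) ∈ range dev}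

theorem mem_dom [SecondCountableTopology X] (A : AffData X H E dev hol) (C : Cd hol W e) (w : W)
    (v : V2) : e.symm (w, v) ∈ range dev ↔ v ∈ Dom dev e := by
  constructor
  · intro h
    have h1 := range_sat A C (-(w : E)) (W.neg_mem w.2) _ h
    rw [C.symm_eq, add_neg_cancel_right] at h1
    exact h1
  · intro h
    rw [C.symm_eq]
    exact range_sat A C w w.2 _ h

theorem snd_mem [SecondCountableTopology X] (A : AffData X H E dev hol) (C : Cd hol W e) {x : E}
    (hx : x ∈ range dev) : (e x).2 ∈ Dom dev e := by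
  rw [← mem_dom A C (e x).1]
  simpa using hx

/-- the model -/
theorem model [SecondCountableTopology X] [ConnectedSpace X] (A : AffData X H E dev hol)
    (hinj : Function.Injective dev) (C : Cd hol W e) :
    Sk C.D (fun γ => (e (hol γ 0)).2) (cb hol e) (fun γ => (e (hol γ 0)).1) (Dom dev e) := by
  have hcont : Continuous e := LinearMap.continuous_of_finiteDimensional (e : E →ₗ[ℝ] (W × V2))
  have hcont' : Continuous e.symm :=
    LinearMap.continuous_of_finiteDimensional (e.symm : (W × V2) →ₗ[ℝ] E)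
  have hopen : IsOpen (range dev) := A.loc.isOpenMap.isOpen_range
  have heq : ∀ γ v, e (hol γ (e.symm (0, v))) =
      (cb hol e γ v + (e (hol γ 0)).1, C.D γ *ᵥ v + (e (hol γ 0)).2) := by
    intro γ v
    rw [C.eq, C.D_mulVec]
    simp
  refine ⟨?_, ?_, ?_, ?_, ?_, ?_, ?_, ?_⟩
  · intro γ δ
    show (e (hol (γ * δ) 0)).2 = _
    rw [C.tr_mul, C.D_mulVec]
  · intro γ δ v
    rw [C.cb_mul, C.D_mulVec]
  · intro γ δ
    show (e (hol (γ * δ) 0)).1 = _
    rw [C.tr_mul]
    show (e (hol δ 0)).1 + (cb hol e γ (e (hol δ 0)).2 + (e (hol γ 0)).1) = _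
    rw [add_assoc]
  · exact hopen.preimage (hcont'.comp (by fun_prop : Continuous fun v : V2 => ((0 : W), v)))
  · have h1 : Dom dev e = (fun x => (e x).2) '' range dev := by
      ext v
      constructor
      · intro hv
        exact ⟨_, hv, by simp⟩
      · rintro ⟨x, hx, rfl⟩
        exact snd_mem A C hx
    rw [h1]
    exact (isConnected_range A.loc.continuous).image _ (continuous_snd.comp hcont).continuousOn
  · intro γ v hv
    have h1 := snd_mem A C (range_inv A γ _ hv)
    rw [heq] at h1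
    exact h1
  · intro K hK hKΩ B
    have hC : IsCompact (e.symm '' (Metric.closedBall (0 : W) |B| ×ˢ K)) :=
      ((isCompact_closedBall _ _).prod hK).image hcont'
    refine (range_pd A hinj _ hC ?_).subset ?_
    · rintro _ ⟨⟨w, v⟩, ⟨-, hv⟩, rfl⟩
      exact (mem_dom A C w v).2 (hKΩ hv)
    · rintro γ ⟨v, hv, hv', hB⟩
      refine ⟨e.symm (0, v), ⟨(0, v), ⟨by simp, hv⟩, rfl⟩, ?_⟩
      refine ⟨(cb hol e γ v + (e (hol γ 0)).1, C.D γ *ᵥ v + (e (hol γ 0)).2), ⟨?_, hv'⟩, ?_⟩
      · show _ ∈ Metric.closedBall (0 : W) |B|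
        rw [mem_closedBall_zero_iff]
        exact hB.trans (le_abs_self B)
      · rw [← heq, e.symm_apply_apply]
  · obtain ⟨C0, hC0, hC0r, hcc⟩ := range_cc A
    obtain ⟨B, hB⟩ := (hC0.image (continuous_fst.comp hcont)).isBounded.exists_norm_le
    refine ⟨(fun x => (e x).2) '' C0, hC0.image (continuous_snd.comp hcont), ?_, B, ?_⟩
    · rintro _ ⟨x, hx, rfl⟩
      exact snd_mem A C (hC0r hx)
    · intro v hv w
      obtain ⟨γ, c, hc, h1⟩ := hcc (e.symm (w, v)) ((mem_dom A C w v).2 hv)
      have h2 : hol γ⁻¹ (e.symm (w, v)) = c := by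
        rw [← h1]
        show hol γ⁻¹ (hol γ c) = c
        have h3 : hol γ⁻¹ (hol γ c) = hol (γ⁻¹ * γ) c := by
          rw [map_mul]; rfl
        rw [h3, inv_mul_cancel, map_one]
        rfl
      have h3 := C.eq γ⁻¹ (w, v)
      rw [h2] at h3
      refine ⟨γ⁻¹, ⟨c, hc, ?_⟩, ?_⟩
      · show (e c).2 = _
        rw [h3, C.D_mulVec]
      · have h4 := hB (e c).1 ⟨c, hc, rfl⟩
        rw [h3] at h4
        exact h4

omit [FiniteDimensional ℝ E] in
/-- subspaces of given dimension -/
theorem exists_sub [FiniteDimensional ℝ E] (W : Submodule ℝ E) {k : ℕ}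
    (hk : k ≤ Module.finrank ℝ W) : ∃ W' : Submodule ℝ E, W' ≤ W ∧ Module.finrank ℝ W' = k := by
  let b := Module.finBasis ℝ W
  let v : Fin k → E := fun i => (b (Fin.castLE hk i) : E)
  have h1 : LinearIndependent ℝ v := by
    have h2 : LinearIndependent ℝ fun i => (b i : E) :=
      b.linearIndependent.map' W.subtype W.ker_subtype
    exact h2.comp _ (Fin.castLE_injective hk)
  refine ⟨Submodule.span ℝ (range v), ?_, ?_⟩
  · rw [Submodule.span_le]
    rintro _ ⟨i, rfl⟩
    exact (b _).2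
  · rw [finrank_span_eq_card h1, Fintype.card_fin]

/-- the wild case -/
theorem wild_complete [SecondCountableTopology X] [ConnectedSpace X] (A : AffData X H E dev hol)
    (hinj : Function.Injective dev) (C : Cd hol W e) (hD : Wild C.D) : IsHomeomorph dev := by
  have h := (model A hinj C).complete hD
  refine ⟨A.loc.continuous, A.loc.isOpenMap, hinj, fun x => ?_⟩
  have h1 : (e x).2 ∈ Dom dev e := by rw [h]; exact mem_univ _
  rw [← mem_dom A C (e x).1] at h1
  simpa using h1

/-- the case of codimension two -/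
theorem codim_two [SecondCountableTopology X] [ConnectedSpace X] (A : AffData X H E dev hol)
    (hinj : Function.Injective dev) (W : Submodule ℝ E)
    (hfix : ∀ γ, ∀ w ∈ W, (hol γ).linear w = w)
    (hW : Module.finrank ℝ E = Module.finrank ℝ W + 2) : IsHomeomorph dev := by
  obtain ⟨e, he⟩ := exists_coord W hW
  have C : Cd hol W e := ⟨he, hfix⟩
  have hdet := C.det A.unimod
  by_cases hline : ∀ K : Subgroup H, K.FiniteIndex → ∀ v : V2, v ≠ 0 →
      ∃ γ ∈ K, ∀ c : ℝ, C.D γ *ᵥ v ≠ c • v
  · by_cases hunb : ∀ R : ℝ, ∃ γ, ∃ i j, R < |C.D γ i j|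
    · exact wild_complete A hinj C ⟨hdet, hline, hunb⟩
    · push Not at hunb
      obtain ⟨R, hR⟩ := hunb
      exact (Pool.Agent.Results.MP_df2bd8_gt.QuasiConformalFlags.result X H E dev hol A hinj ⊤
        inferInstance _ 2 (C.flag_bdd hR)).1
  · push Not at hline
    obtain ⟨K, hK, v, hv, h⟩ := hline
    exact (Pool.Agent.Results.MP_df2bd8_gt.QuasiConformalFlags.result X H E dev hol A hinj K
      hK _ 3 (C.flag_line hdet K hv h)).1

/-- **Parallel vector fields.** -/
theorem pvf [SecondCountableTopology X] [ConnectedSpace X] (A : AffData X H E dev hol)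
    (hinj : Function.Injective dev) (K : Subgroup H) (hK : K.FiniteIndex) (W : Submodule ℝ E)
    (hfix : ∀ γ ∈ K, ∀ w ∈ W, (hol γ).linear w = w)
    (hW : Module.finrank ℝ E ≤ Module.finrank ℝ W + 2) : IsHomeomorph dev := by
  by_cases h2 : 2 ≤ Module.finrank ℝ E
  · obtain ⟨W', hW'W, hW'⟩ : ∃ W' : Submodule ℝ E, W' ≤ W ∧
        Module.finrank ℝ E = Module.finrank ℝ W' + 2 := by
      obtain ⟨W', h1, h3⟩ := exists_sub W (k := Module.finrank ℝ E - 2) (by omega)
      exact ⟨W', h1, by omega⟩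
    exact codim_two (restrict A K hK) hinj W' (fun γ w hw => hfix γ γ.2 w (hW'W hw)) hW'
  · have h1 : Module.finrank ℝ E ≤ 1 := by omega
    refine abelian_complete A hinj K hK fun γ hγ δ hδ v => ?_
    obtain ⟨v0, hv0⟩ := finrank_le_one_iff.1 h1
    obtain ⟨a, ha⟩ := hv0 ((hol γ).linear v0)
    obtain ⟨b, hb⟩ := hv0 ((hol δ).linear v0)
    obtain ⟨c, rfl⟩ := hv0 v
    rw [map_smul, map_smul, map_smul, map_smul, ← ha, ← hb, map_smul, map_smul, ← ha, ← hb,
      smul_comm a b]

end

end Pool.Agent.Helper63.Mk
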