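import Pool.Agent.Helper63.Mk.Lim
import Pool.Agent.Helper63.Mk.Kl

/-!
Project Mk (helper63): nondiscrete groups of affine transformations of the plane with wild linear
part.
-/

set_option autoImplicit false

open Set Filter Topology NormedSpace
open scoped Matrix

namespace Pool.Agent.Helper63.Mk

/-- the algebra which contains the affine group of the plane -/
abbrev AA := (V2 × ℝ) →L[ℝ] (V2 × ℝ)

/-- the elements of the affine group and its Lie algebra -/
noncomputable def aff (A : M2) (x : V2) (s : ℝ) : AA :=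
  ((LinearMap.toContinuousLinearMap (Matrix.toLin' A)).comp (ContinuousLinearMap.fst ℝ V2 ℝ) +
    (ContinuousLinearMap.snd ℝ V2 ℝ).smulRight x).prod (s • ContinuousLinearMap.snd ℝ V2 ℝ)

theorem aff_apply (A : M2) (x : V2) (s : ℝ) (p : V2 × ℝ) :
    aff A x s p = (A *ᵥ p.1 + p.2 • x, s * p.2) := by
  rfl

theorem aff_mul (A B : M2) (x y : V2) (s t : ℝ) :
    aff A x s * aff B y t = aff (A * B) (A *ᵥ y + t • x) (s * t) := by
  apply ContinuousLinearMap.ext
  intro p
  show aff A x s (aff B y t p) = _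
  rw [aff_apply, aff_apply, aff_apply, Matrix.mulVec_add, Matrix.mulVec_mulVec, Matrix.mulVec_smul]
  refine Prod.ext ?_ ?_
  · show (A * B) *ᵥ p.1 + p.2 • A *ᵥ y + (t * p.2) • x = (A * B) *ᵥ p.1 + p.2 • (A *ᵥ y + t • x)
    rw [smul_add, smul_smul, mul_comm t, add_assoc]
  · show s * (t * p.2) = s * t * p.2
    ring

theorem aff_add (A B : M2) (x y : V2) (s t : ℝ) :
    aff A x s + aff B y t = aff (A + B) (x + y) (s + t) := by
  apply ContinuousLinearMap.ext
  intro p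
  show aff A x s p + aff B y t p = _
  rw [aff_apply, aff_apply, aff_apply, Matrix.add_mulVec]
  refine Prod.ext ?_ ?_
  · show A *ᵥ p.1 + p.2 • x + (B *ᵥ p.1 + p.2 • y) = A *ᵥ p.1 + B *ᵥ p.1 + p.2 • (x + y)
    rw [smul_add]
    abel
  · show s * p.2 + t * p.2 = (s + t) * p.2
    ring

theorem aff_smul (c : ℝ) (A : M2) (x : V2) (s : ℝ) :
    c • aff A x s = aff (c • A) (c • x) (c * s) := by
  apply ContinuousLinearMap.ext
  intro p
  show c • aff A x s p = _
  rw [aff_apply, aff_apply, Matrix.smul_mulVec]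
  refine Prod.ext ?_ ?_
  · show c • (A *ᵥ p.1 + p.2 • x) = c • A *ᵥ p.1 + p.2 • c • x
    rw [smul_add, smul_comm c]
  · show c * (s * p.2) = c * s * p.2
    ring

theorem aff_one : aff 1 0 1 = 1 := by
  apply ContinuousLinearMap.ext
  intro p
  rw [aff_apply, Matrix.one_mulVec, smul_zero, add_zero, one_mul]
  rfl

theorem aff_zero : aff 0 0 0 = 0 := by
  apply ContinuousLinearMap.ext
  intro p
  rw [aff_apply, Matrix.zero_mulVec, smul_zero, add_zero, zero_mul]
  rfl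

/-- the linear part -/
noncomputable def lin (T : AA) : M2 := Matrix.of fun i j => (T (Pi.single j 1, 0)).1 i

/-- the translation part -/
noncomputable def tra (T : AA) : V2 := (T (0, 1)).1

theorem lin_aff (A : M2) (x : V2) (s : ℝ) : lin (aff A x s) = A := by
  ext i j
  show (aff A x s (Pi.single j 1, 0)).1 i = A i j
  rw [aff_apply]
  show (A *ᵥ Pi.single j 1 + (0 : ℝ) • x) i = A i j
  rw [zero_smul, add_zero, Matrix.mulVec_single_one]
  rfl

theorem tra_aff (A : M2) (x : V2) (s : ℝ) : tra (aff A x s) = x := by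
  show (aff A x s (0, 1)).1 = x
  rw [aff_apply]
  show A *ᵥ 0 + (1 : ℝ) • x = x
  rw [Matrix.mulVec_zero, zero_add, one_smul]

theorem lin_cont : Continuous lin := by
  refine continuous_matrix fun i j => ?_
  show Continuous fun T : AA => (T (Pi.single j 1, 0)).1 i
  fun_prop

theorem tra_cont : Continuous tra := by
  show Continuous fun T : AA => (T (0, 1)).1
  fun_prop

/-- the affine elements as a linear map -/
noncomputable def affL (s : ℝ) : (M2 × V2) → AA := fun p => aff p.1 p.2 s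

theorem affL_cont (s : ℝ) : Continuous (affL s) := by
  let L : (M2 × V2) →ₗ[ℝ] AA :=
    { toFun := fun p => aff p.1 p.2 0
      map_add' := by
        intro p q
        rw [aff_add, add_zero]
        rfl
      map_smul' := by
        intro c p
        rw [RingHom.id_apply, aff_smul, mul_zero]
        rfl }
  have h1 : Continuous L := L.continuous_of_finiteDimensional
  have h2 : affL s = fun p => L p + aff 0 0 s := by
    funext p
    show aff p.1 p.2 s = aff p.1 p.2 0 + aff 0 0 s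
    rw [aff_add, add_zero, add_zero, zero_add]
  rw [h2]
  exact h1.add continuous_const

theorem aff_closed (s : ℝ) : IsClosed {T : AA | T = aff (lin T) (tra T) s} := by
  have h1 : Continuous fun T : AA => affL s (lin T, tra T) :=
    (affL_cont s).comp (lin_cont.prodMk tra_cont)
  exact isClosed_eq continuous_id h1

section
variable {H : Type} [Group H]

/-- the representation by affine maps -/
noncomputable def rp (D : H →* M2) (d : H → V2) (hd : ∀ γ δ, d (γ * δ) = D γ *ᵥ d δ + d γ) :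
    H →* AA where
  toFun γ := aff (D γ) (d γ) 1
  map_one' := by
    have h := hd 1 1
    rw [mul_one, map_one, Matrix.one_mulVec] at h
    have h1 : d 1 = 0 := by simpa using h
    rw [map_one, h1, aff_one]
  map_mul' γ δ := by
    rw [aff_mul, ← map_mul, one_smul, mul_one, ← hd]

variable {D : H →* M2} {d : H → V2} (hd : ∀ γ δ, d (γ * δ) = D γ *ᵥ d δ + d γ)

theorem rp_apply (γ : H) : rp D d hd γ = aff (D γ) (d γ) 1 := rfl

include hd in
theorem d_one : d 1 = 0 := by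
  have h := hd 1 1
  rw [mul_one, map_one, Matrix.one_mulVec] at h
  simpa using h

include hd in
theorem d_inv (γ : H) : D γ *ᵥ d γ⁻¹ + d γ = 0 := by
  rw [← hd, mul_inv_cancel, d_one hd]

include hd in
theorem d_inv' (γ : H) : D γ⁻¹ *ᵥ d γ + d γ⁻¹ = 0 := by
  rw [← hd, inv_mul_cancel, d_one hd]

theorem cl_shape {T : AA} (hT : T ∈ Cl (rp D d hd)) : T = aff (lin T) (tra T) 1 := by
  refine closure_minimal ?_ (aff_closed 1) hT
  rintro _ ⟨γ, rfl⟩
  show rp D d hd γ = aff (lin (rp D d hd γ)) (tra (rp D d hd γ)) 1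
  rw [rp_apply, lin_aff, tra_aff]

theorem cl_det (hdet : ∀ γ, |(D γ).det| = 1) {T : AA} (hT : T ∈ Cl (rp D d hd)) :
    |(lin T).det| = 1 := by
  have hc : IsClosed {T : AA | |(lin T).det| = 1} :=
    isClosed_eq ((det_cont.comp lin_cont).abs) continuous_const
  refine closure_minimal ?_ hc hT
  rintro _ ⟨γ, rfl⟩
  show |(lin (rp D d hd γ)).det| = 1
  rw [rp_apply, lin_aff]
  exact hdet γ

theorem lie_shape {ξ : AA} (hξ : ξ ∈ Lie (rp D d hd)) : ξ = aff (lin ξ) (tra ξ) 0 := by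
  have h1 := exp_smul_tendsto ξ
  refine (aff_closed 0).mem_of_tendsto h1 (Eventually.of_forall fun n => ?_)
  have h2 := cl_shape hd (hξ ((n : ℝ)⁻¹))
  obtain ⟨A, hA⟩ : ∃ A, A = lin (exp ((n : ℝ)⁻¹ • ξ)) := ⟨_, rfl⟩
  obtain ⟨x, hx⟩ : ∃ x, x = tra (exp ((n : ℝ)⁻¹ • ξ)) := ⟨_, rfl⟩
  rw [← hA, ← hx] at h2
  have h3 : (n : ℝ) • (exp ((n : ℝ)⁻¹ • ξ) - 1) = aff ((n : ℝ) • (A - 1)) ((n : ℝ) • x) 0 := by
    rw [h2, ← aff_one]
    have e : aff A x 1 - aff 1 0 1 = aff (A - 1) x 0 := by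
      rw [sub_eq_iff_eq_add, aff_add]
      simp
    rw [e, aff_smul, mul_zero]
  show (n : ℝ) • (exp ((n : ℝ)⁻¹ • ξ) - 1) = aff (lin ((n : ℝ) • (exp ((n : ℝ)⁻¹ • ξ) - 1)))
    (tra ((n : ℝ) • (exp ((n : ℝ)⁻¹ • ξ) - 1))) 0
  rw [h3, lin_aff, tra_aff]

theorem lin_smul_sub (n : ℝ) (T : AA) (i j : Fin 2) :
    lin (n • (T - 1)) i j = n * (lin T i j - (1 : M2) i j) := by
  have h1 : lin (1 : AA) = 1 := by rw [← aff_one, lin_aff]
  have h2 : lin (n • (T - 1)) i j = n * (lin T i j - lin (1 : AA) i j) := by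
    show ((n • (T - 1)) (Pi.single j 1, 0)).1 i = n * ((T (Pi.single j 1, 0)).1 i -
      ((1 : AA) (Pi.single j 1, 0)).1 i)
    rfl
  rw [h2, h1]

theorem lie_trace (hdet : ∀ γ, |(D γ).det| = 1) {ξ : AA} (hξ : ξ ∈ Lie (rp D d hd)) :
    lin ξ 1 1 = -lin ξ 0 0 := by
  have h1 := exp_smul_tendsto ξ
  set T : ℕ → AA := fun n => exp ((n : ℝ)⁻¹ • ξ) with hT
  have h2 : ∀ i j, Tendsto (fun n : ℕ => (n : ℝ) * (lin (T n) i j - (1 : M2) i j)) atTop
      (𝓝 (lin ξ i j)) := by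
    intro i j
    have hc : Continuous fun T : AA => lin T i j := by
      have := lin_cont
      exact (continuous_apply_apply (ρ := fun _ _ => ℝ) i j).comp this
    refine ((hc.tendsto ξ).comp h1).congr fun n => ?_
    exact lin_smul_sub _ _ _ _
  have h3 : Tendsto T atTop (𝓝 1) := exp_smul_tendsto_one ξ
  have h4 : Tendsto (fun n => lin (T n)) atTop (𝓝 (1 : M2)) := by
    have := (lin_cont.tendsto (1 : AA)).comp h3
    rwa [← aff_one, lin_aff] at this
  have h5 : ∀ i j, Tendsto (fun n => lin (T n) i j - (1 : M2) i j) atTop (𝓝 0) := by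
    intro i j
    have h6 : Tendsto (fun n => lin (T n) i j) atTop (𝓝 ((1 : M2) i j)) :=
      ((continuous_apply_apply (ρ := fun _ _ => ℝ) i j).tendsto (1 : M2)).comp h4
    simpa using h6.sub_const ((1 : M2) i j)
  have h6 : ∀ᶠ n in atTop, (lin (T n)).det = 1 := by
    have h7 : Tendsto (fun n => (lin (T n)).det) atTop (𝓝 1) := by
      have := (det_cont.tendsto (1 : M2)).comp h4
      rwa [Matrix.det_one] at this
    filter_upwards [h7.eventually_const_lt (show (0 : ℝ) < 1 by norm_num)] with n hn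
    have := cl_det hd hdet (hξ ((n : ℝ)⁻¹))
    rwa [abs_of_pos hn] at this
  have h7 : Tendsto (fun n : ℕ => (n : ℝ) * (lin (T n) 0 0 - (1 : M2) 0 0) +
      (n : ℝ) * (lin (T n) 1 1 - (1 : M2) 1 1)) atTop (𝓝 (lin ξ 0 0 + lin ξ 1 1)) :=
    (h2 0 0).add (h2 1 1)
  have h8 : Tendsto (fun n : ℕ => ((n : ℝ) * (lin (T n) 0 1 - (1 : M2) 0 1)) *
      (lin (T n) 1 0 - (1 : M2) 1 0) - ((n : ℝ) * (lin (T n) 0 0 - (1 : M2) 0 0)) *
      (lin (T n) 1 1 - (1 : M2) 1 1)) atTop (𝓝 (lin ξ 0 1 * 0 - lin ξ 0 0 * 0)) :=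
    ((h2 0 1).mul (h5 1 0)).sub ((h2 0 0).mul (h5 1 1))
  rw [mul_zero, mul_zero, sub_zero] at h8
  have h9 := tendsto_nhds_unique h7 (h8.congr' ?_)
  · linarith
  · filter_upwards [h6] with n hn
    rw [Matrix.det_fin_two] at hn
    simp only [Matrix.one_apply_eq, ne_eq, zero_ne_one, not_false_eq_true, Matrix.one_apply_ne,
      one_ne_zero, sub_zero]
    linear_combination (-(n : ℝ)) * hn

/-- the action of the closure on a closed invariant set -/
theorem cl_act {F : Set V2} (hF : IsClosed F) (hinv : ∀ γ, ∀ v ∈ F, D γ *ᵥ v + d γ ∈ F) {T : AA}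
    (hT : T ∈ Cl (rp D d hd)) {v : V2} (hv : v ∈ F) : (T (v, 1)).1 ∈ F := by
  have hc : IsClosed {T : AA | (T (v, 1)).1 ∈ F} := hF.preimage (by fun_prop)
  refine closure_minimal ?_ hc hT
  rintro _ ⟨γ, rfl⟩
  show (aff (D γ) (d γ) 1 (v, 1)).1 ∈ F
  rw [aff_apply]
  show D γ *ᵥ v + (1 : ℝ) • d γ ∈ F
  rw [one_smul]
  exact hinv γ v hv

/-- **Nondiscrete groups.** -/
theorem nondisc (hD : Wild D) {Ω : Set V2} (hΩ : IsOpen Ω) (hne : Ω.Nonempty)
    (hinv : ∀ γ, ∀ v ∈ Ω, D γ *ᵥ v + d γ ∈ Ω) (hfix : ∀ z, ∃ γ, D γ *ᵥ z + d γ ≠ z)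
    (hnd : ∀ ε : ℝ, 0 < ε → ∃ γ, rp D d hd γ ≠ 1 ∧ ‖rp D d hd γ - 1‖ < ε) : Ω = univ := by
  have hFinv : ∀ γ, ∀ v ∈ Ωᶜ, D γ *ᵥ v + d γ ∈ Ωᶜ := by
    intro γ v hv hcon
    apply hv
    have h1 := hinv γ⁻¹ _ hcon
    have h2 : D γ⁻¹ *ᵥ (D γ *ᵥ v + d γ) + d γ⁻¹ = v := by
      rw [Matrix.mulVec_add, Matrix.mulVec_mulVec, D_inv', Matrix.one_mulVec, add_assoc,
        d_inv' hd, add_zero]
    rwa [h2] at h1
  -- a translation in the Lie algebra
  have htrans : ∀ x : V2, x ≠ 0 → aff 0 x 0 ∈ Lie (rp D d hd) → Ω = univ := by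
    intro x hx hxL
    let U : Submodule ℝ V2 :=
      { carrier := {y | aff 0 y 0 ∈ Lie (rp D d hd)}
        zero_mem' := by
          show aff 0 0 0 ∈ Lie (rp D d hd)
          rw [aff_zero]; exact Submodule.zero_mem _
        add_mem' := by
          intro a b ha hb
          show aff 0 (a + b) 0 ∈ Lie (rp D d hd)
          have := (Lie (rp D d hd)).add_mem ha hb
          rwa [aff_add, add_zero, add_zero] at this
        smul_mem' := by
          intro c a ha
          show aff 0 (c • a) 0 ∈ Lie (rp D d hd)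
          have := (Lie (rp D d hd)).smul_mem c ha
          rwa [aff_smul, smul_zero, mul_zero] at this }
    have hU : U = ⊤ := by
      refine irr hD U (fun γ y hy => ?_) (u := x) hxL hx
      have h1 := lie_conj hy γ
      rw [rp_apply, rp_apply, aff_mul, aff_mul] at h1
      show aff 0 (D γ *ᵥ y) 0 ∈ Lie (rp D d hd)
      simpa using h1
    by_contra hcon
    obtain ⟨v, hv⟩ : ∃ v, v ∉ Ω := by
      by_contra h
      push Not at h
      exact hcon (eq_univ_of_forall h)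
    obtain ⟨w, hw⟩ := hne
    have h1 : w - v ∈ U := by rw [hU]; trivial
    have h2 : exp ((1 : ℝ) • aff 0 (w - v) 0) ∈ Cl (rp D d hd) := h1 1
    rw [one_smul, exp_sq_zero (by rw [aff_mul]; simpa using aff_zero)] at h2
    have h3 := cl_act hd hΩ.isClosed_compl hFinv h2 (v := v) hv
    have h4 : ((1 + aff 0 (w - v) 0 : AA) (v, 1)).1 = w := by
      rw [← aff_one, aff_add, aff_apply]
      show (1 + 0 : M2) *ᵥ v + (1 : ℝ) • (0 + (w - v)) = w
      rw [add_zero, Matrix.one_mulVec, one_smul, zero_add]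
      abel
    rw [h4] at h3
    exact h3 hw
  obtain ⟨ξ, hξ, hξ0⟩ := lie_ne hnd
  by_contra hcon
  have huniq : ∀ x : V2, aff 0 x 0 ∈ Lie (rp D d hd) → x = 0 := by
    intro x hx
    by_contra h0
    exact hcon (htrans x h0 hx)
  have huniq' : ∀ (A : M2) (x : V2) (s : ℝ), A = 0 → s = 0 → aff A x s ∈ Lie (rp D d hd) →
      x = 0 := by
    rintro A x s rfl rfl h
    exact huniq x h
  -- the linear parts
  let L : Submodule ℝ M2 :=
    { carrier := {A | ∃ x, aff A x 0 ∈ Lie (rp D d hd)}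
      zero_mem' := ⟨0, by rw [aff_zero]; exact Submodule.zero_mem _⟩
      add_mem' := by
        rintro a b ⟨x, hx⟩ ⟨y, hy⟩
        refine ⟨x + y, ?_⟩
        have := (Lie (rp D d hd)).add_mem hx hy
        rwa [aff_add, add_zero] at this
      smul_mem' := by
        rintro c a ⟨x, hx⟩
        refine ⟨c • x, ?_⟩
        have := (Lie (rp D d hd)).smul_mem c hx
        rwa [aff_smul, mul_zero] at this }
  have hall : ∀ Y : M2, Y 1 1 = -Y 0 0 → Y ∈ L := by
    have hs := lie_shape hd hξ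
    refine lie_top hD L ?_ ?_ (C := lin ξ) ⟨tra ξ, by rw [← hs]; exact hξ⟩ ?_
    · rintro X ⟨x, hx⟩
      have := lie_trace hd hD.det hx
      rwa [lin_aff] at this
    · rintro γ X ⟨x, hx⟩
      have h1 := lie_conj hx γ
      rw [rp_apply, rp_apply, aff_mul, aff_mul] at h1
      exact ⟨_, by simpa using h1⟩
    · intro h0
      rw [h0] at hs
      rw [hs] at hξ
      have h1 := huniq _ hξ
      rw [h1, aff_zero] at hs
      exact hξ0 hs
  obtain ⟨xh, hxh⟩ := hall !![1, 0; 0, -1] (by simp)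
  obtain ⟨xe, hxe⟩ := hall !![0, 1; 0, 0] (by simp)
  obtain ⟨xf, hxf⟩ := hall !![0, 0; 1, 0] (by simp)
  -- the fixed point
  have e1 : xe = ![-xh 1, 0] := by
    have h1 := lie_bracket hxh hxe
    have h2 := (Lie (rp D d hd)).smul_mem (2 : ℝ) hxe
    have h3 := (Lie (rp D d hd)).sub_mem h1 h2
    rw [aff_mul, aff_mul, aff_smul, sub_eq_add_neg, sub_eq_add_neg, ← neg_one_smul ℝ (aff _ _ _),
      ← neg_one_smul ℝ (aff (2 • _) _ _), aff_smul, aff_smul, aff_add, aff_add] at h3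
    have h4 : (!![1, 0; 0, -1] * !![0, 1; 0, 0] + (-1 : ℝ) • (!![0, 1; 0, 0] * !![1, 0; 0, -1]) +
        (-1 : ℝ) • (2 : ℝ) • !![0, 1; 0, 0] : M2) = 0 := by
      apply m2ext <;> simp [mm] <;> norm_num
    have h5 := huniq' _ _ _ h4 (by ring) h3
    have a0 := congrFun h5 0
    have a1 := congrFun h5 1
    simp only [Pi.add_apply, Pi.smul_apply, smul_eq_mul, mv0, mv1, Pi.zero_apply] at a0 a1
    simp at a0 a1
    apply v2ext
    · simp
      linarith
    · simp
      linarith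
  have e2 : xf = ![0, xh 0] := by
    have h1 := lie_bracket hxh hxf
    have h2 := (Lie (rp D d hd)).smul_mem (2 : ℝ) hxf
    have h3 := (Lie (rp D d hd)).add_mem h1 h2
    rw [aff_mul, aff_mul, aff_smul, sub_eq_add_neg, ← neg_one_smul ℝ (aff _ _ _),
      aff_smul, aff_add, aff_add] at h3
    have h4 : (!![1, 0; 0, -1] * !![0, 0; 1, 0] + (-1 : ℝ) • (!![0, 0; 1, 0] * !![1, 0; 0, -1]) +
        (2 : ℝ) • !![0, 0; 1, 0] : M2) = 0 := by
      apply m2ext <;> simp [mm] <;> norm_num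
    have h5 := huniq' _ _ _ h4 (by ring) h3
    have a0 := congrFun h5 0
    have a1 := congrFun h5 1
    simp only [Pi.add_apply, Pi.smul_apply, smul_eq_mul, mv0, mv1, Pi.zero_apply] at a0 a1
    simp at a0 a1
    apply v2ext
    · simp
      linarith
    · simp
      linarith
  obtain ⟨z, hz⟩ : ∃ z : V2, z = ![-xh 0, xh 1] := ⟨_, rfl⟩
  have hgen : ∀ A : M2, A 1 1 = -A 0 0 → ∀ x : V2, aff A x 0 ∈ Lie (rp D d hd) →
      x = -(A *ᵥ z) := by
    intro A hA x hx
    have h1 := (Lie (rp D d hd)).add_mem ((Lie (rp D d hd)).add_mem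
      ((Lie (rp D d hd)).smul_mem (A 0 0) hxh) ((Lie (rp D d hd)).smul_mem (A 0 1) hxe))
      ((Lie (rp D d hd)).smul_mem (A 1 0) hxf)
    have h2 := (Lie (rp D d hd)).sub_mem h1 hx
    rw [aff_smul, aff_smul, aff_smul, aff_add, aff_add, sub_eq_add_neg,
      ← neg_one_smul ℝ (aff A _ _), aff_smul, aff_add] at h2
    have h4 : (A 0 0 • !![1, 0; 0, -1] + A 0 1 • !![0, 1; 0, 0] + A 1 0 • !![0, 0; 1, 0] +
        (-1 : ℝ) • A : M2) = 0 := by
      apply m2ext <;> simp [hA]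
    have h5 := huniq' _ _ _ h4 (by ring) h2
    rw [e1, e2] at h5
    have a0 := congrFun h5 0
    have a1 := congrFun h5 1
    simp only [Pi.add_apply, Pi.smul_apply, smul_eq_mul, Pi.zero_apply] at a0 a1
    simp at a0 a1
    rw [hz]
    apply v2ext
    · rw [Pi.neg_apply, mv0]
      simp
      linarith
    · rw [Pi.neg_apply, mv1, hA]
      simp
      linarith
  obtain ⟨γ, hγ⟩ := hfix z
  apply hγ
  -- invariance
  have hinvz : ∀ A : M2, A 1 1 = -A 0 0 → (D γ * A) *ᵥ (z - D γ⁻¹ *ᵥ z - d γ⁻¹) = 0 := by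
    intro A hA
    obtain ⟨x, hx⟩ := hall A hA
    have h0 := hgen A hA x hx
    have h1 := lie_conj hx γ
    have htr := lie_trace hd hD.det h1
    rw [rp_apply, rp_apply, aff_mul, aff_mul, lin_aff] at htr
    rw [rp_apply, rp_apply, aff_mul, aff_mul, show (1 : ℝ) * 0 * 1 = 0 by ring] at h1
    have h2 := hgen _ htr _ h1
    rw [h0, zero_smul, add_zero, Matrix.mulVec_neg, one_smul, Matrix.mulVec_mulVec] at h2
    have h5 : (D γ * A) *ᵥ (z - D γ⁻¹ *ᵥ z - d γ⁻¹) =
        (D γ * A) *ᵥ z - (D γ * A * D γ⁻¹) *ᵥ z - (D γ * A) *ᵥ d γ⁻¹ := by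
      rw [Matrix.mulVec_sub (D γ * A) (z - D γ⁻¹ *ᵥ z), Matrix.mulVec_sub (D γ * A) z,
        Matrix.mulVec_mulVec z (D γ * A) (D γ⁻¹)]
    rw [h5]
    have h3 : (D γ * A) *ᵥ d γ⁻¹ = (D γ * A) *ᵥ z - (D γ * A * D γ⁻¹) *ᵥ z := by
      have := eq_sub_of_add_eq h2
      rw [this]
      abel
    rw [h3]
    abel
  have hw : z - D γ⁻¹ *ᵥ z - d γ⁻¹ = 0 := by
    set w := z - D γ⁻¹ *ᵥ z - d γ⁻¹ with hwdef
    have h1 := hinvz !![1, 0; 0, -1] (by simp)
    have h2 : (!![1, 0; 0, -1] : M2) *ᵥ w = 0 := by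
      have h3 := congrArg (fun v => D γ⁻¹ *ᵥ v) h1
      simp only [Matrix.mulVec_zero] at h3
      rwa [Matrix.mulVec_mulVec, ← mul_assoc, D_inv', one_mul] at h3
    have a0 := congrFun h2 0
    have a1 := congrFun h2 1
    rw [mv0] at a0
    rw [mv1] at a1
    simp at a0 a1
    exact v2ext a0 a1
  have h1 : D γ⁻¹ *ᵥ z + d γ⁻¹ = z := by
    have := sub_eq_zero.1 (show z - (D γ⁻¹ *ᵥ z + d γ⁻¹) = 0 by rw [← hw]; abel)
    exact this.symm
  have h2 : D γ *ᵥ (D γ⁻¹ *ᵥ z + d γ⁻¹) + d γ = z := by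
    rw [Matrix.mulVec_add, Matrix.mulVec_mulVec, D_inv, Matrix.one_mulVec, add_assoc,
      d_inv hd, add_zero]
  rwa [h1] at h2

end

end Pool.Agent.Helper63.Mk
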