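import Mathlib

/-!
Project Mk (helper63): linear groups of the plane which are unbounded and preserve no line up to
finite index.
-/

set_option autoImplicit false

open Set Filter Topology
open scoped Matrix

namespace Pool.Agent.Helper63.Mk

/-- the plane -/
abbrev V2 := Fin 2 → ℝ

/-- the matrices -/
abbrev M2 := Matrix (Fin 2) (Fin 2) ℝ

/-- no line is preserved up to finite index, and the group is unbounded -/
structure Wild {H : Type} [Group H] (D : H →* M2) : Prop where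
  det : ∀ γ, |(D γ).det| = 1
  line : ∀ K : Subgroup H, K.FiniteIndex → ∀ v : V2, v ≠ 0 → ∃ γ ∈ K, ∀ c : ℝ, D γ *ᵥ v ≠ c • v
  unb : ∀ R : ℝ, ∃ γ, ∃ i j, R < |D γ i j|

theorem mv0 (A : M2) (v : V2) : (A *ᵥ v) 0 = A 0 0 * v 0 + A 0 1 * v 1 := by
  simp [Matrix.mulVec, dotProduct, Fin.sum_univ_two]

theorem mv1 (A : M2) (v : V2) : (A *ᵥ v) 1 = A 1 0 * v 0 + A 1 1 * v 1 := by
  simp [Matrix.mulVec, dotProduct, Fin.sum_univ_two]

theorem v2ext {u v : V2} (h0 : u 0 = v 0) (h1 : u 1 = v 1) : u = v := by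
  funext i
  fin_cases i
  · exact h0
  · exact h1

theorem m2ext {A B : M2} (h0 : A 0 0 = B 0 0) (h1 : A 0 1 = B 0 1) (h2 : A 1 0 = B 1 0)
    (h3 : A 1 1 = B 1 1) : A = B := by
  ext i j
  fin_cases i <;> fin_cases j <;> assumption

theorem mm (A B : M2) (i j : Fin 2) : (A * B) i j = A i 0 * B 0 j + A i 1 * B 1 j := by
  simp [Matrix.mul_apply, Fin.sum_univ_two]

/-- parallel vectors -/
theorem par {u w : V2} (hu : u ≠ 0) (h : u 0 * w 1 = u 1 * w 0) : ∃ c : ℝ, w = c • u := by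
  by_cases h0 : u 0 = 0
  · have h1 : u 1 ≠ 0 := fun h1 => hu (v2ext h0 h1)
    refine ⟨w 1 / u 1, v2ext ?_ ?_⟩
    · rw [h0, zero_mul] at h
      have : w 0 = 0 := by
        rcases mul_eq_zero.1 h.symm with h | h
        · exact absurd h h1
        · exact h
      simp [h0, this]
    · simp [h1]
  · refine ⟨w 0 / u 0, v2ext ?_ ?_⟩
    · simp [h0]
    · show w 1 = w 0 / u 0 * u 1
      field_simp
      linarith

theorem ker_line {C : M2} (hC : C ≠ 0) {u w : V2} (hu : u ≠ 0) (hCu : C *ᵥ u = 0)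
    (hCw : C *ᵥ w = 0) : ∃ c : ℝ, w = c • u := by
  apply par hu
  have a0 := congrFun hCu 0
  have a1 := congrFun hCu 1
  have b0 := congrFun hCw 0
  have b1 := congrFun hCw 1
  rw [mv0] at a0 b0
  rw [mv1] at a1 b1
  simp only [Pi.zero_apply] at a0 a1 b0 b1
  by_contra hne
  have hne' : u 0 * w 1 - u 1 * w 0 ≠ 0 := fun h => hne (by linarith)
  apply hC
  apply m2ext
  · have : C 0 0 * (u 0 * w 1 - u 1 * w 0) = 0 := by linear_combination w 1 * a0 - u 1 * b0
    exact (mul_eq_zero.1 this).resolve_right hne'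
  · have : C 0 1 * (u 0 * w 1 - u 1 * w 0) = 0 := by linear_combination u 0 * b0 - w 0 * a0
    exact (mul_eq_zero.1 this).resolve_right hne'
  · have : C 1 0 * (u 0 * w 1 - u 1 * w 0) = 0 := by linear_combination w 1 * a1 - u 1 * b1
    exact (mul_eq_zero.1 this).resolve_right hne'
  · have : C 1 1 * (u 0 * w 1 - u 1 * w 0) = 0 := by linear_combination u 0 * b1 - w 0 * a1
    exact (mul_eq_zero.1 this).resolve_right hne'

section
variable {H : Type} [Group H] {D : H →* M2}

theorem Wild.det_ne (hD : Wild D) (γ : H) : (D γ).det ≠ 0 := by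
  intro h
  have := hD.det γ
  rw [h, abs_zero] at this
  exact zero_ne_one this

theorem D_inv (D : H →* M2) (γ : H) : D γ * D γ⁻¹ = 1 := by
  rw [← map_mul, mul_inv_cancel, map_one]

theorem D_inv' (D : H →* M2) (γ : H) : D γ⁻¹ * D γ = 1 := by
  rw [← map_mul, inv_mul_cancel, map_one]

/-- the sign subgroup has finite index -/
theorem fin_sign (D : H →* M2) (C : M2) (h : ∀ γ, D γ * C = C * D γ ∨ D γ * C = -(C * D γ)) :
    ∃ K : Subgroup H, K.FiniteIndex ∧ ∀ γ ∈ K, D γ * C = C * D γ := by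
  classical
  by_cases hall : ∀ γ, D γ * C = C * D γ
  · exact ⟨⊤, inferInstance, fun γ _ => hall γ⟩
  push Not at hall
  obtain ⟨δ, hδ⟩ := hall
  have hδ' := (h δ).resolve_left hδ
  let K : Subgroup H :=
    { carrier := {γ | D γ * C = C * D γ}
      one_mem' := by
        show D 1 * C = C * D 1
        rw [map_one, one_mul, mul_one]
      mul_mem' := by
        intro x y hx hy
        show D (x * y) * C = C * D (x * y)
        have hx' : D x * C = C * D x := hx
        have hy' : D y * C = C * D y := hy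
        rw [map_mul, mul_assoc, hy', ← mul_assoc, hx', mul_assoc]
      inv_mem' := by
        intro x hx
        have hx' : D x * C = C * D x := hx
        show D x⁻¹ * C = C * D x⁻¹
        calc D x⁻¹ * C = D x⁻¹ * C * (D x * D x⁻¹) := by rw [D_inv, mul_one]
          _ = D x⁻¹ * (C * D x) * D x⁻¹ := by noncomm_ring
          _ = D x⁻¹ * (D x * C) * D x⁻¹ := by rw [hx']
          _ = (D x⁻¹ * D x) * C * D x⁻¹ := by noncomm_ring
          _ = C * D x⁻¹ := by rw [D_inv', one_mul] }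
  have hK : ∀ γ, γ ∈ K ∨ δ⁻¹ * γ ∈ K := by
    intro γ
    rcases h γ with h1 | h1
    · exact Or.inl h1
    · right
      show D (δ⁻¹ * γ) * C = C * D (δ⁻¹ * γ)
      rw [map_mul, mul_assoc, h1]
      have h2 : D δ⁻¹ * C = -(C * D δ⁻¹) := by
        calc D δ⁻¹ * C = D δ⁻¹ * C * (D δ * D δ⁻¹) := by rw [D_inv, mul_one]
          _ = -(D δ⁻¹ * (-(C * D δ)) * D δ⁻¹) := by noncomm_ring
          _ = -(D δ⁻¹ * (D δ * C) * D δ⁻¹) := by rw [hδ']
          _ = -((D δ⁻¹ * D δ) * C * D δ⁻¹) := by noncomm_ring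
          _ = -(C * D δ⁻¹) := by rw [D_inv', one_mul]
      rw [mul_neg, ← mul_assoc, h2, neg_mul, neg_neg, mul_assoc]
  refine ⟨K, ?_, fun γ hγ => hγ⟩
  have hfin : Finite (H ⧸ K) := by
    refine Finite.of_surjective (fun x : Bool => (if x then ((1 : H) : H ⧸ K) else (δ : H ⧸ K))) ?_
    intro q
    obtain ⟨γ, rfl⟩ := QuotientGroup.mk_surjective q
    rcases hK γ with h1 | h1
    · refine ⟨true, ?_⟩
      simp only [if_true]
      rw [QuotientGroup.eq]
      simpa using h1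
    · refine ⟨false, ?_⟩
      simp only [Bool.false_eq_true, if_false]
      rw [QuotientGroup.eq]
      exact h1
  exact Subgroup.finiteIndex_of_finite_quotient

/-- a wild group normalises no traceless matrix up to scalars -/
theorem no_semi (hD : Wild D) (C : M2) (htr : C 1 1 = -C 0 0)
    (hC : ∀ γ, ∃ c : ℝ, D γ * C = c • (C * D γ)) : C = 0 := by
  by_contra hC0
  have hdet : C.det = -(C 0 0 * C 0 0 + C 0 1 * C 1 0) := by
    rw [Matrix.det_fin_two, htr]; ring
  have hsq : ∀ v : V2, C *ᵥ (C *ᵥ v) = (-C.det) • v := by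
    intro v
    apply v2ext
    · rw [mv0, mv0, mv1, hdet, htr]
      simp only [Pi.smul_apply, smul_eq_mul]
      ring
    · rw [mv1, mv0, mv1, hdet, htr]
      simp only [Pi.smul_apply, smul_eq_mul]
      ring
  rcases lt_trichotomy C.det 0 with hd | hd | hd
  · -- hyperbolic
    have hsign : ∀ γ, D γ * C = C * D γ ∨ D γ * C = -(C * D γ) := by
      intro γ
      obtain ⟨c, hc⟩ := hC γ
      have h1 := congrArg Matrix.det hc
      rw [Matrix.det_smul, Matrix.det_mul, Matrix.det_mul, Fintype.card_fin] at h1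
      have h2 : (c ^ 2 - 1) * (C.det * (D γ).det) = 0 := by linear_combination -h1
      have h3 := (mul_eq_zero.1 h2).resolve_right (mul_ne_zero hd.ne (hD.det_ne γ))
      have h4 : (c - 1) * (c + 1) = 0 := by linear_combination h3
      rcases mul_eq_zero.1 h4 with h5 | h5
      · left
        rw [hc, show c = 1 by linarith, one_smul]
      · right
        rw [hc, show c = -1 by linarith, neg_smul, one_smul]
    obtain ⟨K, hK, hKc⟩ := fin_sign D C hsign
    obtain ⟨s, hs0, hs⟩ : ∃ s : ℝ, 0 < s ∧ s * s = -C.det :=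
      ⟨√(-C.det), Real.sqrt_pos.2 (by linarith), Real.mul_self_sqrt (by linarith)⟩
    -- an eigenvector
    obtain ⟨u, hu, hCu⟩ : ∃ u : V2, u ≠ 0 ∧ C *ᵥ u = s • u := by
      by_cases h1 : ∃ v : V2, C *ᵥ v + s • v ≠ 0
      · obtain ⟨v, hv⟩ := h1
        refine ⟨C *ᵥ v + s • v, hv, ?_⟩
        rw [Matrix.mulVec_add, hsq, Matrix.mulVec_smul, smul_add, smul_smul, hs, add_comm]
      · exfalso
        push Not at h1
        have a0 := congrFun (h1 ![1, 0]) 0
        have a1 := congrFun (h1 ![0, 1]) 1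
        simp only [Pi.add_apply, mv0, mv1, Pi.smul_apply, smul_eq_mul, Pi.zero_apply] at a0 a1
        simp at a0 a1
        rw [htr] at a1
        linarith
    obtain ⟨γ, hγ, hγu⟩ := hD.line K hK u hu
    have h1 : (C - s • (1 : M2)) *ᵥ u = 0 := by
      rw [Matrix.sub_mulVec, Matrix.smul_mulVec, Matrix.one_mulVec, hCu, sub_self]
    have h2 : (C - s • (1 : M2)) *ᵥ (D γ *ᵥ u) = 0 := by
      rw [Matrix.sub_mulVec, Matrix.smul_mulVec, Matrix.one_mulVec, Matrix.mulVec_mulVec,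
        ← hKc γ hγ, ← Matrix.mulVec_mulVec, hCu, Matrix.mulVec_smul, sub_self]
    have h3 : C - s • (1 : M2) ≠ 0 := by
      intro h4
      have a0 := congrFun (congrFun h4 0) 0
      have a1 := congrFun (congrFun h4 1) 1
      simp at a0 a1
      rw [htr] at a1
      linarith
    obtain ⟨c, hc⟩ := ker_line h3 hu h1 h2
    exact hγu c hc
  · -- nilpotent
    obtain ⟨v, hv⟩ : ∃ v : V2, C *ᵥ v ≠ 0 := by
      by_contra hcon
      push Not at hcon
      apply hC0
      have e0 := hcon ![1, 0]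
      have e1 := hcon ![0, 1]
      apply m2ext
      · simpa [mv0] using congrFun e0 0
      · simpa [mv0] using congrFun e1 0
      · simpa [mv1] using congrFun e0 1
      · simpa [mv1] using congrFun e1 1
    have hCu : C *ᵥ (C *ᵥ v) = 0 := by rw [hsq, hd, neg_zero, zero_smul]
    obtain ⟨γ, -, hγu⟩ := hD.line ⊤ inferInstance _ hv
    obtain ⟨c, hc⟩ := hC γ
    have hc0 : c ≠ 0 := by
      rintro rfl
      rw [zero_smul] at hc
      apply hC0
      calc C = D γ⁻¹ * (D γ * C) := by rw [← mul_assoc, D_inv', one_mul]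
        _ = 0 := by rw [hc, mul_zero]
    have h2 : C *ᵥ (D γ *ᵥ (C *ᵥ v)) = 0 := by
      have h3 : c • (C *ᵥ (D γ *ᵥ (C *ᵥ v))) = 0 := by
        rw [Matrix.mulVec_mulVec _ C, ← Matrix.smul_mulVec, ← hc, ← Matrix.mulVec_mulVec, hCu,
          Matrix.mulVec_zero]
      exact (smul_eq_zero.1 h3).resolve_left hc0
    obtain ⟨c', hc'⟩ := ker_line hC0 hv hCu h2
    exact hγu c' hc'
  · -- elliptic
    have hsign : ∀ γ, ∃ c : ℝ, |c| = 1 ∧ D γ * C = c • (C * D γ) := by
      intro γ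
      obtain ⟨c, hc⟩ := hC γ
      have h1 := congrArg Matrix.det hc
      rw [Matrix.det_smul, Matrix.det_mul, Matrix.det_mul, Fintype.card_fin] at h1
      have h2 : (c ^ 2 - 1) * (C.det * (D γ).det) = 0 := by linear_combination -h1
      have h3 := (mul_eq_zero.1 h2).resolve_right (mul_ne_zero hd.ne' (hD.det_ne γ))
      refine ⟨c, ?_, hc⟩
      have h4 : |c| ^ 2 = 1 := by rw [sq_abs]; linarith
      have h5 := abs_nonneg c
      nlinarith
    -- the invariant form
    let q : V2 → ℝ := fun v => (C *ᵥ v) 0 * v 1 - (C *ᵥ v) 1 * v 0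
    have hq : ∀ v, q v = C 0 1 * v 1 ^ 2 + 2 * C 0 0 * v 0 * v 1 - C 1 0 * v 0 ^ 2 := by
      intro v
      simp only [q, mv0, mv1, htr]
      ring
    have hinv : ∀ γ v, |q (D γ *ᵥ v)| = |q v| := by
      intro γ v
      obtain ⟨c, hc, hcD⟩ := hsign γ
      have h1 : c • (C *ᵥ (D γ *ᵥ v)) = D γ *ᵥ (C *ᵥ v) := by
        rw [Matrix.mulVec_mulVec _ C, ← Matrix.smul_mulVec, ← hcD, Matrix.mulVec_mulVec]
      have h2 : c * q (D γ *ᵥ v) = (D γ).det * q v := by
        have a0 := congrFun h1 0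
        have a1 := congrFun h1 1
        simp only [Pi.smul_apply, smul_eq_mul] at a0 a1
        show c * ((C *ᵥ (D γ *ᵥ v)) 0 * (D γ *ᵥ v) 1 - (C *ᵥ (D γ *ᵥ v)) 1 * (D γ *ᵥ v) 0) = _
        have e1 : c * ((C *ᵥ (D γ *ᵥ v)) 0 * (D γ *ᵥ v) 1 - (C *ᵥ (D γ *ᵥ v)) 1 * (D γ *ᵥ v) 0) =
          (c * (C *ᵥ (D γ *ᵥ v)) 0) * (D γ *ᵥ v) 1 - (c * (C *ᵥ (D γ *ᵥ v)) 1) * (D γ *ᵥ v) 0 := by
          ring
        rw [e1, a0, a1, mv0 (D γ), mv1 (D γ), mv0 (D γ), mv1 (D γ), Matrix.det_fin_two]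
        show _ = _ * ((C *ᵥ v) 0 * v 1 - (C *ᵥ v) 1 * v 0)
        ring
      have h3 := congrArg abs h2
      rwa [abs_mul, abs_mul, hc, hD.det γ, one_mul, one_mul] at h3
    -- definiteness
    have hdd : 0 < -(C 0 0 * C 0 0 + C 0 1 * C 1 0) := by rw [← hdet]; exact hd
    set a := C 0 1 with ha
    set p := C 0 0 with hp
    set r := C 1 0 with hr
    have hlow : ∀ v : V2, C.det * v 0 ^ 2 ≤ |a| * |q v| ∧ C.det * v 1 ^ 2 ≤ |r| * |q v| := by
      intro v
      rw [← abs_mul, ← abs_mul]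
      constructor
      · refine le_trans ?_ (le_abs_self _)
        rw [hq, hdet]
        nlinarith [sq_nonneg (a * v 1 + p * v 0)]
      · refine le_trans ?_ (neg_le_abs _)
        rw [hq, hdet]
        nlinarith [sq_nonneg (r * v 0 - p * v 1)]
    -- boundedness
    obtain ⟨Q, hQ⟩ : ∃ Q : ℝ, |q ![1, 0]| ≤ Q ∧ |q ![0, 1]| ≤ Q :=
      ⟨max |q ![1, 0]| |q ![0, 1]|, le_max_left _ _, le_max_right _ _⟩
    have hbd : ∀ γ i j, C.det * (D γ i j) ^ 2 ≤ (|a| + |r|) * Q := by
      intro γ i j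
      have ha0 := abs_nonneg a
      have hr0 := abs_nonneg r
      have hQ0 : 0 ≤ Q := (abs_nonneg _).trans hQ.1
      have e0 := hlow (D γ *ᵥ ![1, 0])
      have e1 := hlow (D γ *ᵥ ![0, 1])
      rw [hinv] at e0 e1
      have f00 : (D γ *ᵥ ![1, 0]) 0 = D γ 0 0 := by rw [mv0]; simp
      have f01 : (D γ *ᵥ ![1, 0]) 1 = D γ 1 0 := by rw [mv1]; simp
      have f10 : (D γ *ᵥ ![0, 1]) 0 = D γ 0 1 := by rw [mv0]; simp
      have f11 : (D γ *ᵥ ![0, 1]) 1 = D γ 1 1 := by rw [mv1]; simp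
      rw [f00, f01] at e0
      rw [f10, f11] at e1
      fin_cases i <;> fin_cases j
      · exact e0.1.trans (by nlinarith [hQ.1, abs_nonneg (q ![1, 0])])
      · exact e1.1.trans (by nlinarith [hQ.2, abs_nonneg (q ![0, 1])])
      · exact e0.2.trans (by nlinarith [hQ.1, abs_nonneg (q ![1, 0])])
      · exact e1.2.trans (by nlinarith [hQ.2, abs_nonneg (q ![0, 1])])
    obtain ⟨γ, i, j, hR⟩ := hD.unb (((|a| + |r|) * Q) / C.det + 1)
    have h1 := hbd γ i j
    have h2 : (D γ i j) ^ 2 ≤ ((|a| + |r|) * Q) / C.det := by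
      rw [le_div_iff₀ hd]; linarith
    rw [← sq_abs] at h2
    have h3 := abs_nonneg (D γ i j)
    have h4 : 0 ≤ ((|a| + |r|) * Q) / C.det := (sq_nonneg _).trans h2
    nlinarith

/-- irreducibility -/
theorem irr (hD : Wild D) (U : Submodule ℝ V2) (hU : ∀ γ, ∀ u ∈ U, D γ *ᵥ u ∈ U) {u : V2}
    (hu : u ∈ U) (hu0 : u ≠ 0) : U = ⊤ := by
  by_contra htop
  obtain ⟨γ, -, hγ⟩ := hD.line ⊤ inferInstance u hu0
  have h1 := hU γ u hu
  by_cases h2 : u 0 * (D γ *ᵥ u) 1 = u 1 * (D γ *ᵥ u) 0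
  · obtain ⟨c, hc⟩ := par hu0 h2
    exact hγ c hc
  · apply htop
    rw [eq_top_iff]
    intro w _
    set z := D γ *ᵥ u with hz
    have hne : u 0 * z 1 - u 1 * z 0 ≠ 0 := fun h => h2 (by linarith)
    have h3 : (u 0 * z 1 - u 1 * z 0) • w = (w 0 * z 1 - w 1 * z 0) • u +
        (u 0 * w 1 - u 1 * w 0) • z := by
      apply v2ext
      · simp only [Pi.add_apply, Pi.smul_apply, smul_eq_mul]
        ring
      · simp only [Pi.add_apply, Pi.smul_apply, smul_eq_mul]
        ring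
    have h4 : w = (u 0 * z 1 - u 1 * z 0)⁻¹ • ((w 0 * z 1 - w 1 * z 0) • u +
        (u 0 * w 1 - u 1 * w 0) • z) := by
      rw [← h3, smul_smul, inv_mul_cancel₀ hne, one_smul]
    rw [h4]
    exact U.smul_mem _ (U.add_mem (U.smul_mem _ hu) (U.smul_mem _ h1))

/-- rank one matrices -/
def r1 (x y : V2) : M2 := fun i j => x i * y j

theorem r1_det (P : M2) (hP : P.det = 0) (hP0 : P ≠ 0) : ∃ x y : V2, x ≠ 0 ∧ y ≠ 0 ∧ P = r1 x y := by
  rw [Matrix.det_fin_two] at hP
  obtain ⟨i, j, hij⟩ : ∃ i j, P i j ≠ 0 := by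
    by_contra hcon
    push Not at hcon
    exact hP0 (by ext i j; exact hcon i j)
  refine ⟨fun k => P k j, fun l => P i l / P i j, fun h => hij (congrFun h i), fun h => ?_, ?_⟩
  · have := congrFun h j
    simp only [Pi.zero_apply] at this
    rw [div_self hij] at this
    exact one_ne_zero this
  · ext k l
    show P k l = P k j * (P i l / P i j)
    have h1 : P k l * P i j = P k j * P i l := by
      fin_cases i <;> fin_cases j <;> fin_cases k <;> fin_cases l <;> simp at * <;> linarith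
    field_simp
    linarith

theorem mul_r1 (A : M2) (x y : V2) : A * r1 x y = r1 (A *ᵥ x) y := by
  ext i j
  rw [mm]
  show A i 0 * (x 0 * y j) + A i 1 * (x 1 * y j) = (A *ᵥ x) i * y j
  have : (A *ᵥ x) i = A i 0 * x 0 + A i 1 * x 1 := by
    simp [Matrix.mulVec, dotProduct, Fin.sum_univ_two]
  rw [this]; ring

/-- the rotated vector -/
def rot (z : V2) : V2 := ![-z 1, z 0]

theorem r1_mul (A : M2) (x z : V2) : r1 x (rot z) * A = r1 x (rot (A.adjugate *ᵥ z)) := by
  ext i j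
  rw [mm]
  show x i * rot z 0 * A 0 j + x i * rot z 1 * A 1 j = x i * rot (A.adjugate *ᵥ z) j
  rw [Matrix.adjugate_fin_two]
  fin_cases j
  · simp [rot, mv1]
    ring
  · simp [rot, mv0]
    ring

/-- the ideal generated by a matrix of rank one -/
theorem ideal_top (hD : Wild D) (N : Submodule ℝ M2) (hl : ∀ γ, ∀ X ∈ N, D γ * X ∈ N)
    (hr : ∀ γ, ∀ X ∈ N, X * D γ ∈ N) {P : M2} (hP : P ∈ N) (hP0 : P ≠ 0) (hd : P.det = 0) :
    N = ⊤ := by
  obtain ⟨x, y, hx, hy, rfl⟩ := r1_det P hd hP0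
  -- first factor
  have h1 : ∀ u, r1 u y ∈ N := by
    let U : Submodule ℝ V2 :=
      { carrier := {u | r1 u y ∈ N}
        zero_mem' := by
          show r1 0 y ∈ N
          have : r1 0 y = 0 := by ext i j; simp [r1]
          rw [this]; exact N.zero_mem
        add_mem' := by
          intro a b ha hb
          show r1 (a + b) y ∈ N
          have : r1 (a + b) y = r1 a y + r1 b y := by ext i j; simp [r1, add_mul]
          rw [this]; exact N.add_mem ha hb
        smul_mem' := by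
          intro c a ha
          show r1 (c • a) y ∈ N
          have : r1 (c • a) y = c • r1 a y := by ext i j; simp [r1, mul_assoc]
          rw [this]; exact N.smul_mem c ha }
    have h2 : U = ⊤ := irr hD U (fun γ u hu => by
      show r1 (D γ *ᵥ u) y ∈ N
      rw [← mul_r1]
      exact hl γ _ hu) (u := x) hP hx
    intro u
    have : u ∈ U := by rw [h2]; trivial
    exact this
  have h2 : ∀ z, ∀ u, r1 u (rot z) ∈ N := by
    let Z : Submodule ℝ V2 :=
      { carrier := {z | ∀ u, r1 u (rot z) ∈ N}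
        zero_mem' := by
          intro u
          have : r1 u (rot 0) = 0 := by
            ext i j
            fin_cases j <;> simp [r1, rot]
          rw [this]; exact N.zero_mem
        add_mem' := by
          intro a b ha hb u
          have : r1 u (rot (a + b)) = r1 u (rot a) + r1 u (rot b) := by
            ext i j
            fin_cases j
            · simp [r1, rot]; ring
            · simp [r1, rot]; ring
          rw [this]; exact N.add_mem (ha u) (hb u)
        smul_mem' := by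
          intro c a ha u
          have : r1 u (rot (c • a)) = c • r1 u (rot a) := by
            ext i j
            fin_cases j
            · simp [r1, rot]; ring
            · simp [r1, rot]; ring
          rw [this]; exact N.smul_mem c (ha u) }
    have hy' : y = rot ![y 1, -y 0] := by
      apply v2ext <;> simp [rot]
    have h3 : Z = ⊤ := by
      refine irr hD Z (fun γ z hz u => ?_) (u := ![y 1, -y 0]) (fun u => ?_) ?_
      · -- the inverse
        have e1 := hr γ⁻¹ _ (hz u)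
        rw [r1_mul] at e1
        have hdet : (D γ⁻¹).det * (D γ).det = 1 := by
          rw [← Matrix.det_mul, D_inv', Matrix.det_one]
        have e2 : (D γ⁻¹).adjugate = (D γ⁻¹).det • D γ := by
          calc (D γ⁻¹).adjugate = (D γ⁻¹).adjugate * (D γ⁻¹ * D γ) := by rw [D_inv', mul_one]
            _ = ((D γ⁻¹).adjugate * D γ⁻¹) * D γ := by rw [mul_assoc]
            _ = (D γ⁻¹).det • D γ := by rw [Matrix.adjugate_mul, smul_mul_assoc, one_mul]
        rw [e2, Matrix.smul_mulVec] at e1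
        have e3 : r1 u (rot ((D γ⁻¹).det • (D γ *ᵥ z))) =
            (D γ⁻¹).det • r1 u (rot (D γ *ᵥ z)) := by
          ext i j
          fin_cases j
          · simp [r1, rot]; ring
          · simp [r1, rot]; ring
        rw [e3] at e1
        have e4 := N.smul_mem (D γ).det e1
        rwa [smul_smul, mul_comm, hdet, one_smul] at e4
      · rw [← hy']; exact h1 u
      · intro h4
        apply hy
        have a0 := congrFun h4 0
        have a1 := congrFun h4 1
        simp at a0 a1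
        exact v2ext a1 a0
    intro z u
    have : z ∈ Z := by rw [h3]; trivial
    exact this u
  rw [eq_top_iff]
  intro X _
  have h3 : X = r1 ![X 0 0, X 1 0] (rot ![0, -1]) + r1 ![X 0 1, X 1 1] (rot ![1, 0]) := by
    ext i j
    fin_cases i <;> fin_cases j <;> simp [r1, rot]
  rw [h3]
  exact N.add_mem (h2 _ _) (h2 _ _)

theorem trl_par {C C' : M2} (hC1 : C 1 1 = -C 0 0) (hC'1 : C' 1 1 = -C' 0 0) (hC0 : C ≠ 0)
    (z0 : C 0 1 * C' 1 0 - C 1 0 * C' 0 1 = 0) (z1 : C 1 0 * C' 0 0 - C 0 0 * C' 1 0 = 0)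
    (z2 : C 0 0 * C' 0 1 - C 0 1 * C' 0 0 = 0) : ∃ c : ℝ, C' = c • C := by
  by_cases c0 : C 0 0 = 0
  · by_cases c1 : C 0 1 = 0
    · have c2 : C 1 0 ≠ 0 := fun c2 => hC0 (m2ext c0 c1 c2 (by rw [hC1, c0]; simp))
      refine ⟨C' 1 0 / C 1 0, m2ext ?_ ?_ ?_ ?_⟩
      · simp only [Matrix.smul_apply, smul_eq_mul]
        field_simp
        linarith
      · simp only [Matrix.smul_apply, smul_eq_mul]
        field_simp
        linarith
      · simp only [Matrix.smul_apply, smul_eq_mul]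
        field_simp
      · simp only [Matrix.smul_apply, smul_eq_mul, hC'1, hC1]
        field_simp
        linarith
    · refine ⟨C' 0 1 / C 0 1, m2ext ?_ ?_ ?_ ?_⟩
      · simp only [Matrix.smul_apply, smul_eq_mul]
        field_simp
        linarith
      · simp only [Matrix.smul_apply, smul_eq_mul]
        field_simp
      · simp only [Matrix.smul_apply, smul_eq_mul]
        field_simp
        linarith
      · simp only [Matrix.smul_apply, smul_eq_mul, hC'1, hC1]
        field_simp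
        linarith
  · refine ⟨C' 0 0 / C 0 0, m2ext ?_ ?_ ?_ ?_⟩
    · simp only [Matrix.smul_apply, smul_eq_mul]
      field_simp
    · simp only [Matrix.smul_apply, smul_eq_mul]
      field_simp
      linarith
    · simp only [Matrix.smul_apply, smul_eq_mul]
      field_simp
      linarith
    · simp only [Matrix.smul_apply, smul_eq_mul, hC'1, hC1]
      field_simp

theorem comm_ent {A B : M2} (hA : A 1 1 = -A 0 0) (hB : B 1 1 = -B 0 0) :
    (A * B - B * A) 0 0 = A 0 1 * B 1 0 - A 1 0 * B 0 1 ∧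
    (A * B - B * A) 0 1 = 2 * (A 0 0 * B 0 1 - A 0 1 * B 0 0) ∧
    (A * B - B * A) 1 0 = 2 * (A 1 0 * B 0 0 - A 0 0 * B 1 0) ∧
    (A * B - B * A) 1 1 = -(A 0 1 * B 1 0 - A 1 0 * B 0 1) := by
  refine ⟨?_, ?_, ?_, ?_⟩ <;> simp only [Matrix.sub_apply, mm, hA, hB] <;> ring

theorem comm_par {n0 n1 n2 : ℝ} (hn : ¬(n0 = 0 ∧ n1 = 0 ∧ n2 = 0)) {A B : M2}
    (hA : A 1 1 = -A 0 0) (hB : B 1 1 = -B 0 0)
    (a2 : n0 * A 0 0 + n1 * A 0 1 + n2 * A 1 0 = 0)
    (b2 : n0 * B 0 0 + n1 * B 0 1 + n2 * B 1 0 = 0) :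
    ∃ c : ℝ, A * B - B * A = c • !![n0, 2 * n2; 2 * n1, -n0] := by
  obtain ⟨g0, g1, g2, g3⟩ := comm_ent hA hB
  have p01 : (A 0 1 * B 1 0 - A 1 0 * B 0 1) * n1 = (A 1 0 * B 0 0 - A 0 0 * B 1 0) * n0 := by
    linear_combination B 1 0 * a2 - A 1 0 * b2
  have p02 : (A 0 1 * B 1 0 - A 1 0 * B 0 1) * n2 = (A 0 0 * B 0 1 - A 0 1 * B 0 0) * n0 := by
    linear_combination -B 0 1 * a2 + A 0 1 * b2
  have p12 : (A 1 0 * B 0 0 - A 0 0 * B 1 0) * n2 = (A 0 0 * B 0 1 - A 0 1 * B 0 0) * n1 := by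
    linear_combination B 0 0 * a2 - A 0 0 * b2
  by_cases z0 : n0 = 0
  · by_cases z1 : n1 = 0
    · have z2 : n2 ≠ 0 := fun z2 => hn ⟨z0, z1, z2⟩
      refine ⟨(A 0 0 * B 0 1 - A 0 1 * B 0 0) / n2, m2ext ?_ ?_ ?_ ?_⟩
      · rw [g0]
        simp
        field_simp
        linarith
      · rw [g1]
        simp
        field_simp
      · rw [g2]
        simp
        field_simp
        linarith
      · rw [g3]
        simp
        field_simp
        linarith
    · refine ⟨(A 1 0 * B 0 0 - A 0 0 * B 1 0) / n1, m2ext ?_ ?_ ?_ ?_⟩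
      · rw [g0]
        simp
        field_simp
        linarith
      · rw [g1]
        simp
        field_simp
        linarith
      · rw [g2]
        simp
        field_simp
      · rw [g3]
        simp
        field_simp
        linarith
  · refine ⟨(A 0 1 * B 1 0 - A 1 0 * B 0 1) / n0, m2ext ?_ ?_ ?_ ?_⟩
    · rw [g0]
      simp
      field_simp
    · rw [g1]
      simp
      field_simp
      linarith
    · rw [g2]
      simp
      field_simp
      linarith
    · rw [g3]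
      simp
      field_simp
      try ring

/-- invariant subspaces of traceless matrices -/
theorem lie_top (hD : Wild D) (L : Submodule ℝ M2) (htr : ∀ X ∈ L, X 1 1 = -X 0 0)
    (hc : ∀ γ, ∀ X ∈ L, D γ * X * D γ⁻¹ ∈ L) {C : M2} (hC : C ∈ L) (hC0 : C ≠ 0) :
    ∀ Y : M2, Y 1 1 = -Y 0 0 → Y ∈ L := by
  have hC1 := htr C hC
  -- a conjugate which is not proportional
  obtain ⟨γ, hγ⟩ : ∃ γ, ∀ c : ℝ, D γ * C ≠ c • (C * D γ) := by
    by_contra hcon
    push Not at hcon
    exact hC0 (no_semi hD C hC1 hcon)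
  obtain ⟨C', hC'def⟩ : ∃ C', C' = D γ * C * D γ⁻¹ := ⟨_, rfl⟩
  have hC' : C' ∈ L := by rw [hC'def]; exact hc γ C hC
  have hC'1 := htr C' hC'
  have hC'2 : ∀ c : ℝ, C' ≠ c • C := by
    intro c hcc
    apply hγ c
    calc D γ * C = D γ * C * (D γ⁻¹ * D γ) := by rw [D_inv', mul_one]
      _ = C' * D γ := by rw [← mul_assoc, hC'def]
      _ = c • (C * D γ) := by rw [hcc, smul_mul_assoc]
  -- the cross product
  obtain ⟨n0, hn0⟩ : ∃ n0, n0 = C 0 1 * C' 1 0 - C 1 0 * C' 0 1 := ⟨_, rfl⟩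
  obtain ⟨n1, hn1⟩ : ∃ n1, n1 = C 1 0 * C' 0 0 - C 0 0 * C' 1 0 := ⟨_, rfl⟩
  obtain ⟨n2, hn2⟩ : ∃ n2, n2 = C 0 0 * C' 0 1 - C 0 1 * C' 0 0 := ⟨_, rfl⟩
  have hn : ¬(n0 = 0 ∧ n1 = 0 ∧ n2 = 0) := by
    rintro ⟨z0, z1, z2⟩
    obtain ⟨c, hcc⟩ := trl_par hC1 hC'1 hC0 (hn0 ▸ z0) (hn1 ▸ z1) (hn2 ▸ z2)
    exact hC'2 c hcc
  by_cases hX : ∃ X ∈ L, n0 * X 0 0 + n1 * X 0 1 + n2 * X 1 0 ≠ 0
  · obtain ⟨X, hXL, hXn⟩ := hX
    have hX1 := htr X hXL
    intro Y hY
    obtain ⟨δ, hδ⟩ : ∃ δ, δ = n0 * X 0 0 + n1 * X 0 1 + n2 * X 1 0 := ⟨_, rfl⟩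
    rw [← hδ] at hXn
    have e' : δ • Y = (Y 0 0 * (C' 0 1 * X 1 0 - C' 1 0 * X 0 1) +
        Y 0 1 * (C' 1 0 * X 0 0 - C' 0 0 * X 1 0) +
        Y 1 0 * (C' 0 0 * X 0 1 - C' 0 1 * X 0 0)) • C + (Y 0 0 * (X 0 1 * C 1 0 - X 1 0 * C 0 1) +
        Y 0 1 * (X 1 0 * C 0 0 - X 0 0 * C 1 0) + Y 1 0 * (X 0 0 * C 0 1 - X 0 1 * C 0 0)) • C' +
        (n0 * Y 0 0 + n1 * Y 0 1 + n2 * Y 1 0) • X := by
      apply m2ext
      · simp only [Matrix.smul_apply, Matrix.add_apply, smul_eq_mul, hδ, hn0, hn1, hn2]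
        ring
      · simp only [Matrix.smul_apply, Matrix.add_apply, smul_eq_mul, hδ, hn0, hn1, hn2]
        ring
      · simp only [Matrix.smul_apply, Matrix.add_apply, smul_eq_mul, hδ, hn0, hn1, hn2]
        ring
      · simp only [Matrix.smul_apply, Matrix.add_apply, smul_eq_mul, hδ, hn0, hn1, hn2,
          hY, hC1, hC'1, hX1]
        ring
    have e : Y = δ⁻¹ • (δ • Y) := by rw [smul_smul, inv_mul_cancel₀ hXn, one_smul]
    rw [e, e']
    exact L.smul_mem _ (L.add_mem (L.add_mem (L.smul_mem _ hC) (L.smul_mem _ hC'))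
      (L.smul_mem _ hXL))
  · push Not at hX
    exfalso
    -- the commutator
    have hNeq : C * C' - C' * C = !![n0, 2 * n2; 2 * n1, -n0] := by
      obtain ⟨f0, f1, f2, f3⟩ := comm_ent hC1 hC'1
      apply m2ext
      · rw [f0, hn0]; simp
      · rw [f1, hn2]; simp
      · rw [f2, hn1]; simp
      · rw [f3, hn0]; simp
    obtain ⟨N, hN⟩ : ∃ N : M2, N = !![n0, 2 * n2; 2 * n1, -n0] := ⟨_, rfl⟩
    rw [← hN] at hNeq
    have hN0 : N = 0 := by
      refine no_semi hD N ?_ fun g => ?_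
      · rw [hN]; simp
      · have k1 := hc g C hC
        have k2 := hc g C' hC'
        obtain ⟨A, hA⟩ : ∃ A, A = D g * C * D g⁻¹ := ⟨_, rfl⟩
        obtain ⟨B, hB⟩ : ∃ B, B = D g * C' * D g⁻¹ := ⟨_, rfl⟩
        rw [← hA] at k1
        rw [← hB] at k2
        have hconj : D g * N = (A * B - B * A) * D g := by
          have i1 : D g⁻¹ * D g = 1 := D_inv' D g
          have e1 : A * B * D g = D g * (C * C') := by
            calc A * B * D g = D g * C * (D g⁻¹ * D g) * C' * (D g⁻¹ * D g) := by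
                  rw [hA, hB]; noncomm_ring
              _ = D g * (C * C') := by rw [i1]; noncomm_ring
          have e2 : B * A * D g = D g * (C' * C) := by
            calc B * A * D g = D g * C' * (D g⁻¹ * D g) * C * (D g⁻¹ * D g) := by
                  rw [hA, hB]; noncomm_ring
              _ = D g * (C' * C) := by rw [i1]; noncomm_ring
          rw [sub_mul, e1, e2, ← hNeq]
          noncomm_ring
        obtain ⟨c, hcc⟩ := comm_par hn (htr A k1) (htr B k2) (hX A k1) (hX B k2)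
        refine ⟨c, ?_⟩
        rw [hconj, hcc, ← hN, smul_mul_assoc]
    apply hn
    rw [hN] at hN0
    have a0 := congrFun (congrFun hN0 0) 0
    have a1 := congrFun (congrFun hN0 0) 1
    have a2 := congrFun (congrFun hN0 1) 0
    simp at a0 a1 a2
    exact ⟨a0, a2, a1⟩

end

end Pool.Agent.Helper63.Mk
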