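import Pool.Agent.Helper63.Mk.Kn

/-!
Project Mk (helper63): the quotient by the lattice of translations.
-/

set_option autoImplicit false

open Set Filter Topology
open scoped Matrix

namespace Pool.Agent.Helper63.Mk

section
variable {W H : Type} [NormedAddCommGroup W] [NormedSpace ℝ W] [Group H]
  {D : H →* M2} {d : H → V2} {b : H → V2 →ₗ[ℝ] W} {a : H → W} {Ω : Set V2}

/-- the kernel as a subgroup -/
def Sk.Nk (S : Sk D d b a Ω) : Subgroup H where
  carrier := {γ | Ker D d γ}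
  one_mem' := S.ker_one
  mul_mem' := fun h h' => S.ker_mul h h'
  inv_mem' := fun h => S.ker_inv h

theorem Sk.mem_nk (S : Sk D d b a Ω) (γ : H) : γ ∈ S.Nk ↔ Ker D d γ := Iff.rfl

theorem Sk.nk_normal (S : Sk D d b a Ω) : S.Nk.Normal := by
  constructor
  intro n hn g
  rw [S.mem_nk] at hn ⊢
  refine ⟨?_, ?_⟩
  · rw [map_mul, map_mul, hn.1, mul_one, D_inv]
  · rw [S.hd, S.hd, map_mul, hn.1, hn.2, mul_one, Matrix.mulVec_zero, zero_add, d_inv S.hd]

/-- the lattice is cocompact in its span -/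
theorem lat_cocpt [FiniteDimensional ℝ W] (L : AddSubgroup W) :
    ∃ M : ℝ, ∀ y ∈ Submodule.span ℝ (L : Set W), ∃ l ∈ L, ‖y + l‖ ≤ M := by
  obtain ⟨t, htL, htspan, hli⟩ := exists_linearIndependent ℝ (L : Set W)
  have hfin : t.Finite := hli.setFinite
  obtain ⟨s, rfl⟩ : ∃ s : Finset W, (s : Set W) = t := ⟨hfin.toFinset, by simp⟩
  refine ⟨∑ x ∈ s, ‖x‖, fun y hy => ?_⟩
  rw [← htspan, Submodule.mem_span_finset] at hy
  obtain ⟨c, -, hc⟩ := hy
  refine ⟨-∑ x ∈ s, ⌊c x⌋ • x, L.neg_mem (L.sum_mem fun x hx => L.zsmul_mem (htL hx) _), ?_⟩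
  have e : y + -∑ x ∈ s, ⌊c x⌋ • x = ∑ x ∈ s, (c x - ⌊c x⌋) • x := by
    rw [← hc, ← sub_eq_add_neg, ← Finset.sum_sub_distrib]
    refine Finset.sum_congr rfl fun x _ => ?_
    rw [sub_smul, Int.cast_smul_eq_zsmul]
  rw [e]
  refine (norm_sum_le _ _).trans (Finset.sum_le_sum fun x _ => ?_)
  rw [norm_smul, Real.norm_eq_abs]
  have h1 : |c x - ⌊c x⌋| ≤ 1 := by
    rw [abs_le]
    have := Int.floor_le (c x)
    have := Int.lt_floor_add_one (c x)
    constructor <;> linarith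
  calc _ ≤ 1 * ‖x‖ := by gcongr
    _ = _ := one_mul _

/-- the translations in the kernel -/
def Sk.Tk (S : Sk D d b a Ω) : AddSubgroup W where
  carrier := {w | ∃ γ, Ker D d γ ∧ w = a γ}
  zero_mem' := ⟨1, S.ker_one, S.a_one.symm⟩
  add_mem' := by
    rintro _ _ ⟨γ, hγ, rfl⟩ ⟨δ, hδ, rfl⟩
    refine ⟨γ * δ, S.ker_mul hγ hδ, ?_⟩
    rw [S.ha, hδ.2, map_zero, add_zero, add_comm]
  neg_mem' := by
    rintro _ ⟨γ, hγ, rfl⟩
    refine ⟨γ⁻¹, S.ker_inv hγ, ?_⟩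
    have h2 := S.ha γ γ⁻¹
    rw [mul_inv_cancel, S.a_one, (S.ker_inv hγ).2, map_zero, add_zero] at h2
    exact (eq_neg_of_add_eq_zero_left h2.symm).symm

/-- **Reduction to faithful actions on the plane.** -/
theorem Sk.quot [FiniteDimensional ℝ W] (S : Sk D d b a Ω) (hD : Wild D)
    (key : ∀ (C : Type) [NormedAddCommGroup C] [NormedSpace ℝ C] [FiniteDimensional ℝ C]
      (H' : Type) [Group H'] (D' : H' →* M2) (d' : H' → V2) (b' : H' → V2 →ₗ[ℝ] C) (a' : H' → C),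
      Wild D' → Sk D' d' b' a' Ω → (∀ x, Ker D' d' x → x = 1) → Ω = univ) : Ω = univ := by
  have hnor := S.nk_normal
  -- the complement
  obtain ⟨C, hC⟩ := (Submodule.span ℝ (S.Tk : Set W)).exists_isCompl
  let q : W →ₗ[ℝ] C := C.projectionOnto _ hC.symm
  have hq0 : ∀ w ∈ Submodule.span ℝ (S.Tk : Set W), q w = 0 := fun w hw =>
    (Submodule.projectionOnto_apply_eq_zero_iff hC.symm).2 hw
  have hq1 : ∀ x : C, q x = x := fun x => Submodule.projectionOnto_apply_left hC.symm x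
  have hq2 : ∀ w : W, w - (q w : W) ∈ Submodule.span ℝ (S.Tk : Set W) := by
    intro w
    rw [← Submodule.projectionOnto_apply_eq_zero_iff hC.symm]
    show q (w - (q w : W)) = 0
    rw [map_sub, hq1, sub_self]
  have hqc : Continuous q := q.continuous_of_finiteDimensional
  -- the new data
  let D' : H ⧸ S.Nk →* M2 := QuotientGroup.lift S.Nk D (fun γ hγ => hγ.1)
  let d' : H ⧸ S.Nk → V2 := fun x => d x.out
  let b' : H ⧸ S.Nk → V2 →ₗ[ℝ] C := fun x => q ∘ₗ b x.out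
  let a' : H ⧸ S.Nk → C := fun x => q (a x.out)
  have hD' : ∀ γ : H, D' (γ : H ⧸ S.Nk) = D γ := fun γ => rfl
  have hout : ∀ γ : H, ∃ n, Ker D d n ∧ ((γ : H ⧸ S.Nk)).out = γ * n := by
    intro γ
    obtain ⟨n, hn⟩ := QuotientGroup.mk_out_eq_mul S.Nk γ
    exact ⟨n, n.2, hn⟩
  have hd' : ∀ γ : H, d' (γ : H ⧸ S.Nk) = d γ := by
    intro γ
    obtain ⟨n, hn, h⟩ := hout γ
    show d ((γ : H ⧸ S.Nk)).out = d γ
    rw [h, S.hd, hn.2, Matrix.mulVec_zero, zero_add]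
  have hb' : ∀ (γ : H) (v : V2), b' (γ : H ⧸ S.Nk) v = q (b γ v) := by
    intro γ v
    obtain ⟨n, hn, h⟩ := hout γ
    show q (b ((γ : H ⧸ S.Nk)).out v) = q (b γ v)
    rw [h, S.hb, S.b_ker hD hn, hn.1, Matrix.one_mulVec, zero_add]
  have ha' : ∀ γ : H, a' (γ : H ⧸ S.Nk) = q (a γ) := by
    intro γ
    obtain ⟨n, hn, h⟩ := hout γ
    show q (a ((γ : H ⧸ S.Nk)).out) = q (a γ)
    rw [h, S.ha, hn.2, map_zero, add_zero, map_add, hq0 _ (Submodule.subset_span ⟨n, hn, rfl⟩),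
      zero_add]
  refine key C (H ⧸ S.Nk) D' d' b' a' ⟨?_, ?_, ?_⟩ ⟨?_, ?_, ?_, S.op, S.con, ?_, ?_, ?_⟩ ?_
  · intro x
    obtain ⟨γ, rfl⟩ := QuotientGroup.mk_surjective x
    exact hD.det γ
  · intro K hK v hv
    have h1 : (K.comap (QuotientGroup.mk' S.Nk)).FiniteIndex := by
      constructor
      rw [Subgroup.index_comap_of_surjective K (QuotientGroup.mk'_surjective S.Nk)]
      exact hK.index_ne_zero
    obtain ⟨γ, hγ, h⟩ := hD.line _ h1 v hv
    exact ⟨(γ : H ⧸ S.Nk), hγ, h⟩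
  · intro R
    obtain ⟨γ, i, j, h⟩ := hD.unb R
    exact ⟨(γ : H ⧸ S.Nk), i, j, h⟩
  · intro x y
    obtain ⟨γ, rfl⟩ := QuotientGroup.mk_surjective x
    obtain ⟨δ, rfl⟩ := QuotientGroup.mk_surjective y
    rw [← QuotientGroup.mk_mul, hd', hd', hd', hD', S.hd]
  · intro x y v
    obtain ⟨γ, rfl⟩ := QuotientGroup.mk_surjective x
    obtain ⟨δ, rfl⟩ := QuotientGroup.mk_surjective y
    rw [← QuotientGroup.mk_mul, hb', hb', hb', hD', S.hb, map_add]
  · intro x y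
    obtain ⟨γ, rfl⟩ := QuotientGroup.mk_surjective x
    obtain ⟨δ, rfl⟩ := QuotientGroup.mk_surjective y
    rw [← QuotientGroup.mk_mul, ha', ha', ha', hb', hd', S.ha, map_add, map_add]
  · intro x v hv
    obtain ⟨γ, rfl⟩ := QuotientGroup.mk_surjective x
    rw [hD', hd']
    exact S.inv γ v hv
  · -- properness
    intro K hK hKΩ B
    obtain ⟨M, hM⟩ := lat_cocpt S.Tk
    refine ((S.pd K hK hKΩ (B + M)).image fun γ : H => (γ : H ⧸ S.Nk)).subset ?_
    rintro x ⟨v, hv, hxv, hB⟩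
    obtain ⟨γ, rfl⟩ := QuotientGroup.mk_surjective x
    rw [hD', hd'] at hxv
    rw [hb', ha', ← map_add] at hB
    obtain ⟨l, ⟨n, hn, rfl⟩, hl⟩ := hM _ (hq2 (b γ v + a γ))
    refine ⟨γ * n, ⟨v, hv, ?_, ?_⟩, ?_⟩
    · rw [map_mul, S.hd, hn.1, hn.2, mul_one, Matrix.mulVec_zero, zero_add]
      exact hxv
    · rw [S.hb, S.ha, hn.1, hn.2, S.b_ker hD hn, map_zero, Matrix.one_mulVec, zero_add, add_zero]
      have e : b γ v + (a n + a γ) = (q (b γ v + a γ) : W) +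
          (b γ v + a γ - (q (b γ v + a γ) : W) + a n) := by abel
      rw [e]
      exact (norm_add_le _ _).trans (add_le_add hB hl)
    · rw [QuotientGroup.eq]
      have : (γ * n)⁻¹ * γ = n⁻¹ := by group
      rw [this]
      exact S.ker_inv hn
  · obtain ⟨K, hK, hKΩ, B, hc⟩ := S.cc
    let Q : W →L[ℝ] C := ⟨q, hqc⟩
    refine ⟨K, hK, hKΩ, ‖Q‖ * B, fun v hv w => ?_⟩
    obtain ⟨γ, h1, h2⟩ := hc v hv (w : W)
    refine ⟨(γ : H ⧸ S.Nk), ?_, ?_⟩
    · rw [hD', hd']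
      exact h1
    · rw [hb', ha', ← map_add]
      have e : w + q (b γ v + a γ) = Q ((w : W) + (b γ v + a γ)) := by
        show w + q (b γ v + a γ) = q ((w : W) + (b γ v + a γ))
        rw [map_add q (w : W), hq1]
      rw [e]
      exact (Q.le_opNorm _).trans (mul_le_mul_of_nonneg_left h2 (norm_nonneg _))
  · intro x hx
    obtain ⟨γ, rfl⟩ := QuotientGroup.mk_surjective x
    have h1 : Ker D d γ := ⟨hx.1, by rw [← hd' γ]; exact hx.2⟩
    exact (QuotientGroup.eq_one_iff γ).2 h1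

end

end Pool.Agent.Helper63.Mk
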