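import Pool.Agent.Helper63.Mk.Qn

/-!
Project Mk (helper63): discrete groups of the plane with translations.
-/

set_option autoImplicit false

open Set Filter Topology
open scoped Matrix

namespace Pool.Agent.Helper63.Mk

section form
variable {H : Type} [Group H] {D : H →* M2}

/-- wild groups preserve no symmetric form -/
theorem form_zero (hD : Wild D) (G : M2) (hs : G 0 1 = G 1 0)
    (h : ∀ γ, (D γ)ᵀ * G * D γ = G) : G = 0 := by
  have h1 := no_semi hD !![-G 1 0, -G 1 1; G 0 0, G 0 1] (by simp [hs]) fun γ => by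
    refine ⟨(D γ).det, ?_⟩
    have e00 := congrFun (congrFun (h γ) 0) 0
    have e01 := congrFun (congrFun (h γ) 0) 1
    have e10 := congrFun (congrFun (h γ) 1) 0
    have e11 := congrFun (congrFun (h γ) 1) 1
    rw [mm, mm, mm] at e00 e01 e10 e11
    simp only [Matrix.transpose_apply] at e00 e01 e10 e11
    rw [Matrix.det_fin_two]
    apply m2ext
    · rw [mm, Matrix.smul_apply, mm, smul_eq_mul]
      simp
      linear_combination (D γ 0 0) * e10 - (D γ 0 1) * e00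
    · rw [mm, Matrix.smul_apply, mm, smul_eq_mul]
      simp
      linear_combination (D γ 0 0) * e11 - (D γ 0 1) * e01
    · rw [mm, Matrix.smul_apply, mm, smul_eq_mul]
      simp
      linear_combination (D γ 1 0) * e10 - (D γ 1 1) * e00
    · rw [mm, Matrix.smul_apply, mm, smul_eq_mul]
      simp
      linear_combination (D γ 1 0) * e11 - (D γ 1 1) * e01
  have a00 := congrFun (congrFun h1 0) 0
  have a01 := congrFun (congrFun h1 0) 1
  have a10 := congrFun (congrFun h1 1) 0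
  have a11 := congrFun (congrFun h1 1) 1
  simp at a00 a01 a10 a11
  exact m2ext a10 a11 a00 a01

end form

section
variable {W H : Type} [NormedAddCommGroup W] [NormedSpace ℝ W] [Group H]
  {D : H →* M2} {d : H → V2} {b : H → V2 →ₗ[ℝ] W} {a : H → W} {Ω : Set V2}

theorem norm_aff_zero (x : V2) : ‖aff 0 x 0‖ ≤ ‖x‖ := by
  refine ContinuousLinearMap.opNorm_le_bound _ (norm_nonneg _) fun p => ?_
  rw [aff_apply, Matrix.zero_mulVec, zero_add, zero_mul, Prod.norm_def, norm_zero, norm_smul,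
    max_eq_left (by positivity), mul_comm]
  exact mul_le_mul_of_nonneg_left (norm_snd_le p) (norm_nonneg _)

/-- the data of the translations -/
structure Tdata (S : Sk D d b a Ω) : Prop where
  faith : ∀ x, Ker D d x → x = 1
  disc : ∃ ε : ℝ, 0 < ε ∧ ∀ γ, D γ = 1 → ‖d γ‖ < ε → γ = 1

theorem Sk.tdata (S : Sk D d b a Ω) (hf : ∀ x, Ker D d x → x = 1)
    (hd : ∃ ε : ℝ, 0 < ε ∧ ∀ γ, ‖rp D d S.hd γ - 1‖ < ε → rp D d S.hd γ = 1) : Tdata S := by
  refine ⟨hf, ?_⟩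
  obtain ⟨ε, hε, h⟩ := hd
  refine ⟨ε, hε, fun γ hγ hd => hf γ ⟨hγ, ?_⟩⟩
  have h1 : rp D d S.hd γ - 1 = aff 0 (d γ) 0 := by
    rw [rp_apply, hγ, ← aff_one, sub_eq_iff_eq_add, aff_add]
    simp
  have h2 := h γ (by rw [h1]; exact (norm_aff_zero _).trans_lt hd)
  rw [h2, sub_self] at h1
  have h3 := congrArg tra h1
  rw [tra_aff] at h3
  rw [← h3]
  show ((0 : AA) (0, 1)).1 = 0
  rfl

theorem Sk.d_tmul (S : Sk D d b a Ω) {γ δ : H} (hγ : D γ = 1) : d (γ * δ) = d γ + d δ := by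
  rw [S.hd, hγ, Matrix.one_mulVec, add_comm]

theorem Sk.d_tinv (S : Sk D d b a Ω) {γ : H} (hγ : D γ = 1) : d γ⁻¹ = -d γ := by
  have := d_inv S.hd γ
  rw [hγ, Matrix.one_mulVec] at this
  exact eq_neg_of_add_eq_zero_left this

theorem t_inv {γ : H} (hγ : D γ = 1) : D γ⁻¹ = 1 := by
  have := D_inv D γ
  rwa [hγ, one_mul] at this

theorem Tdata.finite {S : Sk D d b a Ω} (T : Tdata S) (R : ℝ) :
    {γ | D γ = 1 ∧ ‖d γ‖ ≤ R}.Finite := by
  by_contra hcon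
  obtain ⟨ε, hε, hdisc⟩ := T.disc
  have hinf : {γ | D γ = 1 ∧ ‖d γ‖ ≤ R}.Infinite := hcon
  let f := hinf.natEmbedding
  have hf : ∀ n, D (f n : H) = 1 ∧ ‖d (f n : H)‖ ≤ R := fun n => (f n).2
  have hK : IsCompact (Metric.closedBall (0 : V2) R) := isCompact_closedBall 0 R
  obtain ⟨x, -, φ, hφ, hlim⟩ := hK.tendsto_subseq (x := fun n => d (f n : H))
    (fun n => by rw [mem_closedBall_zero_iff]; exact (hf n).2)
  have hc := hlim.cauchySeq
  rw [Metric.cauchySeq_iff] at hc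
  obtain ⟨N, hN⟩ := hc ε hε
  have h1 := hN N le_rfl (N + 1) (Nat.le_succ N)
  rw [dist_eq_norm] at h1
  have h2 := hdisc ((f (φ N) : H) * (f (φ (N + 1)) : H)⁻¹) (by
    rw [map_mul, (hf _).1, t_inv (hf _).1, one_mul]) (by
    rw [S.d_tmul (hf _).1, S.d_tinv (hf _).1, ← sub_eq_add_neg]
    exact h1)
  have h3 : (f (φ N) : H) = (f (φ (N + 1)) : H) := mul_inv_eq_one.1 h2
  have h4 := f.injective (Subtype.ext h3)
  exact absurd (hφ.injective h4) (Nat.ne_of_lt (Nat.lt_succ_self N))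

theorem Tdata.comm {S : Sk D d b a Ω} (T : Tdata S) {γ δ : H} (hγ : D γ = 1) (hδ : D δ = 1) :
    γ * δ = δ * γ := by
  have h1 : Ker D d (γ * δ * (δ * γ)⁻¹) := by
    have h2 : D (δ * γ) = 1 := by rw [map_mul, hγ, hδ, one_mul]
    have h3 : D (γ * δ) = 1 := by rw [map_mul, hγ, hδ, one_mul]
    refine ⟨by rw [map_mul, h3, t_inv h2, one_mul], ?_⟩
    rw [S.d_tmul h3, S.d_tinv h2, S.d_tmul hγ, S.d_tmul hδ, add_comm (d δ), add_neg_cancel]
  exact mul_inv_eq_one.1 (T.faith _ h1)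

/-- additive functions of the powers -/
theorem add_pow {M : Type} [AddCommGroup M] {f : H → M}
    (hf : ∀ γ δ, D γ = 1 → D δ = 1 → f (γ * δ) = f γ + f δ) {γ : H} (hγ : D γ = 1) (n : ℤ) :
    D (γ ^ n) = 1 ∧ f (γ ^ n) = n • f γ := by
  have h1 : f 1 = 0 := by
    have := hf 1 1 (map_one D) (map_one D)
    rw [mul_one] at this
    simpa using this
  have hnat : ∀ n : ℕ, D (γ ^ n) = 1 ∧ f (γ ^ n) = n • f γ := by
    intro n
    induction n with
    | zero => simpa using h1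
    | succ n ih =>
      refine ⟨by rw [pow_succ, map_mul, ih.1, hγ, one_mul], ?_⟩
      rw [pow_succ, hf _ _ ih.1 hγ, ih.2, succ_nsmul]
  cases n with
  | ofNat k => simpa using hnat k
  | negSucc k =>
    obtain ⟨h2, h3⟩ := hnat (k + 1)
    rw [zpow_negSucc]
    refine ⟨t_inv h2, ?_⟩
    have h4 := hf (γ ^ (k + 1))⁻¹ (γ ^ (k + 1)) (t_inv h2) h2
    rw [inv_mul_cancel, h1, h3] at h4
    rw [eq_neg_of_add_eq_zero_left h4.symm]
    simp

/-- additive functions of the translations are linear in the translation -/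
theorem Tdata.lat {S : Sk D d b a Ω} (T : Tdata S) {M : Type} [AddCommGroup M] [Module ℝ M]
    {f : H → M} (hf : ∀ γ δ, D γ = 1 → D δ = 1 → f (γ * δ) = f γ + f δ)
    {γ1 γ2 : H} (h1 : D γ1 = 1) (h2 : D γ2 = 1)
    (hne : d γ1 0 * d γ2 1 - d γ1 1 * d γ2 0 ≠ 0) {γ : H} (hγ : D γ = 1) {x1 x2 : ℝ}
    (hx : d γ = x1 • d γ1 + x2 • d γ2) : f γ = x1 • f γ1 + x2 • f γ2 := by
  have hd : ∀ γ δ, D γ = 1 → D δ = 1 → d (γ * δ) = d γ + d δ := fun γ δ hγ _ => S.d_tmul hγ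
  let g : ℕ → H := fun q => γ ^ (q : ℤ) * (γ1 ^ (-⌊(q : ℝ) * x1⌋) * γ2 ^ (-⌊(q : ℝ) * x2⌋))
  have hg1 : ∀ q, D (g q) = 1 := by
    intro q
    simp only [g, map_mul]
    rw [(add_pow hd hγ _).1, (add_pow hd h1 _).1, (add_pow hd h2 _).1, one_mul, one_mul]
  have hgf : ∀ {M : Type} [AddCommGroup M] [Module ℝ M] (f : H → M)
      (_ : ∀ γ δ, D γ = 1 → D δ = 1 → f (γ * δ) = f γ + f δ) (q : ℕ),
      f (g q) = (q : ℝ) • f γ - ((⌊(q : ℝ) * x1⌋ : ℝ) • f γ1 + (⌊(q : ℝ) * x2⌋ : ℝ) • f γ2) := by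
    intro M _ _ f hf q
    have k1 := add_pow hf hγ (q : ℤ)
    have k2 := add_pow hf h1 (-⌊(q : ℝ) * x1⌋)
    have k3 := add_pow hf h2 (-⌊(q : ℝ) * x2⌋)
    show f (γ ^ (q : ℤ) * (γ1 ^ (-⌊(q : ℝ) * x1⌋) * γ2 ^ (-⌊(q : ℝ) * x2⌋))) = _
    rw [hf _ _ k1.1 (by rw [map_mul, k2.1, k3.1, one_mul]), hf _ _ k2.1 k3.1, k1.2, k2.2, k3.2,
      ← Int.cast_smul_eq_zsmul ℝ, ← Int.cast_smul_eq_zsmul ℝ, ← Int.cast_smul_eq_zsmul ℝ]
    push_cast
    module
  have hgd : ∀ q, ‖d (g q)‖ ≤ ‖d γ1‖ + ‖d γ2‖ := by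
    intro q
    rw [hgf d hd q, hx]
    have e : (q : ℝ) • (x1 • d γ1 + x2 • d γ2) -
        ((⌊(q : ℝ) * x1⌋ : ℝ) • d γ1 + (⌊(q : ℝ) * x2⌋ : ℝ) • d γ2) =
        ((q : ℝ) * x1 - ⌊(q : ℝ) * x1⌋) • d γ1 + ((q : ℝ) * x2 - ⌊(q : ℝ) * x2⌋) • d γ2 := by
      module
    rw [e]
    have hfl : ∀ y : ℝ, |y - ⌊y⌋| ≤ 1 := by
      intro y
      rw [abs_le]
      have := Int.floor_le y
      have := Int.lt_floor_add_one y
      constructor <;> linarith
    refine (norm_add_le _ _).trans (add_le_add ?_ ?_)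
    · rw [norm_smul, Real.norm_eq_abs]
      exact mul_le_of_le_one_left (norm_nonneg _) (hfl _)
    · rw [norm_smul, Real.norm_eq_abs]
      exact mul_le_of_le_one_left (norm_nonneg _) (hfl _)
  -- pigeon hole
  have hfin := T.finite (‖d γ1‖ + ‖d γ2‖)
  obtain ⟨q, q', hqq, hg⟩ : ∃ q q' : ℕ, q ≠ q' ∧ g q = g q' := by
    by_contra hcon
    push Not at hcon
    have hinj : Function.Injective g := by
      intro q q' h
      by_contra hne
      exact hcon q q' hne h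
    exact (infinite_range_of_injective hinj) (hfin.subset (by
      rintro _ ⟨q, rfl⟩
      exact ⟨hg1 q, hgd q⟩))
  -- the relation
  obtain ⟨m1, hm1⟩ : ∃ m1 : ℝ, m1 = (⌊(q : ℝ) * x1⌋ : ℝ) - ⌊(q' : ℝ) * x1⌋ := ⟨_, rfl⟩
  obtain ⟨m2, hm2⟩ : ∃ m2 : ℝ, m2 = (⌊(q : ℝ) * x2⌋ : ℝ) - ⌊(q' : ℝ) * x2⌋ := ⟨_, rfl⟩
  have hrel : ∀ {M : Type} [AddCommGroup M] [Module ℝ M] (f : H → M)
      (_ : ∀ γ δ, D γ = 1 → D δ = 1 → f (γ * δ) = f γ + f δ),
      ((q : ℝ) - q') • f γ = m1 • f γ1 + m2 • f γ2 := by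
    intro M _ _ f hf
    have k := hgf f hf q
    rw [hg, hgf f hf q'] at k
    rw [hm1, hm2]
    have k' := sub_eq_zero.2 k
    rw [← sub_eq_zero]
    have e : ((q : ℝ) - q') • f γ - (((⌊(q : ℝ) * x1⌋ : ℝ) - ⌊(q' : ℝ) * x1⌋) • f γ1 +
        ((⌊(q : ℝ) * x2⌋ : ℝ) - ⌊(q' : ℝ) * x2⌋) • f γ2) =
        -((q' : ℝ) • f γ - ((⌊(q' : ℝ) * x1⌋ : ℝ) • f γ1 + (⌊(q' : ℝ) * x2⌋ : ℝ) • f γ2) -
        ((q : ℝ) • f γ - ((⌊(q : ℝ) * x1⌋ : ℝ) • f γ1 + (⌊(q : ℝ) * x2⌋ : ℝ) • f γ2))) := by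
      module
    rw [e, k', neg_zero]
  have hq0 : (q : ℝ) - q' ≠ 0 := by
    intro h
    apply hqq
    exact_mod_cast (sub_eq_zero.1 h)
  have hrd := hrel d hd
  rw [hx] at hrd
  have a0 := congrFun hrd 0
  have a1 := congrFun hrd 1
  simp only [Pi.smul_apply, Pi.add_apply, smul_eq_mul] at a0 a1
  have c1 : ((q : ℝ) - q') * x1 = m1 := by
    have : (((q : ℝ) - q') * x1 - m1) * (d γ1 0 * d γ2 1 - d γ1 1 * d γ2 0) = 0 := by
      linear_combination (d γ2 1) * a0 - (d γ2 0) * a1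
    exact sub_eq_zero.1 ((mul_eq_zero.1 this).resolve_right hne)
  have c2 : ((q : ℝ) - q') * x2 = m2 := by
    have : (((q : ℝ) - q') * x2 - m2) * (d γ1 0 * d γ2 1 - d γ1 1 * d γ2 0) = 0 := by
      linear_combination (d γ1 0) * a1 - (d γ1 1) * a0
    exact sub_eq_zero.1 ((mul_eq_zero.1 this).resolve_right hne)
  have hr := hrel f hf
  rw [← c1, ← c2, mul_smul, mul_smul, ← smul_add] at hr
  exact smul_right_injective M hq0 hr

/-- **The case with translations.** -/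
theorem Sk.with_trans [FiniteDimensional ℝ W] (S : Sk D d b a Ω) (hD : Wild D) (T : Tdata S)
    {γ1 : H} (h1 : D γ1 = 1) (hne1 : γ1 ≠ 1) : Ω = univ := by
  have hd1 : d γ1 ≠ 0 := fun h => hne1 (T.faith _ ⟨h1, h⟩)
  obtain ⟨h, -, hh⟩ := hD.line ⊤ inferInstance _ hd1
  -- conjugation
  have hconjD : ∀ (g γ : H), D γ = 1 → D (g * γ * g⁻¹) = 1 := by
    intro g γ hγ
    rw [map_mul, map_mul, hγ, mul_one, D_inv]
  have hconjd : ∀ (g γ : H), D γ = 1 → d (g * γ * g⁻¹) = D g *ᵥ d γ := by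
    intro g γ hγ
    rw [S.hd, S.hd, map_mul, hγ, mul_one]
    have := d_inv S.hd g
    calc D g *ᵥ d g⁻¹ + (D g *ᵥ d γ + d g) = (D g *ᵥ d g⁻¹ + d g) + D g *ᵥ d γ := by abel
      _ = _ := by rw [this, zero_add]
  obtain ⟨γ2, hγ2⟩ : ∃ γ2, γ2 = h * γ1 * h⁻¹ := ⟨_, rfl⟩
  have h2 : D γ2 = 1 := by rw [hγ2]; exact hconjD h γ1 h1
  have hd2 : d γ2 = D h *ᵥ d γ1 := by rw [hγ2]; exact hconjd h γ1 h1
  obtain ⟨Δ, hΔ⟩ : ∃ Δ : ℝ, Δ = d γ1 0 * d γ2 1 - d γ1 1 * d γ2 0 := ⟨_, rfl⟩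
  have hne : d γ1 0 * d γ2 1 - d γ1 1 * d γ2 0 ≠ 0 := by
    intro h0
    obtain ⟨c, hc⟩ := par (u := d γ1) (w := d γ2) hd1 (by linarith)
    exact hh c (by rw [← hd2]; exact hc)
  rw [← hΔ] at hne
  -- coordinates
  let x1 : V2 →ₗ[ℝ] ℝ :=
    { toFun := fun v => (v 0 * d γ2 1 - v 1 * d γ2 0) / Δ
      map_add' := by intro u v; simp only [Pi.add_apply]; ring
      map_smul' := by intro c v; simp only [Pi.smul_apply, smul_eq_mul, RingHom.id_apply]; ring }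
  let x2 : V2 →ₗ[ℝ] ℝ :=
    { toFun := fun v => (d γ1 0 * v 1 - d γ1 1 * v 0) / Δ
      map_add' := by intro u v; simp only [Pi.add_apply]; ring
      map_smul' := by intro c v; simp only [Pi.smul_apply, smul_eq_mul, RingHom.id_apply]; ring }
  have hx : ∀ v : V2, v = x1 v • d γ1 + x2 v • d γ2 := by
    intro v
    apply v2ext
    · show v 0 = (v 0 * d γ2 1 - v 1 * d γ2 0) / Δ * d γ1 0 + (d γ1 0 * v 1 - d γ1 1 * v 0) / Δ * d γ2 0
      field_simp
      rw [hΔ]; ring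
    · show v 1 = (v 0 * d γ2 1 - v 1 * d γ2 0) / Δ * d γ1 1 + (d γ1 0 * v 1 - d γ1 1 * v 0) / Δ * d γ2 1
      field_simp
      rw [hΔ]; ring
  -- additivity
  have hbadd : ∀ γ δ, D γ = 1 → D δ = 1 → b (γ * δ) = b γ + b δ := by
    intro γ δ _ hδ
    apply LinearMap.ext
    intro v
    rw [S.hb, hδ, Matrix.one_mulVec, LinearMap.add_apply, add_comm]
  have hblat : ∀ γ, D γ = 1 → b γ = x1 (d γ) • b γ1 + x2 (d γ) • b γ2 := fun γ hγ =>
    T.lat hbadd h1 h2 (by rw [← hΔ]; exact hne) hγ (hx (d γ))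
  -- symmetry
  have hsym : ∀ γ δ, D γ = 1 → D δ = 1 → b γ (d δ) = b δ (d γ) := by
    intro γ δ hγ hδ
    have k := congrArg a (T.comm hγ hδ)
    rw [S.ha, S.ha] at k
    have : a δ + b γ (d δ) + a γ = a δ + b δ (d γ) + a γ := by rw [k]; abel
    exact add_left_cancel (add_right_cancel this)
  -- conjugation
  have hconjb : ∀ (g γ : H), D γ = 1 → ∀ v, b (g * γ * g⁻¹) (D g *ᵥ v) = b γ v := by
    intro g γ hγ v
    rw [S.hb, S.hb, hγ, Matrix.one_mulVec, Matrix.mulVec_mulVec, D_inv', Matrix.one_mulVec]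
    have k := S.hb g⁻¹ g v
    rw [inv_mul_cancel, S.b_one] at k
    calc b g⁻¹ (D g *ᵥ v) + (b γ v + b g v) = (b g v + b g⁻¹ (D g *ᵥ v)) + b γ v := by abel
      _ = b γ v := by rw [← k, zero_add]
  -- the form
  let B : V2 → V2 → W := fun v u => x1 v • b γ1 u + x2 v • b γ2 u
  have hB : ∀ v u, B v u = x1 v • b γ1 u + x2 v • b γ2 u := fun _ _ => rfl
  have hBd : ∀ γ, D γ = 1 → ∀ u, B (d γ) u = b γ u := by
    intro γ hγ u
    rw [hB]
    conv_rhs => rw [hblat γ hγ]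
    rfl
  have hBexp : ∀ v u, B v u = (x1 v * x1 u) • b γ1 (d γ1) + (x1 v * x2 u) • b γ1 (d γ2) +
      ((x2 v * x1 u) • b γ1 (d γ2) + (x2 v * x2 u) • b γ2 (d γ2)) := by
    intro v u
    rw [hB]
    conv_lhs => rw [hx u]
    rw [map_add, map_smul, map_smul, map_add, map_smul, map_smul, hsym γ2 γ1 h2 h1]
    simp only [smul_add, smul_smul]
  have hBsym : ∀ v u, B v u = B u v := by
    intro v u
    rw [hBexp, hBexp, mul_comm (x1 v) (x1 u), mul_comm (x1 v) (x2 u), mul_comm (x2 v) (x1 u),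
      mul_comm (x2 v) (x2 u)]
    abel
  have hBadd : ∀ u v v', B u (v + v') = B u v + B u v' := by
    intro u v v'
    rw [hB, hB, hB, map_add, map_add, smul_add, smul_add]; abel
  have hBsm : ∀ (c : ℝ) u v, B u (c • v) = c • B u v := by
    intro c u v
    rw [hB, hB, map_smul, map_smul, smul_add, smul_comm c, smul_comm c]
  have hBadd' : ∀ u u' v, B (u + u') v = B u v + B u' v := by
    intro u u' v
    rw [hBsym, hBadd, hBsym v u, hBsym v u']
  have hBsm' : ∀ (c : ℝ) u v, B (c • u) v = c • B u v := by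
    intro c u v
    rw [hBsym, hBsm, hBsym v u]
  have hBinv : ∀ g v u, B (D g *ᵥ v) (D g *ᵥ u) = B v u := by
    intro g v u
    have k1 : ∀ γ, D γ = 1 → B (D g *ᵥ d γ) (D g *ᵥ u) = B (d γ) u := by
      intro γ hγ
      rw [← hconjd g γ hγ, hBd _ (hconjD g γ hγ), hconjb g γ hγ, hBd γ hγ]
    rw [hx v, Matrix.mulVec_add, Matrix.mulVec_smul, Matrix.mulVec_smul, hBadd', hBsm', hBsm',
      k1 γ1 h1, k1 γ2 h2, hBadd', hBsm', hBsm']
  have hexp2 : ∀ v : V2, v = v 0 • ![1, 0] + v 1 • ![0, 1] := by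
    intro v
    apply v2ext <;> simp
  have hB0 : ∀ v u, B v u = 0 := by
    intro v u
    rw [← Module.forall_dual_apply_eq_zero_iff ℝ]
    intro μ
    let G : M2 := !![μ (B ![1, 0] ![1, 0]), μ (B ![1, 0] ![0, 1]);
      μ (B ![0, 1] ![1, 0]), μ (B ![0, 1] ![0, 1])]
    have hG : ∀ v u : V2, μ (B v u) = v 0 * (G 0 0 * u 0 + G 0 1 * u 1) +
        v 1 * (G 1 0 * u 0 + G 1 1 * u 1) := by
      intro v u
      conv_lhs => rw [hexp2 v, hexp2 u]
      rw [hBadd', hBsm', hBsm', hBadd, hBadd, hBsm, hBsm, hBsm, hBsm]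
      simp only [map_add, map_smul, smul_eq_mul]
      simp [G]
      ring
    have hG0 : G = 0 := by
      refine form_zero hD G ?_ fun g => ?_
      · simp [G, hBsym ![1, 0] ![0, 1]]
      · have k : ∀ v u : V2, (D g *ᵥ v) 0 * (G 0 0 * (D g *ᵥ u) 0 + G 0 1 * (D g *ᵥ u) 1) +
            (D g *ᵥ v) 1 * (G 1 0 * (D g *ᵥ u) 0 + G 1 1 * (D g *ᵥ u) 1) =
            v 0 * (G 0 0 * u 0 + G 0 1 * u 1) + v 1 * (G 1 0 * u 0 + G 1 1 * u 1) := by
          intro v u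
          rw [← hG, ← hG, hBinv]
        simp only [mv0, mv1] at k
        apply m2ext
        · have := k ![1, 0] ![1, 0]
          simp at this
          rw [mm, mm, mm]
          simp only [Matrix.transpose_apply]
          linear_combination this
        · have := k ![1, 0] ![0, 1]
          simp at this
          rw [mm, mm, mm]
          simp only [Matrix.transpose_apply]
          linear_combination this
        · have := k ![0, 1] ![1, 0]
          simp at this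
          rw [mm, mm, mm]
          simp only [Matrix.transpose_apply]
          linear_combination this
        · have := k ![0, 1] ![0, 1]
          simp at this
          rw [mm, mm, mm]
          simp only [Matrix.transpose_apply]
          linear_combination this
    rw [hG, hG0]
    simp
  have hb0 : ∀ γ, D γ = 1 → ∀ v, b γ v = 0 := by
    intro γ hγ v
    rw [← hBd γ hγ, hB0]
  -- the complement
  have haadd : ∀ γ δ, D γ = 1 → D δ = 1 → a (γ * δ) = a γ + a δ := by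
    intro γ δ hγ _
    rw [S.ha, hb0 γ hγ, add_zero, add_comm]
  have halat : ∀ γ, D γ = 1 → a γ = x1 (d γ) • a γ1 + x2 (d γ) • a γ2 := fun γ hγ =>
    T.lat haadd h1 h2 (by rw [← hΔ]; exact hne) hγ (hx (d γ))
  have hconja : ∀ (g γ : H), D γ = 1 → a (g * γ * g⁻¹) = a γ + b g (d γ) := by
    intro g γ hγ
    rw [S.ha, S.ha, S.hb, hγ, Matrix.one_mulVec, hb0 γ hγ, zero_add]
    have k := S.ha g g⁻¹
    rw [mul_inv_cancel, S.a_one] at k
    calc a g⁻¹ + b g (d g⁻¹) + (a γ + b g (d γ) + a g) =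
        (a g⁻¹ + b g (d g⁻¹) + a g) + (a γ + b g (d γ)) := by abel
      _ = _ := by rw [← k, zero_add]
  let c : V2 →ₗ[ℝ] W := x1.smulRight (a γ1) + x2.smulRight (a γ2)
  have hc : ∀ γ, D γ = 1 → c (d γ) = a γ := by
    intro γ hγ
    rw [halat γ hγ]
    rfl
  refine S.compl hD.det c fun g v => ?_
  have k1 : ∀ γ, D γ = 1 → b g (d γ) = c (D g *ᵥ d γ) - c (d γ) := by
    intro γ hγ
    rw [← hconjd g γ hγ, hc _ (hconjD g γ hγ), hc γ hγ, hconja g γ hγ, add_sub_cancel_left]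
  rw [hx v, map_add, map_smul, map_smul, k1 γ1 h1, k1 γ2 h2, Matrix.mulVec_add,
    Matrix.mulVec_smul, Matrix.mulVec_smul, map_add c (x1 v • D g *ᵥ d γ1), map_smul, map_smul,
    map_add c (x1 v • d γ1), map_smul, map_smul, smul_sub, smul_sub]
  abel

end

end Pool.Agent.Helper63.Mk
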