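import Pool.Agent.Helper63.Mk.Tn

/-!
Project Mk (helper63): discrete groups of the plane without translations have discrete linear parts.
-/

set_option autoImplicit false

open Set Filter Topology NormedSpace
open scoped Matrix

namespace Pool.Agent.Helper63.Mk

section est

variable {Γ : Type} [Group Γ] {A : Type} [NormedRing A] (h1 : ‖(1 : A)‖ ≤ 1) (R : Γ →* A)

include h1

theorem inv_est {s : Γ} (hs : ‖R s - 1‖ ≤ 1 / 2) :
    ‖R s⁻¹‖ ≤ 2 ∧ ‖R s⁻¹ - 1‖ ≤ 2 * ‖R s - 1‖ := by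
  have e : R s⁻¹ - 1 = -(R s⁻¹ * (R s - 1)) := by
    rw [mul_sub, ← map_mul, inv_mul_cancel, map_one, mul_one]
    abel
  have h2 : ‖R s⁻¹ - 1‖ ≤ ‖R s⁻¹‖ * ‖R s - 1‖ := by
    rw [e, norm_neg]
    exact norm_mul_le _ _
  have h3 : ‖R s⁻¹‖ ≤ 2 := by
    have h4 : ‖R s⁻¹‖ ≤ ‖R s⁻¹ - 1‖ + ‖(1 : A)‖ := by
      have : R s⁻¹ = (R s⁻¹ - 1) + 1 := by abel
      calc ‖R s⁻¹‖ = ‖(R s⁻¹ - 1) + 1‖ := by rw [← this]
        _ ≤ _ := norm_add_le _ _
    nlinarith [norm_nonneg (R s⁻¹)]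
  exact ⟨h3, h2.trans (mul_le_mul_of_nonneg_right h3 (norm_nonneg _))⟩

theorem comm_est {s c : Γ} (hs : ‖R s - 1‖ ≤ 1 / 2) (hc : ‖R c - 1‖ ≤ 1 / 2) :
    ‖R (s * c * s⁻¹ * c⁻¹) - 1‖ ≤ 8 * ‖R s - 1‖ * ‖R c - 1‖ := by
  have e : R (s * c * s⁻¹ * c⁻¹) - 1 =
      ((R s - 1) * (R c - 1) - (R c - 1) * (R s - 1)) * R s⁻¹ * R c⁻¹ := by
    have e1 : R s * R s⁻¹ = 1 := by rw [← map_mul, mul_inv_cancel, map_one]
    have e2 : R c * R c⁻¹ = 1 := by rw [← map_mul, mul_inv_cancel, map_one]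
    have e3 : (R s - 1) * (R c - 1) - (R c - 1) * (R s - 1) = R s * R c - R c * R s := by
      noncomm_ring
    rw [e3, map_mul, map_mul, map_mul, sub_mul, sub_mul]
    congr 1
    calc (1 : A) = R c * R c⁻¹ := e2.symm
      _ = R c * (R s * R s⁻¹) * R c⁻¹ := by rw [e1, mul_one]
      _ = R c * R s * R s⁻¹ * R c⁻¹ := by noncomm_ring
  rw [e]
  have h2 := (inv_est h1 R hs).1
  have h3 := (inv_est h1 R hc).1
  have h4 : ‖(R s - 1) * (R c - 1) - (R c - 1) * (R s - 1)‖ ≤ 2 * ‖R s - 1‖ * ‖R c - 1‖ := by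
    refine (norm_sub_le _ _).trans ?_
    have h5 := norm_mul_le (R s - 1) (R c - 1)
    have h6 := norm_mul_le (R c - 1) (R s - 1)
    linarith
  calc _ ≤ ‖((R s - 1) * (R c - 1) - (R c - 1) * (R s - 1)) * R s⁻¹‖ * ‖R c⁻¹‖ :=
        norm_mul_le _ _
    _ ≤ (‖(R s - 1) * (R c - 1) - (R c - 1) * (R s - 1)‖ * ‖R s⁻¹‖) * ‖R c⁻¹‖ :=
        mul_le_mul_of_nonneg_right (norm_mul_le _ _) (norm_nonneg _)
    _ ≤ ((2 * ‖R s - 1‖ * ‖R c - 1‖) * 2) * 2 := by
        gcongr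
    _ = 8 * ‖R s - 1‖ * ‖R c - 1‖ := by ring

end est

section mat

/-- conjugates which commute -/
theorem conj_comm {X Y Y' : M2} (hYY' : Y * Y' = 1) (hY'Y : Y' * Y = 1)
    (htr : (X 0 0 + X 1 1) ^ 2 ≠ 4 * X.det) (hY : Y 0 0 + Y 1 1 ≠ 0)
    (hc : X * (Y * X * Y') = (Y * X * Y') * X) : Y * X = X * Y := by
  obtain ⟨s, hs⟩ : ∃ s, s = (X 0 0 + X 1 1) / 2 := ⟨_, rfl⟩
  obtain ⟨E, hE⟩ : ∃ E : M2, E = X - s • (1 : M2) := ⟨_, rfl⟩
  have hE0 : E 1 1 = -E 0 0 := by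
    rw [hE, hs]
    simp
    ring
  have hEdet : E.det ≠ 0 := by
    intro h
    apply htr
    have h1 : E.det = X.det - s ^ 2 := by
      rw [hE, hs, Matrix.det_fin_two, Matrix.det_fin_two]
      simp
      ring
    rw [h1, hs] at h
    linarith
  obtain ⟨F, hF⟩ : ∃ F : M2, F = Y * E * Y' := ⟨_, rfl⟩
  have hFX : F = Y * X * Y' - s • (1 : M2) := by
    rw [hF, hE, mul_sub, sub_mul, mul_smul_comm, smul_mul_assoc, mul_one, hYY']
  have hFtr : F 1 1 = -F 0 0 := by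
    have h1 : F.trace = E.trace := by
      rw [hF, Matrix.trace_mul_comm, ← mul_assoc, hY'Y, one_mul]
    rw [Matrix.trace_fin_two, Matrix.trace_fin_two, hE0] at h1
    linarith
  have hcomm : E * F = F * E := by
    rw [hFX, hE]
    have e1 : (X - s • (1 : M2)) * (Y * X * Y' - s • (1 : M2)) =
        X * (Y * X * Y') - s • X - s • (Y * X * Y') + (s * s) • (1 : M2) := by
      rw [sub_mul, mul_sub, mul_sub, mul_smul_comm, smul_mul_assoc, mul_one, one_mul,
        smul_mul_assoc, mul_smul_comm, mul_one, smul_smul]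
      abel
    have e2 : (Y * X * Y' - s • (1 : M2)) * (X - s • (1 : M2)) =
        (Y * X * Y') * X - s • (Y * X * Y') - s • X + (s * s) • (1 : M2) := by
      rw [sub_mul, mul_sub, mul_sub, mul_smul_comm, smul_mul_assoc, mul_one, one_mul,
        smul_mul_assoc, mul_smul_comm, mul_one, smul_smul]
      abel
    rw [e1, e2, hc]
    abel
  have hEne : E ≠ 0 := by
    rintro h
    apply hEdet
    rw [h, Matrix.det_fin_two]
    simp
  obtain ⟨k0, k1, k2, k3⟩ := comm_ent hE0 hFtr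
  rw [hcomm, sub_self] at k0 k1 k2
  simp only [Matrix.zero_apply] at k0 k1 k2
  obtain ⟨c, hcc⟩ := trl_par hE0 hFtr hEne k0.symm (by linarith) (by linarith)
  have hYE : Y * E = c • (E * Y) := by
    have h1 : F * Y = Y * E := by rw [hF, mul_assoc, hY'Y, mul_one]
    rw [← h1, hcc, smul_mul_assoc]
  have hdet1 : F.det = E.det := by
    have hd : Y.det * Y'.det = 1 := by rw [← Matrix.det_mul, hYY', Matrix.det_one]
    rw [hF, Matrix.det_mul, Matrix.det_mul]
    linear_combination E.det * hd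
  rw [hcc, Matrix.det_smul, Fintype.card_fin] at hdet1
  have hc2 : (c - 1) * (c + 1) = 0 := by
    have : (c ^ 2 - 1) * E.det = 0 := by linear_combination hdet1
    have := (mul_eq_zero.1 this).resolve_right hEdet
    linear_combination this
  rcases mul_eq_zero.1 hc2 with h | h
  · have hc1 : c = 1 := by linarith
    rw [hc1, one_smul] at hYE
    have hX : X = E + s • (1 : M2) := by rw [hE]; abel
    rw [hX, mul_add, add_mul, hYE, mul_smul_comm, smul_mul_assoc, mul_one, one_mul]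
  · exfalso
    have hc1 : c = -1 := by linarith
    rw [hc1] at hYE
    -- the trace of Y vanishes
    have hEE : E * E = (-E.det) • (1 : M2) := by
      apply m2ext
      · rw [mm, Matrix.det_fin_two, hE0]; simp; ring
      · rw [mm, Matrix.det_fin_two, hE0]; simp; ring
      · rw [mm, Matrix.det_fin_two, hE0]; simp; ring
      · rw [mm, Matrix.det_fin_two, hE0]; simp; ring
    have h1 : (Y * E * E).trace = -(Y * E * E).trace := by
      conv_lhs => rw [hYE]
      rw [smul_mul_assoc, Matrix.trace_smul, Matrix.trace_mul_comm, ← mul_assoc,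
        Matrix.trace_mul_comm, ← mul_assoc]
      simp
    have h2 : (Y * E * E).trace = -E.det * (Y 0 0 + Y 1 1) := by
      rw [mul_assoc, hEE, mul_smul_comm, mul_one, Matrix.trace_smul, Matrix.trace_fin_two,
        smul_eq_mul]
    rw [h2] at h1
    have h3 : E.det * (Y 0 0 + Y 1 1) = 0 := by linarith
    rcases mul_eq_zero.1 h3 with h4 | h4
    · exact hEdet h4
    · exact hY h4

end mat

theorem aff_cont {α : Type} [TopologicalSpace α] {A : α → M2} {x : α → V2} (hA : Continuous A)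
    (hx : Continuous x) (s : ℝ) : Continuous fun t => aff (A t) (x t) s := by
  have h : (fun t => aff (A t) (x t) s) = affL s ∘ fun t => (A t, x t) := rfl
  rw [h]
  exact (affL_cont s).comp (hA.prodMk hx)

section
variable {H : Type} [Group H] {D : H →* M2}

/-- the linear representation -/
noncomputable def rl (D : H →* M2) : H →* AA :=
  rp D (fun _ => 0) (fun _ _ => by rw [Matrix.mulVec_zero, add_zero])

theorem rl_apply (γ : H) : rl D γ = aff (D γ) 0 1 := rfl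

theorem rl_one {γ : H} (h : rl D γ = 1) : D γ = 1 := by
  have := congrArg lin h
  rwa [rl_apply, lin_aff, ← aff_one, lin_aff] at this

theorem norm_one_AA : ‖(1 : AA)‖ ≤ 1 := by
  rw [norm_one]

theorem abs_lin_le (T : AA) (i j : Fin 2) : |lin T i j| ≤ ‖T‖ := by
  have h1 : ‖T (Pi.single j 1, 0)‖ ≤ ‖T‖ * ‖((Pi.single j 1, 0) : V2 × ℝ)‖ := T.le_opNorm _
  have h2 : ‖((Pi.single j 1, 0) : V2 × ℝ)‖ = 1 := by
    rw [Prod.norm_def, norm_zero]
    have : ‖(Pi.single j 1 : V2)‖ = 1 := by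
      rw [Pi.norm_single]; simp
    rw [this]
    simp
  rw [h2, mul_one] at h1
  have h3 : ‖(T (Pi.single j 1, 0)).1‖ ≤ ‖T (Pi.single j 1, 0)‖ := norm_fst_le _
  have h4 := norm_le_pi_norm (T (Pi.single j 1, 0)).1 i
  rw [Real.norm_eq_abs] at h4
  exact h4.trans (h3.trans h1)

/-- nondiscrete linear parts: noncommuting small elements -/
theorem small_pair (hD : Wild D)
    (hnd : ∀ ε : ℝ, 0 < ε → ∃ γ, rl D γ ≠ 1 ∧ ‖rl D γ - 1‖ < ε) :
    ∃ g1 g2 : H, ‖rl D g1 - 1‖ < 1 / 32 ∧ ‖rl D g2 - 1‖ < 1 / 32 ∧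
      D g1 0 0 + D g1 1 1 ≠ 2 ∧ D g1 * D g2 ≠ D g2 * D g1 := by
  obtain ⟨ξ, hξ, hξ0⟩ := lie_ne hnd
  have htra : ∀ η ∈ Lie (rl D), tra η = 0 := by
    intro η hη
    have h1 := exp_smul_tendsto η
    have h2 := (tra_cont.tendsto η).comp h1
    refine tendsto_nhds_unique h2 ?_
    have h3 : ∀ T : AA, T ∈ Cl (rl D) → tra T = 0 := by
      intro T hT
      have hcl : IsClosed {T : AA | tra T = 0} := isClosed_eq tra_cont continuous_const
      refine closure_minimal ?_ hcl hT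
      rintro _ ⟨γ, rfl⟩
      exact tra_aff _ _ _
    refine tendsto_const_nhds.congr fun n => ?_
    have h4 := h3 _ (hη ((n : ℝ)⁻¹))
    show (0 : V2) = (((n : ℝ) • (exp ((n : ℝ)⁻¹ • η) - 1) : AA) (0, 1)).1
    have h5 : (exp ((n : ℝ)⁻¹ • η) (0, 1) : V2 × ℝ).1 = 0 := h4
    have h6 : (((n : ℝ) • (exp ((n : ℝ)⁻¹ • η) - 1) : AA) (0, 1)).1 =
        (n : ℝ) • ((exp ((n : ℝ)⁻¹ • η) (0, 1) : V2 × ℝ).1 - ((0, 1) : V2 × ℝ).1) := rfl
    rw [h6, h5]
    simp
  let L : Submodule ℝ M2 :=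
    { carrier := {A | aff A 0 0 ∈ Lie (rl D)}
      zero_mem' := by
        show aff 0 0 0 ∈ Lie (rl D)
        rw [aff_zero]; exact Submodule.zero_mem _
      add_mem' := by
        intro a b ha hb
        show aff (a + b) 0 0 ∈ Lie (rl D)
        have := (Lie (rl D)).add_mem ha hb
        rwa [aff_add, add_zero, add_zero] at this
      smul_mem' := by
        intro c a ha
        show aff (c • a) 0 0 ∈ Lie (rl D)
        have := (Lie (rl D)).smul_mem c ha
        rwa [aff_smul, smul_zero, mul_zero] at this }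
  have hall : ∀ Y : M2, Y 1 1 = -Y 0 0 → aff Y 0 0 ∈ Lie (rl D) := by
    have hs := lie_shape _ hξ
    rw [htra ξ hξ] at hs
    refine lie_top hD L ?_ ?_ (C := lin ξ) (by
      show aff (lin ξ) 0 0 ∈ Lie (rl D)
      rw [← hs]; exact hξ) ?_
    · intro X hX
      have := lie_trace _ hD.det (show aff X 0 0 ∈ Lie (rl D) from hX)
      rwa [lin_aff] at this
    · intro γ X hX
      have h1 := lie_conj (show aff X 0 0 ∈ Lie (rl D) from hX) γ
      rw [rl_apply, rl_apply, aff_mul, aff_mul] at h1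
      show aff (D γ * X * D γ⁻¹) 0 0 ∈ Lie (rl D)
      simpa using h1
    · intro h0
      rw [h0, aff_zero] at hs
      exact hξ0 hs
  -- unipotents
  have hu : ∀ t : ℝ, aff !![1, t; 0, 1] 0 1 ∈ Cl (rl D) := by
    intro t
    have h1 := hall !![0, t; 0, 0] (by simp) 1
    rw [one_smul, exp_sq_zero (by
      rw [aff_mul]
      have : (!![0, t; 0, 0] * !![0, t; 0, 0] : M2) = 0 := by
        apply m2ext <;> simp
      rw [this]
      simpa using aff_zero), ← aff_one, aff_add] at h1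
    have e : (1 + !![0, t; 0, 0] : M2) = !![1, t; 0, 1] := by
      apply m2ext <;> simp
    rw [e] at h1
    simpa using h1
  have hl : ∀ t : ℝ, aff !![1, 0; t, 1] 0 1 ∈ Cl (rl D) := by
    intro t
    have h1 := hall !![0, 0; t, 0] (by simp) 1
    rw [one_smul, exp_sq_zero (by
      rw [aff_mul]
      have : (!![0, 0; t, 0] * !![0, 0; t, 0] : M2) = 0 := by
        apply m2ext <;> simp
      rw [this]
      simpa using aff_zero), ← aff_one, aff_add] at h1
    have e : (1 + !![0, 0; t, 0] : M2) = !![1, 0; t, 1] := by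
      apply m2ext <;> simp
    rw [e] at h1
    simpa using h1
  have hx : ∀ t : ℝ, aff !![1 + t * t, t; t, 1] 0 1 ∈ Cl (rl D) := by
    intro t
    have h1 := cl_mul (hu t) (hl t)
    rw [aff_mul] at h1
    have e : (!![1, t; 0, 1] * !![1, 0; t, 1] : M2) = !![1 + t * t, t; t, 1] := by
      apply m2ext <;> simp
    rw [e] at h1
    simpa using h1
  -- small parameters
  have c1 : Continuous fun t : ℝ => aff !![1, t; 0, 1] 0 1 := by
    refine aff_cont ?_ continuous_const 1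
    refine continuous_matrix fun i j => ?_
    fin_cases i <;> fin_cases j <;> simp <;> fun_prop
  have c2 : Continuous fun t : ℝ => aff !![1 + t * t, t; t, 1] 0 1 := by
    refine aff_cont ?_ continuous_const 1
    refine continuous_matrix fun i j => ?_
    fin_cases i <;> fin_cases j <;> simp <;> fun_prop
  have e1 : ∀ᶠ t : ℝ in 𝓝 0, ‖aff !![1, t; 0, 1] 0 1 - 1‖ < 1 / 32 := by
    have h1 : Continuous fun t : ℝ => ‖aff !![1, t; 0, 1] 0 1 - 1‖ := (c1.sub continuous_const).norm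
    have h2 : ‖aff !![1, (0 : ℝ); 0, 1] 0 1 - 1‖ = 0 := by
      have : (!![1, (0 : ℝ); 0, 1] : M2) = 1 := by apply m2ext <;> simp
      rw [this, aff_one, sub_self, norm_zero]
    have h3 := h1.tendsto 0
    rw [h2] at h3
    exact h3.eventually_lt_const (by norm_num)
  have e2 : ∀ᶠ t : ℝ in 𝓝 0, ‖aff !![1 + t * t, t; t, 1] 0 1 - 1‖ < 1 / 32 := by
    have h1 : Continuous fun t : ℝ => ‖aff !![1 + t * t, t; t, 1] 0 1 - 1‖ :=
      (c2.sub continuous_const).norm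
    have h2 : ‖aff !![1 + (0 : ℝ) * 0, (0 : ℝ); 0, 1] 0 1 - 1‖ = 0 := by
      have : (!![1 + (0 : ℝ) * 0, (0 : ℝ); 0, 1] : M2) = 1 := by apply m2ext <;> simp
      rw [this, aff_one, sub_self, norm_zero]
    have h3 := h1.tendsto 0
    rw [h2] at h3
    exact h3.eventually_lt_const (by norm_num)
  obtain ⟨t, ht1, ht2, ht0⟩ : ∃ t : ℝ, ‖aff !![1, t; 0, 1] 0 1 - 1‖ < 1 / 32 ∧
      ‖aff !![1 + t * t, t; t, 1] 0 1 - 1‖ < 1 / 32 ∧ t ≠ 0 := by
    have h1 : ∀ᶠ t : ℝ in 𝓝[≠] 0, ‖aff !![1, t; 0, 1] 0 1 - 1‖ < 1 / 32 ∧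
      ‖aff !![1 + t * t, t; t, 1] 0 1 - 1‖ < 1 / 32 ∧ t ≠ 0 := by
      filter_upwards [nhdsWithin_le_nhds e1, nhdsWithin_le_nhds e2, self_mem_nhdsWithin] with t a b c
      exact ⟨a, b, c⟩
    exact h1.exists
  -- approximation
  obtain ⟨X1, hX1⟩ : ∃ X : M2, X = !![1 + t * t, t; t, 1] := ⟨_, rfl⟩
  obtain ⟨X2, hX2⟩ : ∃ X : M2, X = !![1, t; 0, 1] := ⟨_, rfl⟩
  have hne : X1 * X2 ≠ X2 * X1 := by
    intro h
    have h1 := congrFun (congrFun h 0) 0
    rw [mm, mm, hX1, hX2] at h1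
    simp at h1
    exact ht0 h1
  have hlc : Continuous fun T : AA => lin T := lin_cont
  have hU2 : {T : AA | X1 * lin T ≠ lin T * X1} ∩ {T : AA | ‖T - 1‖ < 1 / 32} ∈
      𝓝 (aff X2 0 1) := by
    refine inter_mem ?_ ?_
    · have ho : IsOpen {T : AA | X1 * lin T ≠ lin T * X1} :=
        isOpen_ne_fun (continuous_const.matrix_mul hlc) (hlc.matrix_mul continuous_const)
      refine ho.mem_nhds ?_
      show X1 * lin (aff X2 0 1) ≠ lin (aff X2 0 1) * X1
      rw [lin_aff]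
      exact hne
    · have ho : IsOpen {T : AA | ‖T - 1‖ < 1 / 32} :=
        isOpen_lt (by fun_prop) continuous_const
      refine ho.mem_nhds ?_
      rw [hX2]
      exact ht1
  have hm2 : aff X2 0 1 ∈ closure (range (rl D)) := by rw [hX2]; exact hu t
  obtain ⟨_, ⟨hg2a, hg2b⟩, ⟨g2, rfl⟩⟩ := mem_closure_iff_nhds.1 hm2 _ hU2
  have hg2a' : X1 * D g2 ≠ D g2 * X1 := by
    have h : X1 * lin (rl D g2) ≠ lin (rl D g2) * X1 := hg2a
    rwa [rl_apply, lin_aff] at h
  have hU1 : ({T : AA | lin T * D g2 ≠ D g2 * lin T} ∩ {T : AA | ‖T - 1‖ < 1 / 32}) ∩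
      {T : AA | lin T 0 0 + lin T 1 1 ≠ 2} ∈ 𝓝 (aff X1 0 1) := by
    refine inter_mem (inter_mem ?_ ?_) ?_
    · have ho : IsOpen {T : AA | lin T * D g2 ≠ D g2 * lin T} :=
        isOpen_ne_fun (hlc.matrix_mul continuous_const) (continuous_const.matrix_mul hlc)
      refine ho.mem_nhds ?_
      show lin (aff X1 0 1) * D g2 ≠ D g2 * lin (aff X1 0 1)
      rw [lin_aff]
      exact hg2a'
    · have ho : IsOpen {T : AA | ‖T - 1‖ < 1 / 32} :=
        isOpen_lt (by fun_prop) continuous_const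
      refine ho.mem_nhds ?_
      rw [hX1]
      exact ht2
    · have ho : IsOpen {T : AA | lin T 0 0 + lin T 1 1 ≠ 2} := by
        refine isOpen_ne_fun ?_ continuous_const
        exact (hlc.matrix_elem 0 0).add (hlc.matrix_elem 1 1)
      refine ho.mem_nhds ?_
      show lin (aff X1 0 1) 0 0 + lin (aff X1 0 1) 1 1 ≠ 2
      rw [lin_aff, hX1]
      simp
      intro h
      apply ht0
      nlinarith
  have hm1 : aff X1 0 1 ∈ closure (range (rl D)) := by rw [hX1]; exact hx t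
  obtain ⟨_, ⟨⟨hg1a, hg1b⟩, hg1c⟩, ⟨g1, rfl⟩⟩ := mem_closure_iff_nhds.1 hm1 _ hU1
  have hg1a' : D g1 * D g2 ≠ D g2 * D g1 := by
    have h : lin (rl D g1) * D g2 ≠ D g2 * lin (rl D g1) := hg1a
    rwa [rl_apply, lin_aff] at h
  have hg1c' : D g1 0 0 + D g1 1 1 ≠ 2 := by
    have h : lin (rl D g1) 0 0 + lin (rl D g1) 1 1 ≠ 2 := hg1c
    rwa [rl_apply, lin_aff] at h
  exact ⟨g1, g2, hg1b, hg2b, hg1c', hg1a'⟩

/-- matrices close to one -/
theorem near_one {A : M2} (h : ∀ i j, |A i j - (1 : M2) i j| ≤ 1 / 8) (hd : |A.det| = 1) :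
    A.det = 1 ∧ 0 < A 0 0 + A 1 1 := by
  have a00 := abs_le.1 (h 0 0)
  have a01 := abs_le.1 (h 0 1)
  have a10 := abs_le.1 (h 1 0)
  have a11 := abs_le.1 (h 1 1)
  simp at a00 a01 a10 a11
  refine ⟨?_, by linarith⟩
  have hpos : 0 < A.det := by
    rw [Matrix.det_fin_two]
    nlinarith
  rwa [abs_of_pos hpos] at hd

variable {d : H → V2}

/-- **Discreteness of the linear parts.** -/
theorem disc_lin (hD : Wild D) (hd : ∀ γ δ, d (γ * δ) = D γ *ᵥ d δ + d γ)
    (hT : ∀ γ, D γ = 1 → γ = 1)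
    (hdisc : ∃ ε : ℝ, 0 < ε ∧ ∀ γ, ‖rp D d hd γ - 1‖ < ε → rp D d hd γ = 1) :
    ∃ ε : ℝ, 0 < ε ∧ ∀ γ, ‖rl D γ - 1‖ < ε → γ = 1 := by
  by_contra hcon
  push Not at hcon
  obtain ⟨g1, g2, n1, n2, htr, hnc⟩ := small_pair hD (fun ε hε => by
    obtain ⟨γ, h1, h2⟩ := hcon ε hε
    exact ⟨γ, fun h => h2 (hT γ (rl_one h)), h1⟩)
  obtain ⟨ε, hε, hdisc⟩ := hdisc
  -- the rescaled representations
  have hds : ∀ s : ℝ, ∀ γ δ, s • d (γ * δ) = D γ *ᵥ (s • d δ) + s • d γ := by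
    intro s γ δ
    rw [hd, smul_add, Matrix.mulVec_smul]
  have hlim : ∀ γ, Tendsto (fun s : ℝ => ‖rp D (fun γ => s • d γ) (hds s) γ - 1‖) (𝓝[≠] 0)
      (𝓝 ‖rl D γ - 1‖) := by
    intro γ
    have h1 : Continuous fun s : ℝ => ‖aff (D γ) (s • d γ) 1 - 1‖ := by
      have h2 : Continuous fun s : ℝ => aff (D γ) (s • d γ) 1 :=
        aff_cont continuous_const (continuous_id.smul continuous_const) 1
      exact (h2.sub continuous_const).norm
    have h2 := h1.tendsto 0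
    rw [zero_smul] at h2
    exact h2.mono_left nhdsWithin_le_nhds
  obtain ⟨s, hs1, hs2, hs0⟩ : ∃ s : ℝ, ‖rp D (fun γ => s • d γ) (hds s) g1 - 1‖ < 1 / 32 ∧
      ‖rp D (fun γ => s • d γ) (hds s) g2 - 1‖ < 1 / 32 ∧ s ≠ 0 := by
    have h1 := (hlim g1).eventually_lt_const n1
    have h2 := (hlim g2).eventually_lt_const n2
    have h3 : ∀ᶠ s : ℝ in 𝓝[≠] 0, ‖rp D (fun γ => s • d γ) (hds s) g1 - 1‖ < 1 / 32 ∧
      ‖rp D (fun γ => s • d γ) (hds s) g2 - 1‖ < 1 / 32 ∧ s ≠ 0 := by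
      filter_upwards [h1, h2, self_mem_nhdsWithin] with s a b c
      exact ⟨a, b, c⟩
    exact h3.exists
  obtain ⟨R, hR⟩ : ∃ R : H →* AA, R = rp D (fun γ => s • d γ) (hds s) := ⟨_, rfl⟩
  have hRa : ∀ γ, R γ = aff (D γ) (s • d γ) 1 := fun γ => by rw [hR]; rfl
  rw [← hR] at hs1 hs2
  -- discreteness of the rescaled group
  obtain ⟨M, hM0, hM⟩ : ∃ M : ℝ, 0 < M ∧ ∀ γ, ‖rp D d hd γ - 1‖ ≤ M * ‖R γ - 1‖ := by
    refine ⟨‖aff (s⁻¹ • (1 : M2)) 0 1‖ * ‖aff (s • (1 : M2)) 0 1‖ + 1, by positivity, fun γ => ?_⟩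
    have e : rp D d hd γ - 1 = aff (s⁻¹ • (1 : M2)) 0 1 * (R γ - 1) * aff (s • (1 : M2)) 0 1 := by
      have e1 : aff (s⁻¹ • (1 : M2)) 0 1 * R γ * aff (s • (1 : M2)) 0 1 = rp D d hd γ := by
        rw [hRa, aff_mul, aff_mul, rp_apply]
        congr 1
        · rw [smul_mul_assoc, one_mul, mul_smul_comm, mul_one, smul_smul, mul_inv_cancel₀ hs0,
            one_smul]
        · rw [Matrix.mulVec_zero, zero_add, Matrix.smul_mulVec, Matrix.one_mulVec, smul_zero,
            add_zero, one_smul, smul_smul, inv_mul_cancel₀ hs0, one_smul]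
        · norm_num
      have e2 : aff (s⁻¹ • (1 : M2)) 0 1 * aff (s • (1 : M2)) 0 1 = 1 := by
        rw [aff_mul, ← aff_one]
        congr 1
        · rw [smul_mul_assoc, one_mul, smul_smul, inv_mul_cancel₀ hs0, one_smul]
        · rw [Matrix.mulVec_zero, smul_zero, add_zero]
        · norm_num
      rw [mul_sub, sub_mul, e1, mul_one, e2]
    rw [e]
    refine (norm_mul_le _ _).trans ?_
    have h1 := norm_mul_le (aff (s⁻¹ • (1 : M2)) 0 1) (R γ - 1)
    have h2 := norm_nonneg (aff (s • (1 : M2)) 0 1)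
    have h3 := norm_nonneg (R γ - 1)
    calc _ ≤ (‖aff (s⁻¹ • (1 : M2)) 0 1‖ * ‖R γ - 1‖) * ‖aff (s • (1 : M2)) 0 1‖ :=
          mul_le_mul_of_nonneg_right h1 h2
      _ ≤ _ := by nlinarith
  -- iterated commutators
  let c : ℕ → H := fun n => Nat.rec g2 (fun _ x => g1 * x * g1⁻¹ * x⁻¹) n
  have c0 : c 0 = g2 := rfl
  have cs : ∀ n, c (n + 1) = g1 * c n * g1⁻¹ * (c n)⁻¹ := fun n => rfl
  have hcn : ∀ n, ‖R (c n) - 1‖ ≤ 1 / 32 * (1 / 2) ^ n := by
    intro n
    induction n with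
    | zero => rw [c0]; simpa using hs2.le
    | succ n ih =>
      have hp : (1 / 2 : ℝ) ^ n ≤ 1 := pow_le_one₀ (by norm_num) (by norm_num)
      have h1 := comm_est norm_one_AA R (s := g1) (c := c n) (by linarith) (by linarith)
      rw [cs]
      refine h1.trans ?_
      rw [pow_succ]
      have h2 : 8 * ‖R g1 - 1‖ ≤ 1 / 2 := by linarith
      calc 8 * ‖R g1 - 1‖ * ‖R (c n) - 1‖ ≤ 1 / 2 * ‖R (c n) - 1‖ :=
            mul_le_mul_of_nonneg_right h2 (norm_nonneg _)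
        _ ≤ 1 / 2 * (1 / 32 * (1 / 2) ^ n) := by linarith
        _ = _ := by ring
  have hone : ∃ n, c n = 1 := by
    obtain ⟨n, hn⟩ := exists_pow_lt_of_lt_one (show 0 < ε / M by positivity)
      (show (1 / 2 : ℝ) < 1 by norm_num)
    refine ⟨n, hT _ ?_⟩
    have h1 : ‖rp D d hd (c n) - 1‖ < ε := by
      refine (hM _).trans_lt ?_
      have h2 := hcn n
      have h3 : (0 : ℝ) < (1 / 2) ^ n := by positivity
      rw [lt_div_iff₀ hM0] at hn
      nlinarith
    have h2 := congrArg lin (hdisc _ h1)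
    rwa [rp_apply, lin_aff, ← aff_one, lin_aff] at h2
  -- entries
  have hent : ∀ γ, ‖R γ - 1‖ ≤ 1 / 32 → ∀ i j, |D γ i j - (1 : M2) i j| ≤ 1 / 8 := by
    intro γ hγ i j
    have h1 := abs_lin_le (R γ - 1) i j
    have h2 : lin (R γ - 1) i j = D γ i j - (1 : M2) i j := by
      have h3 : R γ - 1 = aff (D γ - 1) (s • d γ) 0 := by
        rw [hRa, ← aff_one, sub_eq_iff_eq_add, aff_add]
        simp
      rw [h3, lin_aff]
      rfl
    rw [h2] at h1
    linarith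
  obtain ⟨hg1d, -⟩ := near_one (hent g1 hs1.le) (hD.det g1)
  have hstep : ∀ n, c (n + 2) = 1 → c (n + 1) = 1 := by
    intro n hn
    have h1 : g1 * c (n + 1) = c (n + 1) * g1 := by
      rw [cs (n + 1)] at hn
      have h2 : g1 * c (n + 1) * g1⁻¹ = c (n + 1) := mul_inv_eq_one.1 hn
      calc g1 * c (n + 1) = g1 * c (n + 1) * g1⁻¹ * g1 := by group
        _ = _ := by rw [h2]
    -- g1 commutes with c n * g1⁻¹ * (c n)⁻¹
    have h2 : g1 * (c n * g1 * (c n)⁻¹) = (c n * g1 * (c n)⁻¹) * g1 := by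
      have h3 : c (n + 1) = g1 * (c n * g1 * (c n)⁻¹)⁻¹ := by rw [cs]; group
      rw [h3] at h1
      have h4 : g1 * (c n * g1 * (c n)⁻¹)⁻¹ = (c n * g1 * (c n)⁻¹)⁻¹ * g1 := by
        have h5 : g1 * (g1 * (c n * g1 * (c n)⁻¹)⁻¹) = g1 * ((c n * g1 * (c n)⁻¹)⁻¹ * g1) := by
          rw [h1, mul_assoc]
        exact mul_left_cancel h5
      have h6 : Commute g1 (c n * g1 * (c n)⁻¹)⁻¹ := h4
      exact (Commute.inv_right_iff.1 h6).eq
    have h3 := congrArg D h2
    simp only [map_mul] at h3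
    have hp : (1 / 2 : ℝ) ^ n ≤ 1 := pow_le_one₀ (by norm_num) (by norm_num)
    obtain ⟨-, hpos⟩ := near_one (hent (c n) ((hcn n).trans (by linarith))) (hD.det _)
    have h4 := conj_comm (X := D g1) (Y := D (c n)) (Y' := D (c n)⁻¹) (D_inv D _) (D_inv' D _)
      (by
        rw [hg1d]
        intro h5
        obtain ⟨-, hpos1⟩ := near_one (hent g1 hs1.le) (hD.det g1)
        apply htr
        nlinarith) hpos.ne' h3
    apply hT
    rw [cs, map_mul, map_mul, map_mul, ← h4, mul_assoc (D (c n)), D_inv, mul_one, D_inv]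
  have hfin : ∀ n, c (n + 1) = 1 → c 1 = 1 := by
    intro n
    induction n with
    | zero => exact fun h => h
    | succ n ih => exact fun h => ih (hstep n h)
  obtain ⟨n, hn⟩ := hone
  have hn1 : c (n + 1) = 1 := by rw [cs, hn]; group
  have h1 : g1 * g2 * g1⁻¹ * g2⁻¹ = 1 := hfin n hn1
  have h2 : g1 * g2 * g1⁻¹ = g2 := mul_inv_eq_one.1 h1
  apply hnc
  rw [← map_mul, ← map_mul]
  congr 1
  calc g1 * g2 = g1 * g2 * g1⁻¹ * g1 := by group
    _ = g2 * g1 := by rw [h2]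

/-- finiteness of the bounded elements -/
theorem fin_bdd (hD : Wild D) (hdisc : ∃ ε : ℝ, 0 < ε ∧ ∀ γ, ‖rl D γ - 1‖ < ε → γ = 1) (M : ℝ) :
    {γ : H | ∀ i j, |D γ i j| ≤ M}.Finite := by
  by_contra hcon
  obtain ⟨ε, hε, hdisc⟩ := hdisc
  have hinf : {γ : H | ∀ i j, |D γ i j| ≤ M}.Infinite := hcon
  let f := hinf.natEmbedding
  have hf : ∀ n i j, |D (f n : H) i j| ≤ M := fun n => (f n).2
  let u : ℕ → (Fin 2 → Fin 2 → ℝ) := fun n i j => D (f n : H) i j
  have hu : ∀ n, u n ∈ Metric.closedBall (0 : Fin 2 → Fin 2 → ℝ) |M| := by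
    intro n
    rw [mem_closedBall_zero_iff, pi_norm_le_iff_of_nonneg (abs_nonneg _)]
    intro i
    rw [pi_norm_le_iff_of_nonneg (abs_nonneg _)]
    intro j
    exact (hf n i j).trans (le_abs_self M)
  obtain ⟨X, -, φ, hφ, hlim⟩ := (isCompact_closedBall _ _).tendsto_subseq hu
  have hlim' : Tendsto (fun n => D (f (φ n) : H)) atTop (𝓝 (Matrix.of X)) := hlim
  have hinv : ∀ γ, D γ⁻¹ = (D γ).det • (D γ).adjugate := by
    intro γ
    have hsq : (D γ).det * (D γ).det = 1 := by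
      have := hD.det γ
      rw [← abs_mul_abs_self, this, one_mul]
    calc D γ⁻¹ = D γ⁻¹ * ((D γ).det • ((D γ).det • (1 : M2))) := by
          rw [smul_smul, hsq, one_smul, mul_one]
      _ = D γ⁻¹ * ((D γ).det • (D γ * (D γ).adjugate)) := by rw [Matrix.mul_adjugate]
      _ = (D γ).det • ((D γ⁻¹ * D γ) * (D γ).adjugate) := by
          rw [mul_smul_comm, mul_assoc]
      _ = _ := by rw [D_inv', one_mul]
  have hdet : |(Matrix.of X : M2).det| = 1 := by
    have h1 := ((det_cont.abs).tendsto (Matrix.of X)).comp hlim'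
    have h2 : Tendsto (fun n => |(D (f (φ n) : H)).det|) atTop (𝓝 1) := by
      simp only [hD.det]
      exact tendsto_const_nhds
    exact tendsto_nhds_unique h1 h2
  have hXX : (Matrix.of X : M2).det * (Matrix.of X : M2).det = 1 := by
    rw [← abs_mul_abs_self, hdet, one_mul]
  have h1 : Tendsto (fun n => D ((f (φ n) : H)⁻¹ * (f (φ (n + 1)) : H))) atTop (𝓝 1) := by
    have hadj : Continuous fun A : M2 => A.det • A.adjugate := by
      exact det_cont.smul continuous_id.matrix_adjugate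
    have h2 := (hadj.tendsto (Matrix.of X)).comp hlim'
    have h3 : Tendsto (fun n => D (f (φ (n + 1)) : H)) atTop (𝓝 (Matrix.of X)) :=
      hlim'.comp (tendsto_add_atTop_nat 1)
    have h4 := h2.mul h3
    rw [smul_mul_assoc, Matrix.adjugate_mul, smul_smul, hXX, one_smul] at h4
    refine h4.congr fun n => ?_
    rw [map_mul, hinv]
    rfl
  have h2 : Tendsto (fun n => ‖rl D ((f (φ n) : H)⁻¹ * (f (φ (n + 1)) : H)) - 1‖) atTop (𝓝 0) := by
    have h3 : Continuous fun A : M2 => ‖aff A 0 1 - 1‖ := by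
      have h4 : Continuous fun A : M2 => aff A 0 1 :=
        aff_cont continuous_id continuous_const 1
      exact (h4.sub continuous_const).norm
    have h4 := (h3.tendsto 1).comp h1
    rw [aff_one, sub_self, norm_zero] at h4
    exact h4
  obtain ⟨n, hn⟩ := (h2.eventually_lt_const hε).exists
  have h3 := hdisc _ hn
  have h4 : (f (φ n) : H) = (f (φ (n + 1)) : H) := inv_mul_eq_one.1 h3
  have h5 := f.injective (Subtype.ext h4)
  exact absurd (hφ.injective h5) (Nat.ne_of_lt (Nat.lt_succ_self n))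

end

end Pool.Agent.Helper63.Mk
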